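import Pool.Agent.H98.B.Concl

/-!
# The analytic half
-/

set_option autoImplicit false
set_option linter.unusedSectionVars false
set_option linter.unusedVariables false

open Complex NumberField IsDedekindDomain Filter Topology
open scoped PeriodPair nonZeroDivisors

namespace Pool.Agent.H98.B

open Pool.Agent.K7.H56
open Pool.Agent.K7.H56.P
open Pool.Agent.R430
open Pool.Agent.Y696 Pool.Agent.W192.HK Pool.Agent.TH936.CM H667R3
open Pool.Agent.TH936.PU
open Pool.Agent.Y688 (NI HL euler v_sub_one v_root v_RR dn dn_surj)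
open Pool.Agent.K7.H70.AS
open Pool.Agent.K7.H70.SM
open Pool.Agent.K7.H56.M
open Pool.Agent.W189.NF (aV eV)
open Pool.Agent.K7.H70.SE (GoodG hbd)
open Pool.Agent.K7.H70.TW (Sq Ed ep loc hbd_mul sg_apply LSeries_change)

section tw
variable {k F : Type} [Field k] [NumberField k] [Field F] [NumberField F] [Algebra k F]
  [IsGalois k F] {δ : k} {θ : F} {ι : Pool.Agent.Y688.RR →+* 𝓞 k}

/-- **the L-series of the twist by `δ` from the function of `k(√δ)`** -/
theorem an_twist (h : Sq δ θ) (hK : GoodG k) (hNG : NG k) (h3 : Add3 k) (hU : Unr2 F)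
    (h2 : Module.finrank k F = 2) {d : ℕ} (hd : Module.finrank ℚ k = 2 * d) {f fF : ℂ → ℂ}
    (hf : VV ι (X0 1) f) (hf1 : f 1 ≠ 0) (hF : VV ((algebraMap (𝓞 k) (𝓞 F)).comp ι) (X0 1) fF)
    {m : ℕ} (hm : analyticOrderAt fF 1 = m) :
    (∀ v : HeightOneSpectrum (𝓞 k), HBd (aV (Ed δ) v) (eV (Ed δ) v) (nK v)) ∧
      Bsd (Ed δ) (2 * m) := by
  obtain ⟨X, hX, hX2⟩ := exists_sgn (N := k) (K := F) h2
  obtain ⟨a, ha⟩ := exists_rt ι
  have hUk : Unr2 k := unr2_down (F := k) (K := F) hU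
  obtain ⟨n0, hn0, hnr0⟩ := exists_odd (F := k) (K := F) hU
  set n : ℕ := 3 * n0 with hndef
  have hn : Odd n := Odd.mul (by decide) hn0
  have h3n : 3 ∣ n := ⟨n0, rfl⟩
  have hnr : ∀ w : HeightOneSpectrum (𝓞 F), Rm k w → (n : 𝓞 k) ∈ (dn k w).asIdeal := by
    intro w hw
    rw [hndef, Nat.cast_mul]
    exact Ideal.mul_mem_left _ _ (hnr0 w hw)
  have hU' : ∀ v : HeightOneSpectrum (𝓞 k), (2 : 𝓞 k) ∈ v.asIdeal →
      v.valuation k 2 = WithZero.exp (-1 : ℤ) := fun v hv => hUk v (by exact_mod_cast hv)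
  have iX : IH n (fun I : Ideal (𝓞 k) => X0 3 I * XR X I) := XR3_ih ha hd hU' hX2 hn h3n hnr
  obtain ⟨g, -, hg, -, -⟩ := core_gen2 k ι d hd hUk n _ _ iX iX hn
  have h2P : ∀ w : HeightOneSpectrum (𝓞 F), Rm k w → (2 : 𝓞 k) ∉ (dn k w).asIdeal := by
    intro w hw h2w
    obtain ⟨j, hj⟩ := hn
    apply (dn k w).isPrime.ne_top
    rw [Ideal.eq_top_iff_one]
    have : (1 : 𝓞 k) = (n : 𝓞 k) - 2 * (j : 𝓞 k) := by
      rw [hj]
      push_cast
      ring
    rw [this]
    exact Ideal.sub_mem _ (hnr w hw) (Ideal.mul_mem_right _ _ h2w)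
  have e1 := L_prod_ev h2 hX h2P hF hf iX hg
  have o1 : analyticOrderAt fF 1 = analyticOrderAt g 1 := ord_mul_left hf.an hf1 hg.an e1
  obtain ⟨hb, hs⟩ := tw_big h hK hNG h3 hU hX iX hg
  refine ⟨hb, bsd_of (Lam_mero hg) (Lam_an hg) hs ?_⟩
  exact ord_Lam hg.an (by rw [← o1, hm])

end tw

/-- the quadratic extension by the square root of five -/
lemma exists_q5 (T : Type) [Field T] [NumberField T] (hT : P5 T) :
    ∃ (D : Type) (_ : Field D) (_ : NumberField D) (_ : Algebra T D), Module.finrank T D = 2 ∧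
      ∃ r : D, r ^ 2 = 5 := by
  have hirr : Irreducible (Polynomial.X ^ 2 - Polynomial.C (5 : T)) := by
    rw [X_pow_sub_C_irreducible_iff_of_prime Nat.prime_two]
    exact fun b => five_ns hT b
  obtain ⟨r, hr⟩ := IsAlgClosed.exists_pow_nat_eq (5 : AlgebraicClosure T) two_pos
  have hint : IsIntegral T r := Algebra.IsIntegral.isIntegral r
  have hmin : minpoly T r = Polynomial.X ^ 2 - Polynomial.C (5 : T) := by
    refine (minpoly.eq_of_irreducible_of_monic hirr ?_ (Polynomial.monic_X_pow_sub_C _ two_ne_zero)).symm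
    rw [map_sub, map_pow, Polynomial.aeval_X, Polynomial.aeval_C, map_ofNat, hr, sub_self]
  have h3 := IntermediateField.adjoin.finrank hint
  rw [hmin, Polynomial.natDegree_X_pow_sub_C] at h3
  have hfd : FiniteDimensional T (IntermediateField.adjoin T {r}) :=
    IntermediateField.adjoin.finiteDimensional hint
  have hnf : NumberField (IntermediateField.adjoin T {r}) := NumberField.of_module_finite T _
  refine ⟨IntermediateField.adjoin T {r}, inferInstance, hnf, inferInstance, h3,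
    ⟨r, IntermediateField.mem_adjoin_simple_self T r⟩, Subtype.ext ?_⟩
  exact hr

end Pool.Agent.H98.B
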