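import Pool.Agent.H98.B.An

/-!
# The analytic half for the fields of the family
-/

set_option autoImplicit false
set_option linter.unusedSectionVars false
set_option linter.unusedVariables false

open Complex NumberField IsDedekindDomain Filter Topology
open scoped PeriodPair nonZeroDivisors Classical

namespace Pool.Agent.H98.B

open Pool.Agent.K7.H56
open Pool.Agent.K7.H56.P
open Pool.Agent.R430
open Pool.Agent.Y696 Pool.Agent.W192.HK Pool.Agent.TH936.CM H667R3
open Pool.Agent.TH936.PU
open Pool.Agent.Y688 (NI HL euler v_sub_one v_root v_RR dn dn_surj)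
open Pool.Agent.K7.H70.AS
open Pool.Agent.K7.H70.SM
open Pool.Agent.K7.H56.M
open Pool.Agent.W189.NF (aV eV)
open Pool.Agent.K7.H70.SE (GoodG hbd good3)
open Pool.Agent.K7.H73.L3 (gz3 ngs3 base_om3 fr3)
open Pool.Agent.K7.H70.TW (Sq Ed ep loc hbd_mul sg_apply LSeries_change exists_sq)

section fam
variable {M0 L : Type} [Field M0] [NumberField M0] [IsCyclotomicExtension {3} ℚ M0] [Field L]
  [NumberField L] [Algebra M0 L] [IsGalois M0 L]

/-- the order, for all the fields of the family -/
theorem tow' (hr : ∃ r : ℕ, Module.finrank M0 L = 2 ^ r) (hU : Unr2 L) (hG : Gd M0 L)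
    {T : Type} [Field T] [NumberField T] [Algebra T L] {a : T} (ha : a ^ 2 = -3)
    (ι : Pool.Agent.Y688.RR →+* 𝓞 T) (hT : P5 T) {D : Type} [Field D] [NumberField D] [Algebra T D]
    (hD : Module.finrank T D = 2) (h5 : ∃ ρ : D, ρ ^ 2 = 5) {g : ℂ → ℂ}
    (hg : VV ((algebraMap (𝓞 T) (𝓞 D)).comp ι) (X0 1) g) : analyticOrderAt g 1 = 1 := by
  obtain ⟨r, hr⟩ := hr
  obtain ⟨f, hf⟩ := exists_alg (F0 := M0) (K := L) (M := T) ha
  let _ : Algebra M0 T := f.toAlgebra
  let φ : T →ₐ[M0] L :=
    { (algebraMap T L) with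
      commutes' := fun x => by
        show algebraMap T L (f x) = algebraMap M0 L x
        rw [← hf]
        rfl }
  have hst : IsScalarTower M0 T L := IsScalarTower.of_algebraMap_eq fun x => (φ.commutes x).symm
  have hd : Module.finrank M0 T ∣ 2 ^ r := by
    rw [← hr, ← Module.finrank_mul_finrank M0 T L]
    exact Dvd.intro _ rfl
  obtain ⟨n, -, hn⟩ := (Nat.dvd_prime_pow Nat.prime_two).1 hd
  obtain ⟨i, hi⟩ := iota_desc' (M := M0) (K := T) (gz3 M0).om ι
  exact tow base_ord i hr hU hG n T φ hn hT D hD h5 g (by rw [hi]; exact hg)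

/-- **the analytic half** -/
theorem an_main (hr : ∃ r : ℕ, Module.finrank M0 L = 2 ^ r) (hU : Unr2 L) (hG : Gd M0 L)
    {k K : Type} [Field k] [NumberField k] [Field K] [NumberField K] [Algebra k K] [Algebra K L]
    {a : k} (ha : a ^ 2 = -3) (hK : P5 K) {d : k} (hd0 : d ≠ 0) {e : K}
    (he : e ^ 2 = algebraMap k K d) :
    (∀ v : HeightOneSpectrum (𝓞 k), HBd (aV (Ed (5 * d)) v) (eV (Ed (5 * d)) v) (nK v)) ∧
      Bsd (Ed (5 * d)) (if IsSquare d then 2 else 0) := by
  let _ : Algebra k L := ((algebraMap K L).comp (algebraMap k K)).toAlgebra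
  have hst : IsScalarTower k K L := IsScalarTower.of_algebraMap_eq' rfl
  have hgood : GoodG k := good3 (M := M0) (K := L) hr hG
  have hNG : NG k := ngs3 (F := M0) (K := L) hr
  have h3 : Add3 k := add3_of_ng hNG
  obtain ⟨ι'⟩ := exists_iota (N := k) ⟨(a - 1) / 2, by
    field_simp
    linear_combination ha⟩
  set ι : Pool.Agent.Y688.RR →+* 𝓞 k :=
    ι'.comp (RingEquiv.subringCongr RR_eis : Pool.Agent.Y688.RR →+* eis) with hι
  obtain ⟨r, hr'⟩ := hr
  obtain ⟨dk, hdk, hBk⟩ := base_om3 (F := M0) (K := L) hr' hU hG ha ι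
  have hUk : Unr2 k := unr2_down (F := k) (K := L) hU
  have hUK : Unr2 K := unr2_down (F := K) (K := L) hU
  obtain ⟨f, hf⟩ := exists_VV ι hdk hUk
  have hf1 := ne_of_base hBk hf
  have hk5 : P5 k := five_down (N := k) hK
  by_cases hsq : IsSquare d
  · -- the field `k(√5)`
    obtain ⟨c, hc⟩ := hsq
    have hc0 : c ≠ 0 := by
      rintro rfl
      apply hd0
      rw [hc, mul_zero]
    obtain ⟨D, _, _, _, h2D, ρ, hρ⟩ := exists_q5 k hk5
    have hgD : IsGalois k D := gal2' h2D
    have hUD : Unr2 D := unr2_five hk5 h2D hρ hUk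
    obtain ⟨fD, hfD⟩ := exists_VV ((algebraMap (𝓞 k) (𝓞 D)).comp ι) (d := 2 * dk) (by
      rw [← Module.finrank_mul_finrank ℚ k D, hdk, h2D]
      ring) hUD
    have oD := tow' ⟨r, hr'⟩ hU hG ha ι hk5 h2D ⟨ρ, hρ⟩ hfD
    have hSq : Sq (5 * d) (algebraMap k D c * ρ) := by
      refine ⟨mul_ne_zero (by norm_num) hd0, ?_, ?_⟩
      · rw [mul_pow, hρ, hc, map_mul, map_mul, map_ofNat]
        ring
      · intro σ hσ
        refine five_one hk5 h2D hρ ?_
        rw [map_mul, AlgEquiv.commutes] at hσ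
        exact mul_left_cancel₀ ((map_ne_zero _).2 hc0) hσ
    have h := an_twist hSq hgood hNG h3 hUD h2D hdk hf hf1 hfD (m := 1) (by rw [oD]; rfl)
    rw [if_pos ⟨c, hc⟩]
    exact h
  · -- the biquadratic extension
    set E := IntermediateField.adjoin k {e} with hE
    have heE : e ∈ E := IntermediateField.mem_adjoin_simple_self k e
    set eE : E := ⟨e, heE⟩ with heEd
    have heE2 : eE ^ 2 = algebraMap k E d := Subtype.ext he
    have h2E : Module.finrank k E = 2 := by
      have hirr : Irreducible (Polynomial.X ^ 2 - Polynomial.C d) := by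
        rw [X_pow_sub_C_irreducible_iff_of_prime Nat.prime_two]
        intro b hb
        exact hsq ⟨b, by rw [← hb, pow_two]⟩
      have hmin : minpoly k e = Polynomial.X ^ 2 - Polynomial.C d := by
        refine (minpoly.eq_of_irreducible_of_monic hirr ?_ (Polynomial.monic_X_pow_sub_C _ two_ne_zero)).symm
        rw [map_sub, map_pow, Polynomial.aeval_X, Polynomial.aeval_C, he, sub_self]
      have hint : IsIntegral k e := Algebra.IsIntegral.isIntegral e
      have h3 := IntermediateField.adjoin.finrank hint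
      rw [hmin, Polynomial.natDegree_X_pow_sub_C] at h3
      exact h3
    have hgE : IsGalois k E := gal2' h2E
    have hE5 : P5 E := five_down (N := E) hK
    have hUE : Unr2 E := unr2_down (F := E) (K := K) hUK
    obtain ⟨M, _, _, _, h2M, ρ, hρ⟩ := exists_q5 E hE5
    let _ : Algebra k M := ((algebraMap E M).comp (algebraMap k E)).toAlgebra
    have hstM : IsScalarTower k E M := IsScalarTower.of_algebraMap_eq' rfl
    have hgM : IsGalois k M := five_gal (E := E) hE5 h2M hρ
    have hgEM : IsGalois E M := gal2' h2M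
    have hc := five_comm (N := k) (E := E) (M := M) h2E hE5 h2M hρ
    have hUM : Unr2 M := unr2_five hE5 h2M hρ hUE
    set eM : M := algebraMap E M eE with heM
    have heM2 : eM ^ 2 = algebraMap k M d := by
      rw [heM, ← map_pow, heE2, ← IsScalarTower.algebraMap_apply]
    have heM0 : eM ≠ 0 := by
      intro h0
      rw [h0, zero_pow two_ne_zero] at heM2
      exact hd0 ((map_eq_zero _).1 heM2.symm)
    have hρ0 : ρ ≠ 0 := by
      rintro rfl
      rw [zero_pow two_ne_zero] at hρ
      exact five_ns hE5 0 (by rw [zero_pow two_ne_zero]; exact (map_eq_zero (algebraMap E M)).1 (by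
        rw [map_ofNat]; exact hρ.symm) |>.symm)
    have hns5 : ∀ b : k, b ^ 2 ≠ 5 * d := by
      intro b hb
      apply five_ns hK (algebraMap k K b / e)
      have he0 : e ≠ 0 := by
        rintro rfl
        rw [zero_pow two_ne_zero] at he
        exact hd0 ((map_eq_zero _).1 he.symm)
      rw [div_pow, ← map_pow, hb, map_mul, ← he, map_ofNat]
      field_simp
    -- the field `k(√5)`
    have deg2 : ∀ (x : M) (y : k), x ^ 2 = algebraMap k M y → (∀ b : k, b ^ 2 ≠ y) →
        Module.finrank k (IntermediateField.adjoin k {x}) = 2 := by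
      intro x y hx hy
      have hirr : Irreducible (Polynomial.X ^ 2 - Polynomial.C y) := by
        rw [X_pow_sub_C_irreducible_iff_of_prime Nat.prime_two]
        exact fun b => hy b
      have hmin : minpoly k x = Polynomial.X ^ 2 - Polynomial.C y := by
        refine (minpoly.eq_of_irreducible_of_monic hirr ?_ (Polynomial.monic_X_pow_sub_C _ two_ne_zero)).symm
        rw [map_sub, map_pow, Polynomial.aeval_X, Polynomial.aeval_C, hx, sub_self]
      have hint : IsIntegral k x := Algebra.IsIntegral.isIntegral x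
      have h3 := IntermediateField.adjoin.finrank hint
      rw [hmin, Polynomial.natDegree_X_pow_sub_C] at h3
      exact h3
    set D := IntermediateField.adjoin k {ρ} with hD
    have h2D : Module.finrank k D = 2 := deg2 ρ 5 (by rw [map_ofNat, hρ]) (five_ns hk5)
    set ρD : D := ⟨ρ, IntermediateField.mem_adjoin_simple_self k ρ⟩ with hρD
    have hρD2 : ρD ^ 2 = 5 := Subtype.ext (by
      show ρ ^ 2 = algebraMap D M 5
      rw [map_ofNat, hρ])
    -- the third field
    set θ : M := eM * ρ with hθ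
    have hθ2 : θ ^ 2 = algebraMap k M (5 * d) := by
      rw [hθ, mul_pow, heM2, hρ, map_mul, map_ofNat]
      ring
    obtain ⟨hgD3, hSq⟩ := exists_sq (mul_ne_zero (by norm_num) hd0) hθ2
    set D3 := IntermediateField.adjoin k {θ} with hD3
    have h2D3 : Module.finrank k D3 = 2 := deg2 θ (5 * d) hθ2 hns5
    have hUD3 : Unr2 D3 := unr2_down (F := D3) (K := M) hUM
    have hUD : Unr2 D := unr2_down (F := D) (K := M) hUM
    -- the functions
    obtain ⟨fD, hfD⟩ := exists_VV ((algebraMap (𝓞 k) (𝓞 D)).comp ι) (d := 2 * dk) (by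
      rw [← Module.finrank_mul_finrank ℚ k D, hdk, h2D]
      ring) hUD
    obtain ⟨f3, hf3⟩ := exists_VV ((algebraMap (𝓞 k) (𝓞 D3)).comp ι) (d := 2 * dk) (by
      rw [← Module.finrank_mul_finrank ℚ k D3, hdk, h2D3]
      ring) hUD3
    have hdM : Module.finrank ℚ E = 2 * (2 * dk) := by
      rw [← Module.finrank_mul_finrank ℚ k E, hdk, h2E]
      ring
    obtain ⟨fM, hfM⟩ := exists_VV ((algebraMap (𝓞 k) (𝓞 M)).comp ι) (d := 2 * (2 * dk)) (by
      rw [← Module.finrank_mul_finrank ℚ E M, hdM, h2M]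
      ring) hUM
    have haE : (algebraMap k E a) ^ 2 = -3 := by rw [← map_pow, ha, map_neg, map_ofNat]
    obtain ⟨dE, hdE, hBE⟩ := base_om3 (F := M0) (K := L) hr' hU hG haE ((algebraMap (𝓞 k) (𝓞 E)).comp ι)
    obtain ⟨fE, hfE⟩ := exists_VV ((algebraMap (𝓞 k) (𝓞 E)).comp ι) hdE hUE
    have hfE1 := ne_of_base hBE hfE
    have oD := tow' ⟨r, hr'⟩ hU hG ha ι hk5 h2D ⟨ρD, hρD2⟩ hfD
    have hcomp : (algebraMap (𝓞 E) (𝓞 M)).comp ((algebraMap (𝓞 k) (𝓞 E)).comp ι) =
        (algebraMap (𝓞 k) (𝓞 M)).comp ι := by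
      rw [← RingHom.comp_assoc, ← IsScalarTower.algebraMap_eq (𝓞 k) (𝓞 E) (𝓞 M)]
    have oM := tow' ⟨r, hr'⟩ hU hG haE ((algebraMap (𝓞 k) (𝓞 E)).comp ι) hE5 h2M ⟨ρ, hρ⟩
      (g := fM) (by rw [hcomp]; exact hfM)
    -- the automorphisms
    have fxgen : ∀ (x : M) (σ : Gal(M/k)), Fx (N := k) (M := M) (IntermediateField.adjoin k {x}) σ ↔
        σ x = x := by
      intro x σ
      constructor
      · intro h
        exact h ⟨x, IntermediateField.mem_adjoin_simple_self k x⟩
      · intro h y
        have h2' : IntermediateField.adjoin k {x} ≤ IntermediateField.fixedField (Subgroup.zpowers σ) := by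
          rw [IntermediateField.adjoin_simple_le_iff]
          intro τ
          obtain ⟨τ, n, rfl⟩ := τ
          show (σ ^ n) x = x
          have h3 : ∀ j : ℕ, (σ ^ j) x = x := by
            intro j
            induction j with
            | zero => rfl
            | succ j ih => rw [pow_succ, AlgEquiv.mul_apply, h, ih]
          obtain ⟨j, rfl | rfl⟩ := n.eq_nat_or_neg
          · rw [zpow_natCast]
            exact h3 j
          · rw [zpow_neg, zpow_natCast]
            show ((σ ^ j)⁻¹ : M ≃ₐ[k] M) x = x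
            rw [AlgEquiv.aut_inv, AlgEquiv.symm_apply_eq, h3 j]
        exact (h2' y.2) ⟨σ, Subgroup.mem_zpowers σ⟩
    have fxE : ∀ σ : Gal(M/k), Fx (N := k) (M := M) E σ ↔ σ eM = eM := by
      intro σ
      constructor
      · intro h
        exact h eE
      · intro h
        refine (fx_iff σ).1 ((exists_sq (K := K) hd0 he).2.gen _ ?_)
        apply (algebraMap E M).injective
        have h4 := AlgEquiv.restrictNormal_commutes σ E eE
        rw [← heM, h] at h4
        exact h4
    have hsgn : ∀ (x : M) (y : k), x ^ 2 = algebraMap k M y → ∀ σ : Gal(M/k), σ x = x ∨ σ x = -x := by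
      intro x y hx σ
      have h6 : (σ x) ^ 2 = x ^ 2 := by rw [← map_pow, hx, AlgEquiv.commutes]
      exact sq_eq_sq_iff_eq_or_eq_neg.1 h6
    have hgen : ∀ σ : Gal(M/k), Fx (N := k) (M := M) E σ → Fx (N := k) (M := M) D σ → σ = 1 := by
      intro σ h1 h2
      exact five_hgen hE5 h2M hρ h1 ((fxgen ρ σ).1 h2)
    have hZ : ∀ σ : Gal(M/k), Fx (N := k) (M := M) D3 σ ↔
        (Fx (N := k) (M := M) D σ ↔ Fx (N := k) (M := M) E σ) := by
      intro σ
      rw [fxgen θ σ, fxgen ρ σ, fxE σ, hθ, map_mul]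
      have hn1 : eM ≠ -eM := fun h => heM0 (self_eq_neg.1 h)
      have hn2 : ρ ≠ -ρ := fun h => hρ0 (self_eq_neg.1 h)
      have hn3 : eM * ρ ≠ -(eM * ρ) := fun h => mul_ne_zero heM0 hρ0 (self_eq_neg.1 h)
      rcases hsgn eM d heM2 σ with h1 | h1 <;>
        rcases hsgn ρ 5 (by rw [map_ofNat, hρ]) σ with h2 | h2 <;>
        rw [h1, h2] <;> simp [hn1.symm, hn2.symm, hn3.symm]
    have hb := biq (N := k) (E := E) (D := D) (D3 := D3) (M := M) hdk hUM h2E h2D h2D3 h2M hc hgen hZ
      hf hfE hfD hf3 hfM hf1 hfE1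
    rw [oM, oD] at hb
    have o3 : analyticOrderAt f3 1 = ((0 : ℕ) : ℕ∞) := by
      generalize analyticOrderAt f3 1 = x at hb
      induction x using ENat.recTopCoe with
      | top => simp at hb
      | coe n =>
        have h1 : ((1 : ℕ) : ℕ∞) = ((1 + n : ℕ) : ℕ∞) := by
          push_cast
          exact hb
        have h2 : 1 = 1 + n := by exact_mod_cast h1
        have h3 : n = 0 := by omega
        rw [h3]
    have h := an_twist hSq hgood hNG h3 hUD3 h2D3 hdk hf hf1 hf3 (m := 0) o3
    rw [if_neg hsq]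
    exact h

end fam

end Pool.Agent.H98.B
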