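import Pool.Agent.H98.B.Fin5

/-!
# The base of the tower
-/

set_option autoImplicit false
set_option linter.unusedSectionVars false
set_option linter.unusedVariables false

open Complex NumberField IsDedekindDomain Filter Topology
open scoped PeriodPair nonZeroDivisors

namespace Pool.Agent.H98.B

open Pool.Agent.K7.H56
open Pool.Agent.K7.H56.P
open Pool.Agent.R430
open Pool.Agent.Y696 Pool.Agent.W192.HK Pool.Agent.TH936.CM H667R3
open Pool.Agent.TH936.PU
open Pool.Agent.TH936.AC Pool.Agent.TH936.AD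
open Pool.Agent.Y688 (NI HL euler v_sub_one v_root v_RR dn dn_surj)
open Pool.Agent.K7.H70.AS
open Pool.Agent.K7.H56.M
open Pool.Agent.K7.H73.NM (eI rN_map j_surj)

section frob
variable {N D : Type} [Field N] [NumberField N] [Field D] [NumberField D] [Algebra N D]
  [IsGalois N D] {r : D}

/-- the order of the residue field -/
lemma abs_prime (P : HeightOneSpectrum (𝓞 N)) (w : HeightOneSpectrum (𝓞 D))
    (hw : dn N w = P) : ∃ (p n : ℕ), p.Prime ∧ Ideal.absNorm P.asIdeal = p ^ n ∧ n ≠ 0 ∧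
      CharP (𝓞 D ⧸ w.asIdeal) p ∧ (p : 𝓞 N) ∈ P.asIdeal := by
  have hmax : P.asIdeal.IsMaximal := P.isMaximal
  have hfin : Finite (𝓞 N ⧸ P.asIdeal) := Ideal.finiteQuotientOfFreeOfNeBot _ P.ne_bot
  let _ : Field (𝓞 N ⧸ P.asIdeal) := Ideal.Quotient.field _
  let _ : Fintype (𝓞 N ⧸ P.asIdeal) := Fintype.ofFinite _
  obtain ⟨p, hp⟩ := CharP.exists (𝓞 N ⧸ P.asIdeal)
  obtain ⟨n, hpp, hn⟩ := FiniteField.card (𝓞 N ⧸ P.asIdeal) p
  have hpP : (p : 𝓞 N) ∈ P.asIdeal := by
    rw [← Ideal.Quotient.eq_zero_iff_mem, map_natCast, CharP.cast_eq_zero]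
  refine ⟨p, n, hpp, ?_, n.ne_zero, ?_, hpP⟩
  · rw [Ideal.absNorm_apply, Submodule.cardQuot_apply, Nat.card_eq_fintype_card, ← hn]
  · have h1 : ((p : ℕ) : 𝓞 D ⧸ w.asIdeal) = 0 := by
      have h2 : (p : 𝓞 N) ∈ (dn N w).asIdeal := by rw [hw]; exact hpP
      have h3 : algebraMap (𝓞 N) (𝓞 D) p ∈ w.asIdeal := h2
      rw [map_natCast] at h3
      rw [← Ideal.Quotient.eq_zero_iff_mem, map_natCast] at h3
      exact h3
    have hmaxw : w.asIdeal.IsMaximal := w.isMaximal
    let _ : Field (𝓞 D ⧸ w.asIdeal) := Ideal.Quotient.field _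
    exact (CharP.charP_iff_prime_eq_zero hpp).2 h1

/-- **the character of the field `N(√5)`** -/
theorem XR_five (hN : P5 N) (h2 : Module.finrank N D = 2) (hr : r ^ 2 = 5) {X : Gal(D/N) →* ℂˣ}
    (hX : ∀ σ, σ ≠ 1 → X σ = -1) (P : HeightOneSpectrum (𝓞 N)) :
    XR X P.asIdeal = ((s5 ((Ideal.absNorm P.asIdeal : ℕ) : ZMod 5) : ℤ) : ℂ) := by
  by_cases h5 : (5 : 𝓞 N) ∈ P.asIdeal
  · have hP := p5_uniq hN h5
    have hram : P ∈ SR N D := by
      obtain ⟨w, σ, hσ, hin, hw⟩ := five_ram hN h2 hr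
      refine ⟨w, ⟨σ, hσ, hin⟩, ?_⟩
      rw [hP]
      exact HeightOneSpectrum.ext hw
    rw [XR_pos (SR_iff.2 hram)]
    obtain ⟨w, hw⟩ := dn_surj (K := D) P
    obtain ⟨p, n, hp, hn, hn0, -, hpP⟩ := abs_prime P w hw
    have hp5 : p = 5 := by
      by_contra hne
      have hcop : Nat.Coprime p 5 := (Nat.coprime_primes hp (by norm_num)).2 hne
      have hcop' : IsCoprime (p : ℤ) (5 : ℤ) := Nat.isCoprime_iff_coprime.2 hcop
      obtain ⟨a, b, hab⟩ := hcop'
      apply P.isPrime.ne_top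
      rw [Ideal.eq_top_iff_one]
      have e : (1 : 𝓞 N) = (a : 𝓞 N) * (p : 𝓞 N) + (b : 𝓞 N) * 5 := by
        have := congrArg (fun z : ℤ => (z : 𝓞 N)) hab
        push_cast at this
        exact this.symm
      rw [e]
      exact Ideal.add_mem _ (Ideal.mul_mem_left _ _ hpP) (Ideal.mul_mem_left _ _ h5)
    rw [hn, hp5]
    have e : (((5 ^ n : ℕ)) : ZMod 5) = 0 := by
      push_cast
      have : (5 : ZMod 5) = 0 := by decide
      rw [this, zero_pow hn0]
    rw [e]
    have : s5 0 = 0 := by decide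
    rw [this]
    norm_num
  · have hnr : P ∉ SR N D := by
      rintro ⟨w, ⟨σ, hσ, hin⟩, hw⟩
      apply hσ
      refine five_away hN h2 hr ?_ hin
      intro h
      apply h5
      rw [← hw]
      show algebraMap (𝓞 N) (𝓞 D) 5 ∈ w.asIdeal
      rwa [map_ofNat]
    rw [XR_neg (fun h => hnr (SR_iff.1 h)), XX_prime _ (Ideal.prime_of_isPrime P.ne_bot P.isPrime)]
    obtain ⟨w, hw, hfr⟩ := frP_spec (K := D) P
    obtain ⟨p, n, hp, hn, hn0, hch, hpP⟩ := abs_prime P w hw
    have hFp : Fact p.Prime := ⟨hp⟩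
    set σ := frP D P.asIdeal with hσd
    have hmaxw : w.asIdeal.IsMaximal := w.isMaximal
    let _ : Field (𝓞 D ⧸ w.asIdeal) := Ideal.Quotient.field _
    have h5w : (5 : 𝓞 D) ∉ w.asIdeal := by
      intro h
      apply h5
      rw [← hw]
      show algebraMap (𝓞 N) (𝓞 D) 5 ∈ w.asIdeal
      rwa [map_ofNat]
    have hint : IsIntegral ℤ ((1 + r) / 2) := by
      refine ⟨Polynomial.X ^ 2 - Polynomial.X - 1, ?_, ?_⟩
      · monicity!
      · simp only [Polynomial.eval₂_sub, Polynomial.eval₂_pow, Polynomial.eval₂_X, Polynomial.eval₂_one]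
        field_simp
        linear_combination hr
    obtain ⟨z, hz⟩ : ∃ z : 𝓞 D, (z : D) = (1 + r) / 2 := ⟨⟨_, hint⟩, rfl⟩
    have hz2 : z ^ 2 = z + 1 := by
      apply RingOfIntegers.ext
      have e1 : ((z ^ 2 : 𝓞 D) : D) = (z : D) ^ 2 := by push_cast; rfl
      have e2 : ((z + 1 : 𝓞 D) : D) = (z : D) + 1 := by push_cast; rfl
      rw [e1, e2, hz]
      field_simp
      linear_combination hr
    have h5z : (2 * z - 1) * (2 * z - 1) = (5 : 𝓞 D) := by linear_combination 4 * hz2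
    have h5zw : (2 * z - 1 : 𝓞 D) ∉ w.asIdeal := fun h => h5w (by
      rw [← h5z]
      exact Ideal.mul_mem_left _ _ h)
    have hcong := hfr z
    have hq := fin5 (κ := 𝓞 D ⧸ w.asIdeal) (p := p) (θ := Ideal.Quotient.mk w.asIdeal z)
      (by rw [← map_pow, hz2, map_add, map_one]) n
    rw [hn] at hcong ⊢
    have hcong' : Ideal.Quotient.mk w.asIdeal (σ • z) = (Ideal.Quotient.mk w.asIdeal z) ^ (p ^ n) := by
      rw [← map_pow, Ideal.Quotient.eq]
      exact hcong
    have hσz : σ ≠ 1 → σ • z = 1 - z := by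
      intro hne
      apply RingOfIntegers.ext
      show σ (z : D) = ((1 - z : 𝓞 D) : D)
      have e2 : ((1 - z : 𝓞 D) : D) = 1 - (z : D) := by push_cast; rfl
      rw [e2, hz, map_div₀, map_add, map_one, five_neg hN h2 hr hne, map_ofNat]
      field_simp
      ring
    have hdich : ∀ m : ZMod 5, m = 0 ∨ s5 m = 1 ∨ s5 m = -1 := by decide
    rcases hdich ((p ^ n : ℕ) : ZMod 5) with h | h | h
    · exfalso
      rw [ZMod.natCast_eq_zero_iff] at h
      have h6 := (Nat.Prime.dvd_of_dvd_pow (by norm_num) h)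
      have h7 : 5 = p := (Nat.prime_dvd_prime_iff_eq (by norm_num) hp).1 h6
      apply h5
      have : ((p : ℕ) : 𝓞 N) = 5 := by rw [← h7]; norm_num
      rwa [this] at hpP
    · have h6 : σ = 1 := by
        by_contra hne
        have h7 := hq.1 h
        rw [← hcong', hσz hne, Ideal.Quotient.eq] at h7
        apply h5zw
        have : (2 * z - 1 : 𝓞 D) = -(1 - z - z) := by ring
        rw [this, Ideal.neg_mem_iff]
        exact h7
      rw [h6, map_one, h]
      norm_num
    · have h6 : σ ≠ 1 := by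
        intro h1
        have h7 := hq.2 h
        rw [← hcong', h1, one_smul, ← map_one (Ideal.Quotient.mk w.asIdeal), ← map_sub,
          Ideal.Quotient.eq] at h7
        apply h5zw
        have : (2 * z - 1 : 𝓞 D) = z - (1 - z) := by ring
        rw [this]
        exact h7
      rw [hX σ h6, h]
      simp

end frob

end Pool.Agent.H98.B
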