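import Pool.Agent.H98.B.Base

/-!
# The base of the tower
-/

set_option autoImplicit false
set_option linter.unusedSectionVars false
set_option linter.unusedVariables false

open Complex NumberField IsDedekindDomain Filter Topology
open scoped PeriodPair nonZeroDivisors

namespace Pool.Agent.H98.B

open Pool.Agent.K7.H56
open Pool.Agent.K7.H56.P
open Pool.Agent.R430
open Pool.Agent.Y696 Pool.Agent.W192.HK Pool.Agent.TH936.CM H667R3
open Pool.Agent.TH936.PU
open Pool.Agent.TH936.AC Pool.Agent.TH936.AD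
open Pool.Agent.Y688 (NI HL euler v_sub_one v_root v_RR dn dn_surj)
open Pool.Agent.K7.H70.AS
open Pool.Agent.K7.H70.SM
open Pool.Agent.K7.H56.M
open Pool.Agent.K7.H73.NM (eI rN_map j_surj)
open Pool.Agent.K7.H73.L3 (gz3 base3 fr3)

section fe

lemma PN_eI {N : Type} [Field N] [NumberField N] [IsCyclotomicExtension {3} ℚ N]
    (ι : Pool.Agent.Y688.RR →+* 𝓞 N) (J : Ideal eis) :
    PN ι (eI (iE ι) J) = (starRingEnd ℂ) (psi J) := by
  unfold PN
  rw [show rN (iE ι) (eI (iE ι) J) = J from rN_map (iE ι) J]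

lemma abs_eI {N : Type} [Field N] [NumberField N] [IsCyclotomicExtension {3} ℚ N]
    (ι : Pool.Agent.Y688.RR →+* 𝓞 N) (J : Ideal eis) :
    Ideal.absNorm (eI (iE ι) J) = Ideal.absNorm J := by
  rw [← rN_abs (iE ι), show rN (iE ι) (eI (iE ι) J) = J from rN_map (iE ι) J]

/-- the transfer of the functions -/
lemma VV_of {N : Type} [Field N] [NumberField N] [IsCyclotomicExtension {3} ℚ N]
    (ι : Pool.Agent.Y688.RR →+* 𝓞 N) {X : Ideal (𝓞 N) → ℂ} {θ : Ideal eis → ℂ}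
    (hX : ∀ J, X (eI (iE ι) J) * (starRingEnd ℂ) (psi J) = (starRingEnd ℂ) (θ J)) {F : ℂ → ℂ}
    (hF1 : Differentiable ℂ F)
    (hF2 : ∀ z : ℂ, 3 / 2 < z.re → HasSum (fun I : Ideal eis => θ I * (nm I : ℂ) ^ (-z)) (F z)) :
    VV ι X (fun s => (starRingEnd ℂ) (F ((starRingEnd ℂ) s))) := by
  refine ⟨mero_conj fun z _ => (hF1.analyticAt z).meromorphicAt, an_conj (hF1.analyticAt _), ?_⟩
  intro s hs
  have hs' : 3 / 2 < ((starRingEnd ℂ) s).re := by rwa [Complex.conj_re]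
  have h1 := (hF2 _ hs').map (starRingEnd ℂ) Complex.continuous_conj
  have h2 : HasSum (fun I : Ideal (𝓞 N) => gI ι X s I)
      ((starRingEnd ℂ) (F ((starRingEnd ℂ) s))) := by
    rw [← (eI (iE ι)).hasSum_iff]
    refine h1.congr_fun ?_
    intro J
    show gI ι X s (eI (iE ι) J) = (starRingEnd ℂ) (θ J * (nm J : ℂ) ^ (-(starRingEnd ℂ) s))
    have h5 : (nm J : ℂ) = ((Ideal.absNorm J : ℕ) : ℂ) := by
      rw [← abs_nm]
      push_cast
      rfl
    unfold gI
    rw [PN_eI, abs_eI, hX, map_mul, h5]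
    congr 1
    by_cases hN0 : Ideal.absNorm J = 0
    · rw [hN0, Nat.cast_zero]
      have hs0 : s ≠ 0 := by
        rintro rfl
        rw [Complex.zero_re] at hs
        norm_num at hs
      rw [Complex.zero_cpow (neg_ne_zero.2 hs0), Complex.zero_cpow (neg_ne_zero.2 (by
        rwa [Ne, map_eq_zero])), map_zero]
    · have h7 : ((Ideal.absNorm J : ℕ) : ℂ) = ((Ideal.absNorm J : ℝ) : ℂ) := by push_cast; rfl
      rw [← map_neg, h7, Complex.cpow_conj _ _ (by
        rw [Complex.arg_ofReal_of_nonneg (Nat.cast_nonneg _)]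
        exact Real.pi_pos.ne), Complex.conj_ofReal, Complex.conj_conj]
  have h3 : Function.support (fun I : Ideal (𝓞 N) => gI ι X s I) ⊆ {I | I ≠ ⊥} := by
    intro I hI
    rw [Function.mem_support] at hI
    rintro rfl
    apply hI
    unfold gI
    rw [PN_bot]
    simp
  exact (hasSum_subtype_iff_of_support_subset h3).2 h2

lemma Wc_psi (N : Type) [Field N] [NumberField N] [IsCyclotomicExtension {3} ℚ N]
    (ι : Pool.Agent.Y688.RR →+* 𝓞 N) {φ : eis} {T1 : Finset eis}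
    (hS : Sys (sp (3 : eis)) {⊤} ⊤ φ T1) : Wc om 1 (sp (3 : eis)) ⊤ φ T1 psi = 1 := by
  obtain ⟨hW, F, hF1, hF2, -, hF4⟩ := afe eis om qp_eis (sp (3 : eis)) psi hc_psi cs_psi {⊤} ⊤ φ T1 hS _ rfl
  rcases hW with h | h
  · exact h
  · exfalso
    rw [h] at hF4
    have h0 : F 1 = 0 := by
      rw [hF4]
      ring
    have hV : VV ι (X0 1) (fun s => (starRingEnd ℂ) (F ((starRingEnd ℂ) s))) := by
      refine VV_of ι (fun J => ?_) hF1 hF2
      have h6 : X0 1 (eI (iE ι) J) = 1 := X0_pos (by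
        rw [Nat.cast_one, Ideal.span_singleton_one, ← Ideal.one_eq_top]
        exact isCoprime_one_right)
      rw [h6, one_mul]
    refine ne_of_base (base3 N ι) hV ?_
    show (starRingEnd ℂ) (F ((starRingEnd ℂ) 1)) = 0
    rw [map_one, h0, map_zero]

/-- **the L-function of the twist by five** -/
theorem exists_F5 (N : Type) [Field N] [NumberField N] [IsCyclotomicExtension {3} ℚ N]
    (ι : Pool.Agent.Y688.RR →+* 𝓞 N) : ∃ F : ℂ → ℂ, Differentiable ℂ F ∧
      (∀ z : ℂ, 3 / 2 < z.re → HasSum (fun I : Ideal eis => th5 I * (nm I : ℂ) ^ (-z)) (F z)) ∧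
      F 1 = 0 ∧ deriv F 1 ≠ 0 := by
  obtain ⟨φ, T1, hS, hq⟩ := awc eis om qp_eis (sp (3 : eis)) psi hc_psi cs_psi
  obtain ⟨T, hT, hTa⟩ := hq 5 (by norm_num) cop35 c5 hc_c5 rg_c5 2 od_c5
  have hW := hTa 1 (by norm_num)
  have hpw : (fun I : Ideal eis => psi I * Pool.Agent.W192.HK.pw c5 1 I) = th5 := by
    funext I
    unfold th5 Pool.Agent.W192.HK.pw
    split_ifs with h
    · rw [h]
    · rw [pow_one]
  rw [hpw, Wc_psi N ι hS, psi_five, c5_three] at hW
  have hW' : Wc om 1 (sp (3 : eis) * sp ((5 : ℕ) : eis)) ⊤ (φ * ((5 : ℕ) : eis)) T th5 = -1 := by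
    rw [hW]
    norm_num
  obtain ⟨-, F, hF1, hF2, -, -⟩ := afe eis om qp_eis _ th5 hc_th5 cs_th5 {⊤} ⊤ _ T hT _ rfl
  obtain ⟨h1, h2⟩ := dfe eis om qp_eis 1 le_rfl _ th5 hc_th5 cs_th5 {⊤} ⊤ _ T hT hW' F hF1 (by
    intro z hz
    apply hF2
    norm_num at hz
    linarith)
  rw [Nat.cast_one] at h1 h2
  refine ⟨F, hF1, hF2, h1, ?_⟩
  rw [h2]
  exact mul_ne_zero two_ne_zero sum_ne

end fe

/-! ### five is inert -/

lemma prime5 : Prime (5 : eis) := by
  refine ⟨by norm_num, ?_, ?_⟩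
  · intro h
    have h1 : IsCoprime (5 : eis) 5 := isCoprime_self.2 h
    rw [cop5] at h1
    apply h1
    have := abs_five_mul 1
    rwa [mul_one] at this
  · intro a b hab
    by_contra hcon
    rw [not_or] at hcon
    have ha : ((Ideal.absNorm (sp a : Ideal eis) : ℕ) : ZMod 5) ≠ 0 := fun h => hcon.1 (five_dvd h)
    have hb : ((Ideal.absNorm (sp b : Ideal eis) : ℕ) : ZMod 5) ≠ 0 := fun h => hcon.2 (five_dvd h)
    obtain ⟨c, hc⟩ := hab
    have h1 := abs_five_mul c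
    have h2 : (sp (a * b) : Ideal eis) = sp a * sp b :=
      (Ideal.span_singleton_mul_span_singleton a b).symm
    rw [← hc, h2, map_mul] at h1
    push_cast at h1
    rcases mul_eq_zero.1 h1 with h | h
    · exact ha h
    · exact hb h

theorem p5_base (N : Type) [Field N] [NumberField N] [IsCyclotomicExtension {3} ℚ N]
    (ι : Pool.Agent.Y688.RR →+* 𝓞 N) : P5 N := by
  show (Ideal.span {(5 : 𝓞 N)}).IsPrime
  have hj := j_surj (iE ι)
  have hi := eis_inj (iE ι)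
  have h5 : iE ι 5 = 5 := map_ofNat _ 5
  have hd : ∀ a : eis, iE ι a ∈ Ideal.span {(5 : 𝓞 N)} ↔ (5 : eis) ∣ a := by
    intro a
    rw [Ideal.mem_span_singleton]
    constructor
    · rintro ⟨c, hc⟩
      obtain ⟨c', rfl⟩ := hj c
      refine ⟨c', hi ?_⟩
      rw [hc, map_mul, h5]
    · rintro ⟨c, rfl⟩
      exact ⟨iE ι c, by rw [map_mul, h5]⟩
  rw [Ideal.isPrime_iff]
  constructor
  · intro h
    rw [Ideal.eq_top_iff_one, ← map_one (iE ι), hd] at h
    exact prime5.not_isUnit (isUnit_of_dvd_one h)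
  · intro x y hxy
    obtain ⟨a, rfl⟩ := hj x
    obtain ⟨b, rfl⟩ := hj y
    rw [← map_mul, hd] at hxy
    rw [hd, hd]
    exact prime5.dvd_or_dvd hxy

section base
variable {N D : Type} [Field N] [NumberField N] [IsCyclotomicExtension {3} ℚ N] [Field D]
  [NumberField D] [Algebra N D]

/-- the values of the character -/
lemma XR_c5 (ι : Pool.Agent.Y688.RR →+* 𝓞 N) [IsGalois N D] {r : D} (h2 : Module.finrank N D = 2)
    (hr : r ^ 2 = 5) {X : Gal(D/N) →* ℂˣ} (hX : ∀ σ, σ ≠ 1 → X σ = -1) {n : ℕ}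
    (hi : IH n (fun I : Ideal (𝓞 N) => X0 3 I * XR X I)) (I : Ideal (𝓞 N)) :
    X0 3 I * XR X I = X0 3 I * ((s5 ((Ideal.absNorm I : ℕ) : ZMod 5) : ℤ) : ℂ) := by
  have hN := p5_base N ι
  induction I using UniqueFactorizationMonoid.induction_on_prime with
  | h₁ =>
    show X0 3 (⊥ : Ideal (𝓞 N)) * _ = X0 3 (⊥ : Ideal (𝓞 N)) * _
    rw [X03_bot, zero_mul, zero_mul]
  | h₂ I hI =>
    have h1 : I = ⊤ := by rwa [Ideal.isUnit_iff] at hI
    subst h1
    have h3 : X0 3 (⊤ : Ideal (𝓞 N)) = 1 := (X0_ih 3).top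
    have h4 := hi.top
    rw [h4, h3, Ideal.absNorm_top]
    have : s5 ((1 : ℕ) : ZMod 5) = 1 := by decide
    rw [this]
    norm_num
  | h₃ I P hI hP ih =>
    have h1 := hi.mul P I
    rw [h1, ih, (X0_ih 3).mul, map_mul]
    have h2' : XR X P = ((s5 ((Ideal.absNorm P : ℕ) : ZMod 5) : ℤ) : ℂ) :=
      XR_five hN h2 hr hX ⟨P, Ideal.isPrime_of_prime hP, hP.ne_zero⟩
    rw [h2']
    push_cast
    rw [s5_mul]
    push_cast
    ring

theorem base_ord : BaseOrd := by
  intro F D _ _ _ _ _ _ ι h2 ⟨r, hr⟩ f hf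
  have hN := p5_base F ι
  have hgD : IsGalois F D := gal2' h2
  have hU : Unr2 F := (gz3 F).two
  have hd : Module.finrank ℚ F = 2 * 1 := fr3 F
  obtain ⟨f0, hf0⟩ := exists_VV ι hd hU
  have hf01 := ne_of_base (base3 F ι) hf0
  obtain ⟨X, hX, hX2⟩ := exists_sgn (N := F) (K := D) h2
  obtain ⟨a, ha⟩ := exists_rt ι
  have hnr : ∀ w : HeightOneSpectrum (𝓞 D), Rm F w → ((15 : ℕ) : 𝓞 F) ∈ (dn F w).asIdeal := by
    rintro w ⟨σ, hσ, hin⟩
    have h5 : (5 : 𝓞 D) ∈ w.asIdeal := by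
      by_contra h5
      exact hσ (five_away hN h2 hr h5 hin)
    show algebraMap (𝓞 F) (𝓞 D) ((15 : ℕ) : 𝓞 F) ∈ w.asIdeal
    have e : algebraMap (𝓞 F) (𝓞 D) ((15 : ℕ) : 𝓞 F) = 3 * 5 := by
      rw [map_natCast]
      norm_num
    rw [e]
    exact Ideal.mul_mem_left _ _ h5
  have hU' : ∀ v : HeightOneSpectrum (𝓞 F), (2 : 𝓞 F) ∈ v.asIdeal →
      v.valuation F 2 = WithZero.exp (-1 : ℤ) := fun v hv => hU v (by exact_mod_cast hv)
  have hodd : Odd 15 := by decide
  have iX : IH 15 (fun I : Ideal (𝓞 F) => X0 3 I * XR X I) :=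
    XR3_ih ha hd hU' hX2 hodd ⟨5, by norm_num⟩ hnr
  obtain ⟨g, -, hg, -, -⟩ := core_gen2 F ι 1 hd hU 15 _ _ iX iX hodd
  have h2P : ∀ w : HeightOneSpectrum (𝓞 D), Rm F w → (2 : 𝓞 F) ∉ (dn F w).asIdeal := by
    intro w hw h2w
    apply (dn F w).isPrime.ne_top
    rw [Ideal.eq_top_iff_one]
    have : (1 : 𝓞 F) = ((15 : ℕ) : 𝓞 F) - 2 * 7 := by
      push_cast
      norm_num
    rw [this]
    exact Ideal.sub_mem _ (hnr w hw) (Ideal.mul_mem_right _ _ h2w)
  have e1 := L_prod_ev h2 hX h2P hf hf0 iX hg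
  have o1 : analyticOrderAt f 1 = analyticOrderAt g 1 := ord_mul_left hf0.an hf01 hg.an e1
  obtain ⟨F5, hF1, hF2, hF3, hF4⟩ := exists_F5 F ι
  have hG : VV ι (fun I : Ideal (𝓞 F) => X0 3 I * XR X I)
      (fun s => (starRingEnd ℂ) (F5 ((starRingEnd ℂ) s))) := by
    refine VV_of ι (fun J => ?_) hF1 hF2
    rw [XR_c5 ι h2 hr hX iX, abs_eI]
    unfold th5
    rw [map_mul, c5_conj]
    by_cases hJ : IsCoprime J (sp (3 : eis))
    · have h3 : X0 3 (eI (iE ι) J) = 1 := by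
        apply X0_pos
        have h4 := Pool.Agent.K7.H73.NM.cop_mod hJ
        rw [← abs_eI ι J] at h4
        have h5 : IsCoprime ((Ideal.absNorm (eI (iE ι) J) : ℕ) : ℤ) 3 := by
          rw [Int.isCoprime_iff_gcd_eq_one]
          have : Nat.Coprime (Ideal.absNorm (eI (iE ι) J)) 3 := by
            rw [Nat.coprime_comm, Nat.Prime.coprime_iff_not_dvd Nat.prime_three]
            omega
          exact this
        obtain ⟨u, v, huv⟩ := h5
        rw [Ideal.isCoprime_iff_exists]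
        refine ⟨(u : 𝓞 F) * ((Ideal.absNorm (eI (iE ι) J) : ℕ) : 𝓞 F), ?_, (v : 𝓞 F) * 3, ?_, ?_⟩
        · exact Ideal.mul_mem_left _ _ (Ideal.absNorm_mem _)
        · exact Ideal.mul_mem_left _ _ (by
            rw [Nat.cast_ofNat]
            exact Ideal.mem_span_singleton_self _)
        · have := congrArg (fun z : ℤ => (z : 𝓞 F)) huv
          push_cast at this
          exact this
      rw [h3, one_mul, mul_comm]
      rfl
    · rw [(psi_zero_iff J).2 hJ, map_zero, mul_zero, zero_mul]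
  have e2 : g =ᶠ[𝓝 1] (fun s => (starRingEnd ℂ) (F5 ((starRingEnd ℂ) s))) := VV_ev hg hG
  have o2 : analyticOrderAt g 1 = 1 := by
    rw [analyticOrderAt_congr e2]
    have h3 : HasDerivAt (fun s => (starRingEnd ℂ) (F5 ((starRingEnd ℂ) s)))
        ((starRingEnd ℂ) (deriv F5 1)) 1 := by
      have h4 := (hF1 1).hasDerivAt.conj_conj
      rw [map_one] at h4
      exact h4
    have h5 := hG.an.analyticOrderAt_deriv_add_one
    have h6 : (starRingEnd ℂ) (F5 ((starRingEnd ℂ) 1)) = 0 := by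
      rw [map_one, hF3, map_zero]
    have h7 : analyticOrderAt (deriv fun s => (starRingEnd ℂ) (F5 ((starRingEnd ℂ) s))) 1 = 0 := by
      rw [hG.an.deriv.analyticOrderAt_eq_zero, h3.deriv]
      exact (map_ne_zero _).2 hF4
    rw [h7, zero_add] at h5
    rw [h5]
    congr 1
    funext s
    rw [h6, sub_zero]
  rw [o1, o2]

end base

end Pool.Agent.H98.B
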