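import Pool.Agent.H98.B.Tow

/-!
# Biquadratic extensions
-/

set_option autoImplicit false
set_option linter.unusedSectionVars false
set_option linter.unusedVariables false

open Complex NumberField IsDedekindDomain Filter Topology
open scoped PeriodPair nonZeroDivisors

namespace Pool.Agent.H98.B

open Pool.Agent.K7.H56
open Pool.Agent.K7.H56.P
open Pool.Agent.R430
open Pool.Agent.Y696 Pool.Agent.W192.HK Pool.Agent.TH936.CM H667R3
open Pool.Agent.Y688 (NI HL euler v_sub_one v_root v_RR dn dn_surj)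
open Pool.Agent.K7.H70.AS (mero_eq2 gI_diff hX1 ram_mul VV_prod gal2')
open Pool.Agent.K7.H56.M
open UniqueFactorizationMonoid (normalizedFactors)

section biq
variable {N E D D3 M : Type} [Field N] [NumberField N] [Field E] [NumberField E] [Field D]
  [NumberField D] [Field D3] [NumberField D3] [Field M] [NumberField M]
  [Algebra N E] [Algebra E M] [Algebra N M] [IsScalarTower N E M]
  [Algebra N D] [Algebra D M] [IsScalarTower N D M]
  [Algebra N D3] [Algebra D3 M] [IsScalarTower N D3 M]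
  [IsGalois N M] {ι : Pool.Agent.Y688.RR →+* 𝓞 N}

/-- the automorphism is trivial on a subfield -/
def Fx (E : Type) [Field E] [Algebra N E] [Algebra E M] (σ : Gal(M/N)) : Prop :=
  ∀ x : E, σ (algebraMap E M x) = algebraMap E M x

lemma fx_iff [IsGalois N E] (σ : Gal(M/N)) :
    (AlgEquiv.restrictNormalHom E σ : Gal(E/N)) = 1 ↔ Fx (N := N) (M := M) E σ := by
  constructor
  · intro h x
    have h4 := AlgEquiv.restrictNormal_commutes σ E x
    have h5 : σ.restrictNormal E = 1 := h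
    rw [h5] at h4
    exact h4.symm
  · intro h
    apply AlgEquiv.ext
    intro x
    apply (algebraMap E M).injective
    have h4 := AlgEquiv.restrictNormal_commutes σ E x
    rw [h x] at h4
    exact h4

/-- **the relation between the orders** -/
theorem biq {d : ℕ} (hd : Module.finrank ℚ N = 2 * d) (hU : Unr2 M)
    (h2 : Module.finrank N E = 2) (h2D : Module.finrank N D = 2) (h2D3 : Module.finrank N D3 = 2)
    (h2M : Module.finrank E M = 2)
    (hc : ∀ σ τ : Gal(M/N), σ * τ = τ * σ)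
    (hgen : ∀ σ : Gal(M/N), Fx (N := N) (M := M) E σ → Fx (N := N) (M := M) D σ → σ = 1)
    (hZ : ∀ σ : Gal(M/N), Fx (N := N) (M := M) D3 σ ↔
      (Fx (N := N) (M := M) D σ ↔ Fx (N := N) (M := M) E σ))
    {f fE FD FD3 FM : ℂ → ℂ} (hf : VV ι (X0 1) f) (hfE : VV ((algebraMap (𝓞 N) (𝓞 E)).comp ι) (X0 1) fE)
    (hFD : VV ((algebraMap (𝓞 N) (𝓞 D)).comp ι) (X0 1) FD)
    (hFD3 : VV ((algebraMap (𝓞 N) (𝓞 D3)).comp ι) (X0 1) FD3)
    (hFM : VV ((algebraMap (𝓞 N) (𝓞 M)).comp ι) (X0 1) FM)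
    (hfne : f 1 ≠ 0) (hfE1 : fE 1 ≠ 0) :
    analyticOrderAt FM 1 = analyticOrderAt FD 1 + analyticOrderAt FD3 1 := by
  classical
  have hgE : IsGalois N E := gal2' h2
  have hgD : IsGalois N D := gal2' h2D
  have hgD3 : IsGalois N D3 := gal2' h2D3
  have hgM : IsGalois E M := gal2' h2M
  have hcE : ∀ σ τ : Gal(M/E), σ * τ = τ * σ := comm2 h2M
  obtain ⟨n0, hn0, hnr0⟩ := exists_odd (F := N) (K := M) hU
  set n : ℕ := 3 * n0 with hndef
  have hn : Odd n := Odd.mul (by decide) hn0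
  have h3n : 3 ∣ n := ⟨n0, rfl⟩
  have hnr : ∀ w : HeightOneSpectrum (𝓞 M), Rm N w → (n : 𝓞 N) ∈ (dn N w).asIdeal := by
    intro w hw
    rw [hndef, Nat.cast_mul]
    exact Ideal.mul_mem_left _ _ (hnr0 w hw)
  have hnN : (n : 𝓞 N) ≠ 0 := by
    obtain ⟨k, hk⟩ := hn
    have : n ≠ 0 := by omega
    exact_mod_cast this
  have hnSR : ∀ P ∈ SR N M, (n : 𝓞 N) ∈ P.asIdeal := by
    rintro P ⟨w, hw, rfl⟩
    exact hnr w hw
  have hfin := SR_fin hnN hnr
  set S1 : Finset (HeightOneSpectrum (𝓞 N)) := hfin.toFinset with hS1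
  have hS1m : ∀ P, P ∈ S1 ↔ P ∈ SR N M := fun P => hfin.mem_toFinset
  have h2P : ∀ P : HeightOneSpectrum (𝓞 N), (n : 𝓞 N) ∈ P.asIdeal → (2 : 𝓞 N) ∉ P.asIdeal := by
    intro P hP h2P
    obtain ⟨k, hk⟩ := hn
    apply P.isPrime.ne_top
    rw [Ideal.eq_top_iff_one]
    have : (1 : 𝓞 N) = (n : 𝓞 N) - 2 * (k : 𝓞 N) := by
      rw [hk]
      push_cast
      ring
    rw [this]
    exact Ideal.sub_mem _ hP (Ideal.mul_mem_right _ _ h2P)
  have hUN : Unr2 N := unr2_down (F := N) (K := M) hU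
  have hUE : Unr2 E := unr2_down (F := E) (K := M) hU
  obtain ⟨a, ha⟩ := exists_rt ι
  obtain ⟨aE, haE⟩ := exists_rt ((algebraMap (𝓞 N) (𝓞 E)).comp ι)
  have hdE : Module.finrank ℚ E = 2 * (2 * d) := by
    rw [← Module.finrank_mul_finrank ℚ N E, hd, h2]
    ring
  obtain ⟨XD, hXD, hXD2⟩ := exists_sgn (N := N) (K := D) h2D
  obtain ⟨X3, hX3, hX32⟩ := exists_sgn (N := N) (K := D3) h2D3
  obtain ⟨YE, hYE, hYE2⟩ := exists_sgn (N := N) (K := E) h2
  set X : Gal(M/N) →* ℂˣ := inf M XD with hX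
  have hX2 : ∀ σ, X σ ^ 2 = 1 := fun σ => hXD2 _
  have hXY2 : ∀ σ, (X * inf M YE) σ ^ 2 = 1 := fun σ => by
    rw [MonoidHom.mul_apply, mul_pow, hX2]
    exact (one_mul _).trans (hYE2 _)
  have hX' : ∀ σ : Gal(M/E), σ ≠ 1 → rs E X σ = -1 := by
    intro σ hσ
    have hne : (AlgEquiv.restrictNormalHom D (AlgEquiv.restrictScalarsHom N σ) : Gal(D/N)) ≠ 1 := by
      intro h1
      apply hσ
      have h3 : AlgEquiv.restrictScalarsHom N σ = 1 := by
        refine hgen _ (fun x => σ.commutes x) fun x => ?_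
        have h4 := AlgEquiv.restrictNormal_commutes (AlgEquiv.restrictScalarsHom N σ) D x
        have h5 : (AlgEquiv.restrictScalarsHom N σ).restrictNormal D = 1 := h1
        rw [h5] at h4
        exact h4.symm
      apply AlgEquiv.ext
      intro x
      exact DFunLike.congr_fun h3 x
    exact hXD _ hne
  have hX'2 : ∀ σ : Gal(M/E), rs E X σ ^ 2 = 1 := fun σ => hX2 _
  have hnrD : ∀ w : HeightOneSpectrum (𝓞 D), Rm N w → (n : 𝓞 N) ∈ (dn N w).asIdeal := fun w hw =>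
    hnSR _ (SR_mono (E := D) ⟨w, hw, rfl⟩)
  have hnrD3 : ∀ w : HeightOneSpectrum (𝓞 D3), Rm N w → (n : 𝓞 N) ∈ (dn N w).asIdeal := fun w hw =>
    hnSR _ (SR_mono (E := D3) ⟨w, hw, rfl⟩)
  have hUN' : ∀ v : HeightOneSpectrum (𝓞 N), (2 : 𝓞 N) ∈ v.asIdeal →
      v.valuation N 2 = WithZero.exp (-1 : ℤ) := fun v hv => hUN v (by exact_mod_cast hv)
  have hUE' : ∀ v : HeightOneSpectrum (𝓞 E), (2 : 𝓞 E) ∈ v.asIdeal →
      v.valuation E 2 = WithZero.exp (-1 : ℤ) := fun v hv => hUE v (by exact_mod_cast hv)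
  have iX : IH n (fun I : Ideal (𝓞 N) => X0 3 I * XR X I) := XR3_ih ha hd hUN' hX2 hn h3n hnr
  have iZ : IH n (fun I : Ideal (𝓞 N) => X0 3 I * XR (X * inf M YE) I) :=
    XR3_ih ha hd hUN' hXY2 hn h3n hnr
  have iXD : IH n (fun I : Ideal (𝓞 N) => X0 3 I * XR XD I) :=
    XR3_ih ha hd hUN' hXD2 hn h3n hnrD
  have iX3 : IH n (fun I : Ideal (𝓞 N) => X0 3 I * XR X3 I) :=
    XR3_ih ha hd hUN' hX32 hn h3n hnrD3
  obtain ⟨gX, gZ, hgX, hgZ, -⟩ := core_gen2 N ι d hd hUN n _ _ iX iZ hn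
  obtain ⟨gD, g3, hgD', hg3, -⟩ := core_gen2 N ι d hd hUN n _ _ iXD iX3 hn
  -- the order of `gX`
  have e1 := L_prod_ev h2D hXD (fun w hw => h2P _ (hnrD w hw)) hFD hf iXD hgD'
  have o1 : analyticOrderAt FD 1 = analyticOrderAt gD 1 := ord_mul_left hf.an hfne hgD'.an e1
  have hgXD : VV ι (fun I => ind S1 I * (X0 3 I * XR XD I)) gX := by
    refine ⟨hgX.mero, hgX.an, fun s hs => (hgX.sum s hs).congr_fun fun I => ?_⟩
    have e := XR_restr (M := M) (comm2 h2D) XD hS1m I.1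
    show ind S1 I.1 * (X0 3 I.1 * XR XD I.1) * _ * _ = X0 3 I.1 * XR X I.1 * _ * _
    rw [← e]
    rfl
  have o2 : analyticOrderAt gX 1 = analyticOrderAt gD 1 :=
    rem_ord (fun P hP => hnSR P ((hS1m P).1 hP)) iXD hgD' hgXD
  have oX : analyticOrderAt gX 1 = analyticOrderAt FD 1 := o2.trans o1.symm
  -- the order of `gZ`
  have hchar : X * inf M YE = inf M X3 := by
    ext σ
    have v1 : ∀ {T : Type} [Field T] [Algebra N T] (Y : Gal(T/N) →* ℂˣ) (hY : ∀ σ, σ ≠ 1 → Y σ = -1)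
        (τ : Gal(T/N)), Y τ = if τ = 1 then 1 else -1 := by
      intro T _ _ Y hY τ
      split_ifs with h
      · rw [h, map_one]
      · exact hY τ h
    have vE : inf M YE σ = if Fx (N := N) (M := M) E σ then 1 else -1 := by
      show YE (AlgEquiv.restrictNormalHom E σ) = _
      rw [v1 YE hYE]
      simp only [fx_iff]
    have vD : X σ = if Fx (N := N) (M := M) D σ then 1 else -1 := by
      show XD (AlgEquiv.restrictNormalHom D σ) = _
      rw [v1 XD hXD]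
      simp only [fx_iff]
    have v3 : inf M X3 σ = if Fx (N := N) (M := M) D3 σ then 1 else -1 := by
      show X3 (AlgEquiv.restrictNormalHom D3 σ) = _
      rw [v1 X3 hX3]
      simp only [fx_iff]
    rw [MonoidHom.mul_apply, vE, vD, v3]
    simp only [hZ σ]
    by_cases h1 : Fx (N := N) (M := M) D σ <;> by_cases h2 : Fx (N := N) (M := M) E σ <;>
      simp [h1, h2]
  have e3' := L_prod_ev h2D3 hX3 (fun w hw => h2P _ (hnrD3 w hw)) hFD3 hf iX3 hg3
  have o3' : analyticOrderAt FD3 1 = analyticOrderAt g3 1 := ord_mul_left hf.an hfne hg3.an e3'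
  have hgZ3 : VV ι (fun I => ind S1 I * (X0 3 I * XR X3 I)) gZ := by
    refine ⟨hgZ.mero, hgZ.an, fun s hs => (hgZ.sum s hs).congr_fun fun I => ?_⟩
    have e := XR_restr (M := M) (comm2 h2D3) X3 hS1m I.1
    show ind S1 I.1 * (X0 3 I.1 * XR X3 I.1) * _ * _ = X0 3 I.1 * XR (X * inf M YE) I.1 * _ * _
    rw [← e, hchar]
    rfl
  have o4' : analyticOrderAt gZ 1 = analyticOrderAt g3 1 :=
    rem_ord (fun P hP => hnSR P ((hS1m P).1 hP)) iX3 hg3 hgZ3
  have oZ : analyticOrderAt gZ 1 = analyticOrderAt FD3 1 := o4'.trans o3'.symm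
  -- the functions over `E`
  have hnE : ∀ w : HeightOneSpectrum (𝓞 E), dn N w ∈ SR N M → (n : 𝓞 E) ∈ w.asIdeal := by
    intro w hw
    have h4 := hnSR _ hw
    have h5 : algebraMap (𝓞 N) (𝓞 E) (n : 𝓞 N) ∈ w.asIdeal := h4
    rwa [map_natCast] at h5
  have hnrM : ∀ w : HeightOneSpectrum (𝓞 M), Rm E w → (n : 𝓞 E) ∈ (dn E w).asIdeal := fun w hw =>
    hnE _ (SR_up ⟨w, hw, rfl⟩)
  have h2PE : ∀ P : HeightOneSpectrum (𝓞 E), (n : 𝓞 E) ∈ P.asIdeal → (2 : 𝓞 E) ∉ P.asIdeal := by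
    intro P hP h2P
    obtain ⟨k, hk⟩ := hn
    apply P.isPrime.ne_top
    rw [Ideal.eq_top_iff_one]
    have : (1 : 𝓞 E) = (n : 𝓞 E) - 2 * (k : 𝓞 E) := by
      rw [hk]
      push_cast
      ring
    rw [this]
    exact Ideal.sub_mem _ hP (Ideal.mul_mem_right _ _ h2P)
  have iG : IH n (fun I : Ideal (𝓞 E) => X0 3 I * XR (rs E X) I) :=
    XR3_ih haE hdE hUE' hX'2 hn h3n hnrM
  have hnEne : (n : 𝓞 E) ≠ 0 := by
    obtain ⟨k, hk⟩ := hn
    have : n ≠ 0 := by omega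
    exact_mod_cast this
  set S' : Finset (HeightOneSpectrum (𝓞 E)) := (ScN hnEne).filter (fun w => dn N w ∈ S1) with hS'
  have hS'm : ∀ w, w ∈ S' ↔ dn N w ∈ S1 := by
    intro w
    rw [hS', Finset.mem_filter, mem_ScN]
    exact ⟨fun h => h.2, fun h => ⟨hnE w ((hS1m _).1 h), h⟩⟩
  have hS'n : ∀ w ∈ S', (n : 𝓞 E) ∈ w.asIdeal := fun w hw => hnE w ((hS1m _).1 ((hS'm w).1 hw))
  have iG' : IH n (fun I : Ideal (𝓞 E) => ind S' I * (X0 3 I * XR (rs E X) I)) :=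
    IHprod (ind_ih hS'n) iG
  obtain ⟨G, G', hG, hG', -⟩ := core_gen2 E ((algebraMap (𝓞 N) (𝓞 E)).comp ι) _ hdE hUE n _ _ iG iG' hn
  have hcomp : (algebraMap (𝓞 E) (𝓞 M)).comp ((algebraMap (𝓞 N) (𝓞 E)).comp ι) =
      (algebraMap (𝓞 N) (𝓞 M)).comp ι := by
    rw [← RingHom.comp_assoc, ← IsScalarTower.algebraMap_eq (𝓞 N) (𝓞 E) (𝓞 M)]
  have e2 := L_prod_ev (ι := (algebraMap (𝓞 N) (𝓞 E)).comp ι) h2M hX'
    (fun w hw => h2PE _ (hnrM w hw)) (by rw [hcomp]; exact hFM) hfE iG hG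
  have o3 : analyticOrderAt FM 1 = analyticOrderAt G 1 := ord_mul_left hfE.an hfE1 hG.an e2
  have o4 : analyticOrderAt G' 1 = analyticOrderAt G 1 := rem_ord hS'n iG hG hG'
  have e3 := prod2 h2 hc hcE hYE hX2 hS1m hS'm iG' hG' iX hgX iZ hgZ
  have o5 : analyticOrderAt G' 1 = analyticOrderAt gX 1 + analyticOrderAt gZ 1 := by
    rw [analyticOrderAt_congr e3]
    exact analyticOrderAt_mul hgX.an hgZ.an
  rw [o3, ← o4, o5, oZ, oX]

end biq

end Pool.Agent.H98.B
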