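import Pool.Agent.H98.B.Imp
import Pool.Graph.R_seed8.W29.HK.Prod
import Pool.Graph.R_pool_sql_team_seeded_35f281b4.K7.H73.NM.M

/-!
# The quadratic character of conductor five on the Eisenstein integers
-/

set_option autoImplicit false
set_option linter.unusedSectionVars false
set_option linter.unusedVariables false

open Complex

namespace Pool.Agent.H98.B

open Pool.Agent.W192.HK Pool.Agent.TH936.AC Pool.Agent.TH936.AD
open Pool.Agent.Y696

instance fact5 : Fact (Nat.Prime 5) := ⟨by norm_num⟩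

/-- the Legendre symbol modulo five -/
def s5 : ZMod 5 → ℤ := ![0, 1, -1, -1, 1]

lemma s5_mul : ∀ a b : ZMod 5, s5 (a * b) = s5 a * s5 b := by decide

lemma s5_zero : ∀ a : ZMod 5, s5 a = 0 ↔ a = 0 := by decide

lemma s5_sq : ∀ a : ZMod 5, s5 a ≠ 0 → s5 a ^ 2 = 1 := by decide

lemma s5_sqr : ∀ a : ZMod 5, a ≠ 0 → s5 (a ^ 2) = 1 := by decide

/-- the character -/
noncomputable def c5 (J : Ideal eis) : ℂ := ((s5 ((Ideal.absNorm J : ℕ) : ZMod 5) : ℤ) : ℂ)

lemma c5_mul (I J : Ideal eis) : c5 (I * J) = c5 I * c5 J := by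
  unfold c5
  rw [map_mul]
  push_cast
  rw [s5_mul]
  push_cast
  rfl

lemma abs_nm (J : Ideal eis) : ((Ideal.absNorm J : ℕ) : ℝ) = nm J := by
  rw [Ideal.absNorm_apply, Submodule.cardQuot_apply]
  rfl

lemma nrmA (x y : ℤ) : ((Ideal.absNorm (sp ((x : eis) + y * omr) : Ideal eis) : ℕ) : ℤ) =
    x ^ 2 - x * y + y ^ 2 := by
  have h1 : ((Ideal.absNorm (sp ((x : eis) + y * omr) : Ideal eis) : ℕ) : ℝ) =
      Complex.normSq (((x : eis) + y * omr : eis) : ℂ) := by
    rw [abs_nm]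
    exact (hbasic eis om qr).2.2.2.2.1 _
  have h2 : (((x : eis) + y * omr : eis) : ℂ) = (x : ℂ) + (y : ℂ) * om := by
    push_cast
    rfl
  rw [h2, norm_rep] at h1
  exact_mod_cast h1

lemma nrmZ (x y : ℤ) : ((Ideal.absNorm (sp ((x : eis) + y * omr) : Ideal eis) : ℕ) : ZMod 5) =
    ((x ^ 2 - x * y + y ^ 2 : ℤ) : ZMod 5) := by
  rw [← nrmA, Int.cast_natCast]

lemma c5_eq (x y : ℤ) : c5 (sp ((x : eis) + y * omr)) =
    ((s5 ((x ^ 2 - x * y + y ^ 2 : ℤ) : ZMod 5) : ℤ) : ℂ) := by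
  unfold c5
  rw [nrmZ]

lemma c5_31 : c5 (sp (((3 : ℤ) : eis) + ((1 : ℤ) : eis) * omr)) = -1 := by
  rw [c5_eq]
  have : s5 (((3 : ℤ) ^ 2 - 3 * 1 + 1 ^ 2 : ℤ) : ZMod 5) = -1 := by decide
  rw [this]
  norm_num

lemma inert5 : ∀ x y : ZMod 5, x ^ 2 - x * y + y ^ 2 = 0 → x = 0 ∧ y = 0 := by decide

lemma five_dvd {α : eis} (h : ((Ideal.absNorm (sp α : Ideal eis) : ℕ) : ZMod 5) = 0) :
    (5 : eis) ∣ α := by
  obtain ⟨x, y, rfl⟩ := eis_rep α
  have h1 := nrmA x y
  have h2 : ((x : ZMod 5)) ^ 2 - x * y + (y : ZMod 5) ^ 2 = 0 := by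
    have h3 := congrArg (fun z : ℤ => (z : ZMod 5)) h1
    push_cast at h3
    rw [← h3]
    exact h
  obtain ⟨hx, hy⟩ := inert5 _ _ h2
  rw [ZMod.intCast_zmod_eq_zero_iff_dvd] at hx hy
  obtain ⟨a, rfl⟩ := hx
  obtain ⟨b, rfl⟩ := hy
  exact ⟨(a : eis) + b * omr, by push_cast; ring⟩

lemma abs_five_mul (α : eis) : ((Ideal.absNorm (sp (5 * α) : Ideal eis) : ℕ) : ZMod 5) = 0 := by
  obtain ⟨x, y, rfl⟩ := eis_rep α
  have e : (5 : eis) * ((x : eis) + y * omr) = ((5 * x : ℤ) : eis) + ((5 * y : ℤ) : eis) * omr := by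
    push_cast
    ring
  rw [e, nrmZ]
  push_cast
  have : (5 : ZMod 5) = 0 := by decide
  rw [this]
  ring

lemma cop5 {α : eis} : IsCoprime α 5 ↔ ((Ideal.absNorm (sp α : Ideal eis) : ℕ) : ZMod 5) ≠ 0 := by
  constructor
  · intro h h0
    obtain ⟨β, hβ⟩ := five_dvd h0
    obtain ⟨a, b, hab⟩ := h
    have h1 : (5 : eis) * (a * β + b) = 1 := by rw [← hab, hβ]; ring
    have h2 := abs_five_mul (a * β + b)
    rw [h1] at h2
    have h3 : (sp (1 : eis)) = ⊤ := Ideal.span_singleton_one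
    rw [h3, Ideal.absNorm_top] at h2
    exact absurd h2 (by decide)
  · intro h
    set n : ℕ := Ideal.absNorm (sp α : Ideal eis) with hn
    have h1 : α * cj α = (n : eis) := by
      apply coe_inj'
      rw [cj_mul_coe]
      have h2 := (hbasic eis om qr).2.2.2.2.1 α
      rw [← h2, ← abs_nm]
      push_cast
      rfl
    have h2 : IsCoprime (n : ℤ) 5 := by
      rw [Int.isCoprime_iff_gcd_eq_one]
      have h3 : Nat.Coprime n 5 := by
        rw [Nat.coprime_comm, Nat.Prime.coprime_iff_not_dvd (by norm_num)]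
        intro h4
        exact h ((ZMod.natCast_eq_zero_iff n 5).2 h4)
      exact h3
    have h3 : IsCoprime ((n : ℤ) : eis) ((5 : ℤ) : eis) := h2.map (Int.castRingHom eis)
    have h4 : IsCoprime (α * cj α) 5 := by
      rw [h1]
      exact_mod_cast h3
    exact h4.of_mul_left_left

lemma cop5I {I : Ideal eis} : IsCoprime I (sp ((5 : ℕ) : eis)) ↔ c5 I ≠ 0 := by
  obtain ⟨α, rfl⟩ : ∃ α : eis, I = sp α :=
    ⟨_, (Submodule.IsPrincipal.span_singleton_generator I).symm⟩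
  have e : ((5 : ℕ) : eis) = 5 := by norm_num
  rw [e, Ideal.isCoprime_span_singleton_iff, cop5]
  unfold c5
  rw [not_iff_not, Int.cast_eq_zero, s5_zero]

lemma c5_bot : c5 ⊥ = 0 := by
  unfold c5
  rw [Ideal.absNorm_bot]
  simp [s5]

lemma c5_one {α : eis} (h : α - 1 ∈ (sp ((5 : ℕ) : eis) : Ideal eis)) : c5 (sp α) = 1 := by
  rw [Ideal.mem_span_singleton] at h
  obtain ⟨β, hβ⟩ := h
  obtain ⟨x, y, rfl⟩ := eis_rep β
  have e : α = ((1 + 5 * x : ℤ) : eis) + ((5 * y : ℤ) : eis) * omr := by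
    push_cast at hβ ⊢
    linear_combination hβ
  rw [e, c5_eq]
  push_cast
  have : (5 : ZMod 5) = 0 := by decide
  rw [this]
  have e2 : ((1 : ZMod 5) + 0 * (x : ZMod 5)) ^ 2 - (1 + 0 * (x : ZMod 5)) * (0 * (y : ZMod 5)) +
      (0 * (y : ZMod 5)) ^ 2 = 1 := by ring
  rw [e2]
  have : s5 1 = 1 := by decide
  rw [this]
  norm_num

theorem hc_c5 : HC 0 (sp ((5 : ℕ) : eis)) c5 := by
  have h50 : ((5 : ℕ) : eis) ≠ 0 := by norm_num
  refine ⟨?_, c5_mul, ?_, ?_, ?_⟩
  · rw [Ne, Ideal.span_singleton_eq_bot]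
    exact h50
  · intro I
    rw [cop5I, not_not]
    constructor
    · exact Or.inr
    · rintro (rfl | h)
      · exact c5_bot
      · exact h
  · intro α _ hα
    rw [c5_one hα, pow_zero]
  · intro q' hq'
    obtain ⟨d, rfl⟩ : ∃ d : eis, q' = sp d :=
      ⟨_, (Submodule.IsPrincipal.span_singleton_generator q').symm⟩
    have h1 : d ∣ 5 := by
      have := Ideal.span_singleton_le_span_singleton.1 hq'.le
      exact_mod_cast this
    have h2 : ¬ (5 : eis) ∣ d := fun h => by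
      have h3 : ((5 : ℕ) : eis) ∣ d := by exact_mod_cast h
      have := Ideal.span_singleton_le_span_singleton.2 h3
      exact absurd (le_antisymm hq'.le this) hq'.ne
    have h3 : IsCoprime d 5 := by
      rw [cop5]
      intro h
      exact h2 (five_dvd h)
    have h4 : IsUnit d := h3.isUnit_of_dvd' dvd_rfl h1
    have h5 : sp d = ⊤ := Ideal.span_singleton_eq_top.2 h4
    have h7 := c5_31
    refine ⟨((3 : ℤ) : eis) + ((1 : ℤ) : eis) * omr, ?_, ?_, ?_, ?_⟩
    · intro h0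
      rw [h0] at h7
      have : (sp (0 : eis)) = ⊥ := by simp
      rw [this, c5_bot] at h7
      norm_num at h7
    · rw [h5]
      trivial
    · rw [cop5I, h7]
      norm_num
    · rw [h7, pow_zero]
      norm_num

lemma c5_val (I : Ideal eis) : c5 I = 0 ∨ c5 I = 1 ∨ c5 I = -1 := by
  unfold c5
  have : ∀ a : ZMod 5, s5 a = 0 ∨ s5 a = 1 ∨ s5 a = -1 := by decide
  rcases this ((Ideal.absNorm I : ℕ) : ZMod 5) with h | h | h <;> rw [h] <;> simp

lemma c5_conj (I : Ideal eis) : (starRingEnd ℂ) (c5 I) = c5 I := by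
  unfold c5
  rw [map_intCast]

lemma c5_bar (I : Ideal eis) : c5 (bar I) = c5 I := by
  have h := (abar eis om ⟨qr, eis_pid⟩).2.2.2.2.2.2.2.1 I
  unfold c5
  have h1 : Ideal.absNorm (bar I) = Ideal.absNorm I := by
    have : ((Ideal.absNorm (bar I) : ℕ) : ℝ) = ((Ideal.absNorm I : ℕ) : ℝ) := by
      rw [abs_nm, abs_nm, h]
    exact_mod_cast this
  rw [h1]

theorem rg_c5 : RG 5 c5 := by
  refine ⟨by norm_num, ⟨hc_c5.ne, hc_c5.mul, hc_c5.zero, ?_⟩, ?_⟩
  · intro α h0 h1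
    exact c5_one h1
  · intro m hm
    have e : ((m : ℕ) : eis) = ((m : ℤ) : eis) + ((0 : ℤ) : eis) * omr := by push_cast; ring
    rw [e, c5_eq]
    have hm0 : (m : ZMod 5) ≠ 0 := by
      rw [Ne, ZMod.natCast_eq_zero_iff]
      intro h
      have := Nat.Coprime.eq_one_of_dvd hm.symm h
      omega
    have e2 : (((m : ℤ) ^ 2 - (m : ℤ) * 0 + 0 ^ 2 : ℤ) : ZMod 5) = (m : ZMod 5) ^ 2 := by
      push_cast
      ring
    rw [e2, s5_sqr _ hm0]
    norm_num

theorem od_c5 : Od c5 2 := by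
  refine ⟨by norm_num, ?_, ?_⟩
  · intro I hI
    rcases c5_val I with h | h | h
    · exact absurd h hI
    · rw [h]; norm_num
    · rw [h]; norm_num
  · intro n hn h
    by_contra hlt
    have h1 : n = 1 := by omega
    subst h1
    have h7 := c5_31
    have h2 := h _ (by rw [h7]; norm_num)
    rw [h7, pow_one] at h2
    norm_num at h2

/-! ### the character of the curve -/

lemma qp_eis : QP eis om := ⟨qr, eis_pid⟩

lemma cj_three : ∀ β : eis, cj (1 + 3 * β) = 1 + 3 * cj β := by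
  intro β
  apply coe_inj'
  rw [cj_coe]
  push_cast
  have h3 : ((3 : eis) : ℂ) = 3 := rfl
  rw [h3, map_add, map_mul, map_one, cj_coe]
  congr 2
  exact Complex.conj_ofNat 3

theorem cs_psi : CS psi := by
  intro I
  obtain ⟨-, -, -, -, -, hsp, hm, -, -, -, -, -, -, hcop⟩ := abar eis om qp_eis
  by_cases hI : IsCoprime I (sp (3 : eis))
  · obtain ⟨α, rfl, hα⟩ := exists_prim hI
    rw [hsp α (cj α) (cj_coe α), psi_prim hα]
    have h1 : cj α - 1 ∈ (sp 3 : Ideal eis) := by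
      rw [Ideal.mem_span_singleton] at hα ⊢
      obtain ⟨β, hβ⟩ := hα
      have : α = 1 + 3 * β := by linear_combination hβ
      rw [this, cj_three]
      exact ⟨cj β, by ring⟩
    rw [psi_prim h1, cj_coe]
  · have h3 : (3 : eis) = ((3 : ℕ) : eis) := by norm_num
    have h1 : ¬ IsCoprime (bar I) (sp (3 : eis)) := by
      intro h
      apply hI
      have h4 := (hcop I (sp (3 : eis))).1
      apply h4
      rw [h3, hm 3, ← h3]
      exact h
    rw [(psi_zero_iff _).2 h1, (psi_zero_iff _).2 hI, map_zero]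

/-- the twisted character -/
noncomputable def th5 (J : Ideal eis) : ℂ := psi J * c5 J

lemma cop35 : IsCoprime (sp (3 : eis)) (sp ((5 : ℕ) : eis)) := by
  rw [Ideal.isCoprime_span_singleton_iff]
  exact ⟨2, -1, by push_cast; ring⟩

theorem hc_th5 : HC 1 (sp (3 : eis) * sp ((5 : ℕ) : eis)) th5 :=
  Pool.Agent.W29.HK.h_prod hbasic hfp eis om qr 1 _ _ psi c5 hc_psi hc_c5 cop35

theorem cs_th5 : CS th5 := by
  intro I
  unfold th5
  rw [cs_psi I, c5_bar, map_mul, c5_conj]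

lemma psi_five : psi (sp ((5 : ℕ) : eis)) = -5 := by
  have h1 : (sp ((5 : ℕ) : eis) : Ideal eis) = sp (-5) := by
    have e : ((5 : ℕ) : eis) = 5 := by norm_num
    rw [e]
    exact (Ideal.span_singleton_neg (5 : eis)).symm
  rw [h1, psi_prim]
  · have h5 : ((5 : eis) : ℂ) = 5 := rfl
    push_cast
    rw [h5]
  · rw [Ideal.mem_span_singleton]
    exact ⟨-2, by ring⟩

lemma c5_three : c5 (sp (3 : eis)) = 1 := by
  have e : (3 : eis) = ((3 : ℤ) : eis) + ((0 : ℤ) : eis) * omr := by push_cast; ring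
  rw [e, c5_eq]
  have : s5 (((3 : ℤ) ^ 2 - 3 * 0 + 0 ^ 2 : ℤ) : ZMod 5) = 1 := by decide
  rw [this]
  norm_num

end Pool.Agent.H98.B
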