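import Pool.Agent.H98.B.Lser

/-!
# The conclusion of the conjecture
-/

set_option autoImplicit false
set_option linter.unusedSectionVars false
set_option linter.unusedVariables false

open Complex NumberField IsDedekindDomain Filter Topology
open scoped PeriodPair nonZeroDivisors

namespace Pool.Agent.H98.B

open Pool.Agent.K7.H56
open Pool.Agent.K7.H56.P
open Pool.Agent.R430
open Pool.Agent.Y696 Pool.Agent.W192.HK Pool.Agent.TH936.CM H667R3
open Pool.Agent.TH936.PU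
open Pool.Agent.Y688 (NI HL euler v_sub_one v_root v_RR dn dn_surj)
open Pool.Agent.K7.H70.AS
open Pool.Agent.K7.H70.SM
open Pool.Agent.K7.H56.M
open Pool.Agent.W189.NF (aV eV)
open Pool.Agent.K7.H70.SE (GoodG hbd)
open Pool.Agent.K7.H70.TW (Sq Ed ep loc hbd_mul sg_apply LSeries_change)

/-- the conclusion for the curve `W`, if the rank is `r` -/
def Bsd {k : Type} [Field k] [NumberField k] (W : WeierstrassCurve k) (r : ℕ) : Prop :=
  ∃ (U : Set ℂ) (Φ : ℂ → ℂ), IsOpen U ∧ IsConnected U ∧ {s : ℂ | (3 / 2 : ℝ) < s.re} ⊆ U ∧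
    (1 : ℂ) ∈ U ∧ AnalyticOnNhd ℂ Φ U ∧ (∀ s : ℂ, (3 / 2 : ℝ) < s.re → Φ s = W.LSeries s) ∧
    (∀ i : ℕ, i < r → iteratedDeriv i Φ 1 = 0) ∧ iteratedDeriv r Φ 1 ≠ 0

lemma ord_conj {g : ℂ → ℂ} (hg : AnalyticAt ℂ g 1) {n : ℕ} (h : analyticOrderAt g 1 = n) :
    analyticOrderAt (fun s => (starRingEnd ℂ) (g ((starRingEnd ℂ) s))) 1 = n := by
  have hc : AnalyticAt ℂ (fun s => (starRingEnd ℂ) (g ((starRingEnd ℂ) s))) 1 :=
    an_conj (by rw [map_one]; exact hg)
  rw [hc.analyticOrderAt_eq_natCast]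
  obtain ⟨u, hu, hu1, he⟩ := hg.analyticOrderAt_eq_natCast.1 h
  refine ⟨fun s => (starRingEnd ℂ) (u ((starRingEnd ℂ) s)), an_conj (by rw [map_one]; exact hu), ?_, ?_⟩
  · simp only [map_one]
    exact (map_ne_zero _).2 hu1
  · have h1 : Filter.Tendsto (fun s : ℂ => (starRingEnd ℂ) s) (𝓝 1) (𝓝 1) := by
      have := Complex.continuous_conj.tendsto 1
      rwa [map_one] at this
    filter_upwards [h1.eventually he] with s hs
    rw [hs, smul_eq_mul, smul_eq_mul, map_mul, map_pow, map_sub, map_one, Complex.conj_conj]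

lemma ord_Lam {g : ℂ → ℂ} (hg : AnalyticAt ℂ g 1) {n : ℕ} (h : analyticOrderAt g 1 = n) :
    analyticOrderAt (Lam g) 1 = ((2 * n : ℕ) : ℕ∞) := by
  have hc : AnalyticAt ℂ (fun s => (starRingEnd ℂ) (g ((starRingEnd ℂ) s))) 1 :=
    an_conj (by rw [map_one]; exact hg)
  have h1 := analyticOrderAt_mul hg hc
  have h2 : (g * fun s => (starRingEnd ℂ) (g ((starRingEnd ℂ) s))) = Lam g := rfl
  rw [← h2, h1, h, ord_conj hg h]
  push_cast
  ring

theorem bsd_of {k : Type} [Field k] [NumberField k] {W : WeierstrassCurve k} {Φ : ℂ → ℂ}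
    (hm : MeromorphicOn Φ Set.univ) (ha : AnalyticAt ℂ Φ 1)
    (hs : ∀ s : ℂ, 3 / 2 < s.re → LSeriesSummable ((fun n : ℤ => (n : ℂ)) ∘ W.LFunction) s ∧
      Φ s = W.LSeries s) {r : ℕ} (ho : analyticOrderAt Φ 1 = r) : Bsd W r := by
  refine ⟨{z | AnalyticAt ℂ Φ z}, Φ, isOpen_analyticAt ℂ Φ, ?_, ?_, ha, fun z hz => hz,
    fun s hs' => (hs s hs').2, ?_, ?_⟩
  · have hm' : Meromorphic Φ := fun z => hm z (Set.mem_univ z)
    have h5 : IsConnected ({z : ℂ | AnalyticAt ℂ Φ z}ᶜ)ᶜ :=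
      Set.Countable.isConnected_compl_of_one_lt_rank (by simp) hm'.countable_compl_analyticAt
    rwa [compl_compl] at h5
  · intro s hs1
    have hs' : (3 / 2 : ℝ) < s.re := hs1
    have hab : LSeries.abscissaOfAbsConv ((fun n : ℤ => (n : ℂ)) ∘ W.LFunction) ≤
        ((3 / 2 : ℝ) : EReal) :=
      LSeries.abscissaOfAbsConv_le_of_forall_lt_LSeriesSummable fun y hy => (hs y (by
        rw [Complex.ofReal_re]; exact hy)).1
    have h5 := LSeries_analyticOnNhd ((fun n : ℤ => (n : ℂ)) ∘ W.LFunction) s (by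
      refine lt_of_le_of_lt hab ?_
      exact_mod_cast hs')
    refine h5.congr ?_
    have : {z : ℂ | (3 / 2 : ℝ) < z.re} ∈ nhds s :=
      (isOpen_lt continuous_const Complex.continuous_re).mem_nhds hs'
    filter_upwards [this] with z hz
    exact ((hs z hz).2).symm
  · exact (natCast_le_analyticOrderAt_iff_iteratedDeriv_eq_zero ha).1 ho.ge
  · intro h0
    have h1 : ((r + 1 : ℕ) : ℕ∞) ≤ analyticOrderAt Φ 1 := by
      rw [natCast_le_analyticOrderAt_iff_iteratedDeriv_eq_zero ha]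
      intro i hi
      rcases Nat.lt_succ_iff_lt_or_eq.1 hi with h | h
      · exact (natCast_le_analyticOrderAt_iff_iteratedDeriv_eq_zero ha).1 ho.ge i h
      · rw [h, h0]
    rw [ho] at h1
    have h2 : r + 1 ≤ r := by exact_mod_cast h1
    omega

/-- changes of variables -/
theorem Bsd.change {k : Type} [Field k] [NumberField k] {W : WeierstrassCurve k} {r : ℕ}
    (h : Bsd W r) (h4 : W.c₄ = 0)
    (hb : ∀ v : HeightOneSpectrum (𝓞 k), HBd (aV W v) (eV W v) (nK v))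
    (C : WeierstrassCurve.VariableChange k) : Bsd (C • W) r := by
  obtain ⟨U, Φ, g1, g2, g3, g4, g5, g6, g7⟩ := h
  refine ⟨U, Φ, g1, g2, g3, g4, g5, fun s hs => ?_, g7⟩
  rw [g6 s hs]
  exact (LSeries_change h4 hb C hs).symm

end Pool.Agent.H98.B
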