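import Pool.Agent.H98.B.Lin

/-!
# Removing Euler factors
-/

set_option autoImplicit false
set_option linter.unusedSectionVars false
set_option linter.unusedVariables false

open Complex NumberField IsDedekindDomain Filter Topology
open scoped PeriodPair nonZeroDivisors

namespace Pool.Agent.H98.B

open Pool.Agent.K7.H56
open Pool.Agent.K7.H56.P
open Pool.Agent.R430
open Pool.Agent.Y696 Pool.Agent.W192.HK Pool.Agent.TH936.CM H667R3
open Pool.Agent.Y688 (NI HL euler v_sub_one v_root)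
open Pool.Agent.K7.H70.AS (mero_eq2 gI_diff hX1)

/-- the identity theorem near one -/
lemma mero_ev {f g : ℂ → ℂ} (hf : MeromorphicOn f Set.univ) (hg : MeromorphicOn g Set.univ)
    (h : ∀ s : ℂ, 3 / 2 < s.re → f s = g s) (hf1 : AnalyticAt ℂ f 1) (hg1 : AnalyticAt ℂ g 1) :
    f =ᶠ[𝓝 1] g := by
  have hd : MeromorphicOn (fun z => f z - g z) Set.univ := fun z hz =>
    (hf z hz).sub (hg z hz)
  have h2 : meromorphicOrderAt (fun z => f z - g z) 2 = ⊤ := by
    rw [meromorphicOrderAt_eq_top_iff]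
    refine Filter.Eventually.filter_mono nhdsWithin_le_nhds ?_
    have : {z : ℂ | 3 / 2 < z.re} ∈ nhds (2 : ℂ) := by
      refine (isOpen_lt continuous_const Complex.continuous_re).mem_nhds ?_
      show (3 / 2 : ℝ) < (2 : ℂ).re
      norm_num
    filter_upwards [this] with z hz
    rw [h z hz, sub_self]
  have h1 : meromorphicOrderAt (fun z => f z - g z) 1 = ⊤ := by
    by_contra hne
    exact hd.meromorphicOrderAt_ne_top_of_isPreconnected isPreconnected_univ (Set.mem_univ 1)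
      (Set.mem_univ 2) hne h2
  rw [meromorphicOrderAt_eq_top_iff] at h1
  have h3 := mero_eq2 hf hg h hf1 hg1
  rw [eventually_nhdsWithin_iff] at h1
  filter_upwards [h1] with z hz
  by_cases hz1 : z = 1
  · rw [hz1, h3]
  · exact sub_eq_zero.1 (hz hz1)

section
variable {N : Type} [Field N] [NumberField N]
variable {n : ℕ} {X Y : Ideal (𝓞 N) → ℂ} {ι : Pool.Agent.Y688.RR →+* 𝓞 N} {f g : ℂ → ℂ}

lemma VV_ev (hf : VV ι X f) (hg : VV ι X g) : f =ᶠ[𝓝 1] g :=
  mero_ev hf.mero hg.mero (fun s hs => (hf.sum s hs).unique (hg.sum s hs)) hf.an hg.an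

/-- the indicator function of the ideals prime to a finite set of primes -/
noncomputable def ind (S : Finset (HeightOneSpectrum (𝓞 N))) (I : Ideal (𝓞 N)) : ℂ := by
  classical
  exact if ∃ P ∈ S, I ≤ P.asIdeal then 0 else 1

omit [NumberField N] in
lemma ind_pos {S : Finset (HeightOneSpectrum (𝓞 N))} {I : Ideal (𝓞 N)}
    (h : ∃ P ∈ S, I ≤ P.asIdeal) : ind S I = 0 := by
  unfold ind
  rw [if_pos h]

omit [NumberField N] in
lemma ind_neg {S : Finset (HeightOneSpectrum (𝓞 N))} {I : Ideal (𝓞 N)}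
    (h : ¬ ∃ P ∈ S, I ≤ P.asIdeal) : ind S I = 1 := by
  unfold ind
  rw [if_neg h]

lemma le_prime_iff {P Q : HeightOneSpectrum (𝓞 N)} : P.asIdeal ≤ Q.asIdeal ↔ P = Q := by
  constructor
  · intro h
    exact HeightOneSpectrum.ext ((P.isPrime.isMaximal P.ne_bot).eq_of_le Q.isPrime.ne_top h)
  · rintro rfl
    exact le_rfl

lemma ind_prime {S : Finset (HeightOneSpectrum (𝓞 N))} {P : HeightOneSpectrum (𝓞 N)} [Decidable (P ∈ S)] :
    ind S P.asIdeal = if P ∈ S then 0 else 1 := by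
  by_cases h : P ∈ S
  · rw [if_pos h, ind_pos ⟨P, h, le_rfl⟩]
  · rw [if_neg h, ind_neg]
    rintro ⟨Q, hQ, hle⟩
    rw [le_prime_iff] at hle
    exact h (hle ▸ hQ)

omit [NumberField N] in
lemma ind_ih {S : Finset (HeightOneSpectrum (𝓞 N))} (hS : ∀ P ∈ S, (n : 𝓞 N) ∈ P.asIdeal) :
    IH n (ind S) where
  mul I J := by
    by_cases h1 : ∃ P ∈ S, I ≤ P.asIdeal
    · rw [ind_pos h1, zero_mul, ind_pos]
      obtain ⟨P, hP, h⟩ := h1
      exact ⟨P, hP, Ideal.mul_le_left.trans h⟩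
    · by_cases h2 : ∃ P ∈ S, J ≤ P.asIdeal
      · rw [ind_pos h2, mul_zero, ind_pos]
        obtain ⟨P, hP, h⟩ := h2
        exact ⟨P, hP, Ideal.mul_le_right.trans h⟩
      · rw [ind_neg h1, ind_neg h2, one_mul, ind_neg]
        rintro ⟨P, hP, h⟩
        rcases (Ideal.IsPrime.mul_le P.isPrime).1 h with h | h
        · exact h1 ⟨P, hP, h⟩
        · exact h2 ⟨P, hP, h⟩
  top := ind_neg (by
    rintro ⟨P, -, h⟩
    exact P.isPrime.ne_top (top_le_iff.1 h))
  cong α β h := by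
    have key : ∀ α β : 𝓞 N, (n : 𝓞 N) ∣ α - β → (∃ P ∈ S, Ideal.span {α} ≤ P.asIdeal) →
        ∃ P ∈ S, Ideal.span {β} ≤ P.asIdeal := by
      rintro α β ⟨c, hc⟩ ⟨P, hP, h1⟩
      refine ⟨P, hP, ?_⟩
      rw [Ideal.span_singleton_le_iff_mem] at h1 ⊢
      have : β = α - n * c := by linear_combination -hc
      rw [this]
      exact Ideal.sub_mem _ h1 (Ideal.mul_mem_right _ _ (hS P hP))
    by_cases h1 : ∃ P ∈ S, Ideal.span {α} ≤ P.asIdeal
    · rw [ind_pos h1, ind_pos (key α β h h1)]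
    · rw [ind_neg h1, ind_neg (fun h2 => h1 (key β α (by rw [← neg_sub]; exact h.neg_right) h2))]
  val I := by
    by_cases h1 : ∃ P ∈ S, I ≤ P.asIdeal
    · exact Or.inl (ind_pos h1)
    · exact Or.inr ⟨1, one_ne_zero, by rw [ind_neg h1, one_pow]⟩
  ne I h := by
    rw [ind_neg]
    · exact one_ne_zero
    · rintro ⟨P, hP, h1⟩
      rw [Ideal.isCoprime_iff_sup_eq] at h
      apply P.isPrime.ne_top
      rw [eq_top_iff, ← h]
      exact sup_le h1 ((Ideal.span_singleton_le_iff_mem _).2 (hS P hP))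

/-- the size of the weights -/
lemma PN_sq_le (P : HeightOneSpectrum (𝓞 N)) : ‖PN ι P.asIdeal‖ ^ 2 ≤ nK P := by
  by_cases h3 : (3 : 𝓞 N) ∈ P.asIdeal
  · rw [PN_three h3, norm_zero, zero_pow two_ne_zero]
    exact Nat.cast_nonneg _
  · have h := (PN_good (ι := ι) h3).1
    rw [Complex.mul_conj, Complex.normSq_eq_norm_sq] at h
    exact le_of_eq (by exact_mod_cast h)

lemma gI_norm_lt (hX : IH n X) (P : HeightOneSpectrum (𝓞 N)) {s : ℂ} (hs : 1 ≤ s.re) :
    ‖gI ι X s P.asIdeal‖ < 1 := by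
  have hN2 : 2 ≤ nK P := Pool.Agent.H921R2.TatePole.two_le_nm P
  have hN : (2 : ℝ) ≤ (nK P : ℝ) := by exact_mod_cast hN2
  have h1 := PN_sq_le (ι := ι) P
  have h2 : ‖PN ι P.asIdeal‖ < nK P := by
    by_contra hcon
    push Not at hcon
    have : (nK P : ℝ) ^ 2 ≤ nK P := (pow_le_pow_left₀ (by positivity) hcon 2).trans h1
    nlinarith
  have h3 : ((Ideal.absNorm P.asIdeal : ℕ) : ℂ) = ((nK P : ℕ) : ℂ) := rfl
  unfold gI
  rw [h3, norm_mul, norm_mul, Complex.norm_natCast_cpow_of_pos (by omega)]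
  have h4 : ((nK P : ℕ) : ℝ) ^ (-s).re ≤ (nK P : ℝ)⁻¹ := by
    rw [← Real.rpow_neg_one]
    refine Real.rpow_le_rpow_of_exponent_le (by linarith) ?_
    rw [Complex.neg_re]
    linarith
  have h5 := hX.bd P.asIdeal
  calc ‖X P.asIdeal‖ * ‖PN ι P.asIdeal‖ * ((nK P : ℕ) : ℝ) ^ (-s).re
      ≤ 1 * ‖PN ι P.asIdeal‖ * (nK P : ℝ)⁻¹ := by gcongr
    _ = ‖PN ι P.asIdeal‖ / nK P := by rw [one_mul]; rfl
    _ < 1 := (div_lt_one (by linarith)).2 h2

lemma one_sub_gI_ne (hX : IH n X) (P : HeightOneSpectrum (𝓞 N)) {s : ℂ} (hs : 1 ≤ s.re) :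
    1 - gI ι X s P.asIdeal ≠ 0 := by
  intro h
  have h1 := gI_norm_lt (ι := ι) hX P hs
  rw [← sub_eq_zero.1 h, norm_one] at h1
  exact lt_irrefl _ h1

/-- **removing Euler factors** -/
theorem rem_ev {S : Finset (HeightOneSpectrum (𝓞 N))} (hS : ∀ P ∈ S, (n : 𝓞 N) ∈ P.asIdeal)
    (hX : IH n X) (hf : VV ι X f) (hg : VV ι (fun I => ind S I * X I) g) :
    g =ᶠ[𝓝 1] fun s => (∏ P ∈ S, (1 - gI ι X s P.asIdeal)) * f s := by
  classical
  have hd : Differentiable ℂ (fun s => ∏ P ∈ S, (1 - gI ι X s P.asIdeal)) :=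
    Differentiable.fun_finsetProd fun v _ => (differentiable_const _).sub (gI_diff _ v)
  refine mero_ev hg.mero (fun z hz => ((hd.analyticAt z).meromorphicAt).mul (hf.mero z hz)) ?_
    hg.an ((hd.analyticAt 1).mul hf.an)
  intro s hs
  have h1 := VV_prodh (IHprod (ind_ih hS) hX) hg hs
  have h2 := VV_prodh hX hf hs
  have h5 : HasProd (fun P : HeightOneSpectrum (𝓞 N) => if P ∈ S then
      (1 - gI ι X s P.asIdeal) else 1) (∏ P ∈ S, (1 - gI ι X s P.asIdeal)) := by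
    have h6 := hasProd_prod_of_ne_finset_one (L := .unconditional _) (s := S)
      (f := fun P : HeightOneSpectrum (𝓞 N) => if P ∈ S then
        (1 - gI ι X s P.asIdeal) else 1) (fun P hP => if_neg hP)
    rw [Finset.prod_congr rfl (fun P hP => if_pos hP)] at h6
    exact h6
  refine h1.unique ((h5.mul h2).congr_fun fun P => ?_)
  have hgI : gI ι (fun I => ind S I * X I) s P.asIdeal = ind S P.asIdeal * gI ι X s P.asIdeal := by
    unfold gI
    ring
  rw [hgI, ind_prime]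
  by_cases hP : P ∈ S
  · rw [if_pos hP, if_pos hP, zero_mul, sub_zero, inv_one,
      mul_inv_cancel₀ (one_sub_gI_ne hX P (by linarith))]
  · rw [if_neg hP, if_neg hP, one_mul, one_mul]

lemma rem_val {S : Finset (HeightOneSpectrum (𝓞 N))} (hS : ∀ P ∈ S, (n : 𝓞 N) ∈ P.asIdeal)
    (hX : IH n X) (hf : VV ι X f) (hg : VV ι (fun I => ind S I * X I) g) :
    g 1 = (∏ P ∈ S, (1 - gI ι X 1 P.asIdeal)) * f 1 := (rem_ev hS hX hf hg).self_of_nhds

lemma ord_mul_left {h f g : ℂ → ℂ} (hh : AnalyticAt ℂ h 1) (hh1 : h 1 ≠ 0) (hf : AnalyticAt ℂ f 1)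
    (hg : g =ᶠ[𝓝 1] fun s => h s * f s) : analyticOrderAt g 1 = analyticOrderAt f 1 := by
  rw [analyticOrderAt_congr hg]
  have h1 := analyticOrderAt_mul hh hf
  have h2 : analyticOrderAt h 1 = 0 := hh.analyticOrderAt_eq_zero.2 hh1
  have h3 : (fun s => h s * f s) = h * f := rfl
  rw [h3, h1, h2, zero_add]

lemma rem_ord {S : Finset (HeightOneSpectrum (𝓞 N))} (hS : ∀ P ∈ S, (n : 𝓞 N) ∈ P.asIdeal)
    (hX : IH n X) (hf : VV ι X f) (hg : VV ι (fun I => ind S I * X I) g) :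
    analyticOrderAt g 1 = analyticOrderAt f 1 := by
  have hd : Differentiable ℂ (fun s => ∏ P ∈ S, (1 - gI ι X s P.asIdeal)) :=
    Differentiable.fun_finsetProd fun v _ => (differentiable_const _).sub (gI_diff _ v)
  refine ord_mul_left (hd.analyticAt 1) ?_ hf.an (rem_ev hS hX hf hg)
  exact Finset.prod_ne_zero_iff.2 fun P _ => one_sub_gI_ne hX P (by rw [Complex.one_re])

end

end Pool.Agent.H98.B
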