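import Pool.Agent.H98.B.Frb

/-!
# The product formula for a quadratic extension, with a character
-/

set_option autoImplicit false
set_option linter.unusedSectionVars false
set_option linter.unusedVariables false

open Complex NumberField IsDedekindDomain Filter Topology
open scoped PeriodPair nonZeroDivisors

namespace Pool.Agent.H98.B

open Pool.Agent.K7.H56
open Pool.Agent.K7.H56.P
open Pool.Agent.R430
open Pool.Agent.Y696 Pool.Agent.W192.HK Pool.Agent.TH936.CM H667R3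
open Pool.Agent.Y688 (NI HL euler v_sub_one v_root v_RR dn dn_surj)
open Pool.Agent.K7.H70.AS (mero_eq2 gI_diff hX1 ram_mul)
open Pool.Agent.K7.H56.M
open UniqueFactorizationMonoid (normalizedFactors)

section tower
variable {N E M : Type} [Field N] [NumberField N] [Field E] [NumberField E] [Field M] [NumberField M]
  [Algebra N E] [Algebra E M] [Algebra N M] [IsScalarTower N E M] [IsGalois N M] [IsGalois N E]
  [IsGalois E M]

/-- the restriction of a character -/
noncomputable def rs (E : Type) [Field E] [Algebra N E] [Algebra E M] [IsScalarTower N E M]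
    (X : Gal(M/N) →* ℂˣ) : Gal(M/E) →* ℂˣ := X.comp (AlgEquiv.restrictScalarsHom N)

/-- the inflation of a character -/
noncomputable def inf (M : Type) [Field M] [Algebra N M] [Algebra E M] [IsScalarTower N E M]
    (Y : Gal(E/N) →* ℂˣ) : Gal(M/N) →* ℂˣ := Y.comp (AlgEquiv.restrictNormalHom E)

lemma exists_lift {φ : Gal(M/N)} (h : (AlgEquiv.restrictNormalHom E φ : Gal(E/N)) = 1) :
    ∃ ψ : Gal(M/E), AlgEquiv.restrictScalarsHom N ψ = φ := by
  refine ⟨AlgEquiv.ofRingEquiv (f := (φ : M ≃+* M)) fun e => ?_, ?_⟩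
  · have h1 := AlgEquiv.restrictNormal_commutes φ E e
    have h2 : φ.restrictNormal E = 1 := h
    rw [h2] at h1
    exact h1.symm
  · apply AlgEquiv.ext
    intro x
    rfl

lemma under_dn (w : HeightOneSpectrum (𝓞 M)) : dn N (dn E w : HeightOneSpectrum (𝓞 E)) = dn N w := by
  apply HeightOneSpectrum.ext
  show (w.asIdeal.under (𝓞 E)).under (𝓞 N) = w.asIdeal.under (𝓞 N)
  rw [Ideal.under_under]

/-- ramification upstairs -/
lemma SR_up {w : HeightOneSpectrum (𝓞 E)} (h : w ∈ SR E M) : dn N w ∈ SR N M := by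
  obtain ⟨w', ⟨σ, hσ, hin⟩, rfl⟩ := h
  refine ⟨w', ⟨AlgEquiv.restrictScalarsHom N σ, ?_, fun x => hin x⟩, (under_dn w').symm⟩
  intro h1
  apply hσ
  apply AlgEquiv.ext
  intro x
  exact DFunLike.congr_fun h1 x

lemma frob_pow {w : HeightOneSpectrum (𝓞 M)} {q : ℕ} {σ : Gal(M/N)}
    (hσ : ∀ x : 𝓞 M, σ • x - x ^ q ∈ w.asIdeal) (f : ℕ) (x : 𝓞 M) :
    σ ^ f • x - x ^ q ^ f ∈ w.asIdeal := by
  induction f generalizing x with
  | zero =>
    rw [pow_zero, one_smul, pow_zero, pow_one, sub_self]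
    exact Ideal.zero_mem _
  | succ f ih =>
    have h1 := ih (σ • x)
    rw [smul_smul, ← pow_succ] at h1
    have h2 : (σ • x) ^ q ^ f - (x ^ q) ^ q ^ f ∈ w.asIdeal :=
      Ideal.mem_of_dvd _ (sub_dvd_pow_sub_pow _ _ _) (hσ x)
    have e : σ ^ (f + 1) • x - x ^ q ^ (f + 1) = (σ ^ (f + 1) • x - (σ • x) ^ q ^ f) +
        ((σ • x) ^ q ^ f - (x ^ q) ^ q ^ f) := by
      rw [← pow_mul x, ← pow_succ']
      ring
    rw [e]
    exact Ideal.add_mem _ h1 h2

/-- **the Frobenius automorphisms of the upper layer** -/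
theorem frob_up (h2 : Module.finrank N E = 2) (hc : ∀ σ τ : Gal(M/N), σ * τ = τ * σ)
    (hcE : ∀ σ τ : Gal(M/E), σ * τ = τ * σ)
    {P : HeightOneSpectrum (𝓞 N)} (hP : P ∉ SR N M) {w : HeightOneSpectrum (𝓞 E)} (hw : und w = P) :
    AlgEquiv.restrictScalarsHom N (frP M w.asIdeal : Gal(M/E)) =
      frP M P.asIdeal ^ orderOf (frP E P.asIdeal) := by
  have hPE : P ∉ SR N E := fun h => hP (SR_mono h)
  have hres := frob_restr (M := M) (comm2 h2) hPE
  set f := orderOf (frP E P.asIdeal) with hf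
  have h1 : (AlgEquiv.restrictNormalHom E (frP M P.asIdeal ^ f) : Gal(E/N)) = 1 := by
    rw [map_pow, hres, hf, pow_orderOf_eq_one]
  obtain ⟨ψ, hψ⟩ := exists_lift h1
  rw [← hψ]
  congr 1
  -- a prime above `w`
  obtain ⟨w2, hw2, hfr2⟩ := frP_spec (K := M) w
  obtain ⟨w0, hw0, hfr⟩ := frP_spec (K := M) P
  have hdn : dn N w2 = P := by
    rw [← under_dn (E := E) w2, hw2]
    exact hw
  have hfr' := frob_all hc (w0 := w0) (w := w2) (congrArg HeightOneSpectrum.asIdeal (hw0.trans hdn.symm)) hfr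
  have hpow := frob_pow hfr' f
  have hnorm : Ideal.absNorm w.asIdeal = Ideal.absNorm P.asIdeal ^ f :=
    (split_unr h2 (fun h => hPE h)).1 w hw
  refine frob_uniq (w := w2) ?_ ?_ hfr2 (τ := ψ) ?_
  · intro hR
    apply hP
    rw [← hdn]
    have := SR_up (N := N) (w := dn E w2) ⟨w2, hR, rfl⟩
    rwa [under_dn] at this
  · rw [Ne, Ideal.absNorm_eq_zero_iff]
    exact w.ne_bot
  · intro x
    have h3 := hpow x
    rw [← hψ] at h3
    rw [hnorm]
    exact h3

/-- **the factors over an unramified prime** -/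
theorem fib2 (h2 : Module.finrank N E = 2) (hc : ∀ σ τ : Gal(M/N), σ * τ = τ * σ)
    (hcE : ∀ σ τ : Gal(M/E), σ * τ = τ * σ) {X : Gal(M/N) →* ℂˣ} {Y : Gal(E/N) →* ℂˣ}
    (hY : ∀ σ, σ ≠ 1 → Y σ = -1) (hX : ∀ σ, X σ ^ 2 = 1) {ι : Pool.Agent.Y688.RR →+* 𝓞 N}
    {P : HeightOneSpectrum (𝓞 N)} (hP : P ∉ SR N M) (s : ℂ) :
    ∏ w : {w : HeightOneSpectrum (𝓞 E) // und w = P},
      (1 - gI ((algebraMap (𝓞 N) (𝓞 E)).comp ι) (XR (rs E X)) s w.1.asIdeal) =
    (1 - gI ι (XR X) s P.asIdeal) * (1 - gI ι (XR (X * inf M Y)) s P.asIdeal) := by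
  classical
  have hPE : P ∉ SR N E := fun h => hP (SR_mono h)
  obtain ⟨h3, h4⟩ := split_unr h2 (fun h => hPE h)
  have hres := frob_restr (M := M) (comm2 h2) hPE
  have hXR : ∀ Z : Gal(M/N) →* ℂˣ, XR Z P.asIdeal = ((Z (frP M P.asIdeal) : ℂˣ) : ℂ) := fun Z => by
    rw [XR_neg (fun h => hP (SR_iff.1 h)), XX_prime Z (Ideal.prime_of_isPrime P.ne_bot P.isPrime)]
  set z : ℂ := ((X (frP M P.asIdeal) : ℂˣ) : ℂ) with hz
  set g : ℂ := gI ι (X0 1) s P.asIdeal with hg
  have hz2 : z ^ 2 = 1 := by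
    rw [hz, ← Units.val_pow_eq_pow_val, hX, Units.val_one]
  have h5 : ∀ w : {w : HeightOneSpectrum (𝓞 E) // und w = P},
      (1 - gI ((algebraMap (𝓞 N) (𝓞 E)).comp ι) (XR (rs E X)) s w.1.asIdeal) =
      1 - (z * g) ^ orderOf (frP E P.asIdeal) := fun w => by
    have hw : w.1 ∉ SR E M := fun h => hP (by
      have := SR_up (N := N) h
      rwa [show dn N w.1 = P from w.2] at this)
    rw [gI_mulX, gI_over w.2 (h3 w.1 w.2), XR_neg (fun h => hw (SR_iff.1 h)),
      XX_prime _ (Ideal.prime_of_isPrime w.1.ne_bot w.1.isPrime)]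
    unfold rs
    rw [MonoidHom.comp_apply, frob_up h2 hc hcE hP w.2, map_pow, Units.val_pow_eq_pow_val, mul_pow]
  rw [Finset.prod_congr rfl (fun w _ => h5 w), Finset.prod_const, Finset.card_univ, h4,
    gI_mulX (XR X) s P, gI_mulX (XR (X * inf M Y)) s P, hXR, hXR]
  have hmul : (((X * inf M Y) (frP M P.asIdeal) : ℂˣ) : ℂ) =
      z * ((Y (frP E P.asIdeal) : ℂˣ) : ℂ) := by
    unfold inf
    rw [MonoidHom.mul_apply, Units.val_mul, MonoidHom.comp_apply, hres]
  rw [hmul]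
  have hdvd : orderOf (frP E P.asIdeal) ∣ 2 := by
    apply orderOf_dvd_of_pow_eq_one
    rw [pow_two]
    exact sq2 h2 _
  rcases (Nat.dvd_prime Nat.prime_two).1 hdvd with h | h
  · have h1 : frP E P.asIdeal = 1 := orderOf_eq_one_iff.1 h
    rw [h, h1, map_one, Units.val_one]
    norm_num
    ring
  · have h1 : frP E P.asIdeal ≠ 1 := by
      intro h0
      rw [h0, orderOf_one] at h
      exact absurd h (by norm_num)
    rw [h, hY _ h1]
    norm_num
    linear_combination 0 * hz2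

end tower

end Pool.Agent.H98.B
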