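import Pool.Agent.H98.B.Num2

/-!
# The golden ratio in finite fields
-/

set_option autoImplicit false

namespace Pool.Agent.H98.B

lemma pow_mod5 {K : Type*} [Monoid K] {z : K} (hz : z ^ 5 = 1) (q : ℕ) : z ^ q = z ^ (q % 5) := by
  conv_lhs => rw [← Nat.div_add_mod q 5, pow_add, pow_mul, hz, one_pow, one_mul]

theorem fin5 {κ : Type*} [Field κ] {p : ℕ} [Fact p.Prime] [CharP κ p] {θ : κ}
    (hθ : θ ^ 2 = θ + 1) (n : ℕ) :
    (s5 ((p ^ n : ℕ) : ZMod 5) = 1 → θ ^ (p ^ n) = θ) ∧
      (s5 ((p ^ n : ℕ) : ZMod 5) = -1 → θ ^ (p ^ n) = 1 - θ) := by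
  set q := p ^ n with hq
  let K := AlgebraicClosure κ
  have hch : CharP K p := charP_of_injective_algebraMap (algebraMap κ K).injective p
  obtain ⟨z, hz⟩ : ∃ z : K, z ^ 4 + z ^ 3 + z ^ 2 + z + 1 = 0 := by
    have hd : (Polynomial.X ^ 4 + Polynomial.X ^ 3 + Polynomial.X ^ 2 + Polynomial.X + 1 :
        Polynomial K).degree ≠ 0 := by
      have : (Polynomial.X ^ 4 + Polynomial.X ^ 3 + Polynomial.X ^ 2 + Polynomial.X + 1 :
        Polynomial K).degree = 4 := by compute_degree!
      rw [this]
      norm_num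
    obtain ⟨z, hz⟩ := IsAlgClosed.exists_root _ hd
    refine ⟨z, ?_⟩
    simpa [Polynomial.IsRoot] using hz
  have hz5 : z ^ 5 = 1 := by linear_combination (z - 1) * hz
  set t : K := algebraMap κ K θ with ht
  have ht2 : t ^ 2 = t + 1 := by
    rw [ht, ← map_pow, hθ, map_add, map_one]
  have hfac : (t + z + z ^ 4) * (t + z ^ 2 + z ^ 3) = 0 := by
    have h6 : z ^ 6 = z := by rw [pow_succ, hz5, one_mul]
    have h7 : z ^ 7 = z ^ 2 := by rw [show 7 = 5 + 2 from rfl, pow_add, hz5, one_mul]
    have e : (t + z + z ^ 4) * (t + z ^ 2 + z ^ 3) =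
        t ^ 2 + t * (z + z ^ 2 + z ^ 3 + z ^ 4) + (z ^ 3 + z ^ 4 + z ^ 6 + z ^ 7) := by ring
    rw [e, h6, h7]
    linear_combination ht2 + (t + 1) * hz
  have hfr : ∀ a b : K, (-(a + b)) ^ q = -(a ^ q + b ^ q) := by
    intro a b
    have h1 := map_neg (iterateFrobenius K p n) (a + b)
    have h2 := map_add (iterateFrobenius K p n) a b
    rw [iterateFrobenius_def, iterateFrobenius_def] at h1
    rw [iterateFrobenius_def, iterateFrobenius_def, iterateFrobenius_def] at h2
    rw [hq, h1, h2]
  have hcase : ∀ m : ZMod 5, (s5 m = 1 → m = 1 ∨ m = 4) ∧ (s5 m = -1 → m = 2 ∨ m = 3) := by decide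
  have hmod : ∀ r : ℕ, r < 5 → ((q : ℕ) : ZMod 5) = (r : ZMod 5) → q % 5 = r := by
    intro r hr h
    have := (ZMod.natCast_eq_natCast_iff' q r 5).1 h
    rw [this, Nat.mod_eq_of_lt hr]
  have hinj := (algebraMap κ K).injective
  have hzq : ∀ k : ℕ, (z ^ k) ^ q = z ^ (k * (q % 5) % 5) := by
    intro k
    rw [← pow_mul, pow_mod5 hz5 (k * q), Nat.mul_mod, Nat.mul_mod k (q % 5), Nat.mod_mod]
  have main : (q % 5 = 1 ∨ q % 5 = 4 → t ^ q = t) ∧ (q % 5 = 2 ∨ q % 5 = 3 → t ^ q = 1 - t) := by
    rcases mul_eq_zero.1 hfac with h | h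
    · have ht' : t = -(z ^ 1 + z ^ 4) := by linear_combination h
      have e : t ^ q = -(z ^ (1 * (q % 5) % 5) + z ^ (4 * (q % 5) % 5)) := by
        conv_lhs => rw [ht']
        rw [hfr, hzq, hzq]
      constructor
      · rintro (h1 | h1)
        · rw [e, h1]
          norm_num
          linear_combination -h
        · rw [e, h1]
          norm_num
          linear_combination -h
      · rintro (h1 | h1)
        · rw [e, h1]
          norm_num
          linear_combination -hz + h
        · rw [e, h1]
          norm_num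
          linear_combination -hz + h
    · have ht' : t = -(z ^ 2 + z ^ 3) := by linear_combination h
      have e : t ^ q = -(z ^ (2 * (q % 5) % 5) + z ^ (3 * (q % 5) % 5)) := by
        conv_lhs => rw [ht']
        rw [hfr, hzq, hzq]
      constructor
      · rintro (h1 | h1)
        · rw [e, h1]
          norm_num
          linear_combination -h
        · rw [e, h1]
          norm_num
          linear_combination -h
      · rintro (h1 | h1)
        · rw [e, h1]
          norm_num
          linear_combination -hz + h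
        · rw [e, h1]
          norm_num
          linear_combination -hz + h
  constructor
  · intro hs
    apply hinj
    rw [map_pow]
    refine main.1 ?_
    rcases (hcase _).1 hs with h | h
    · left
      exact hmod 1 (by norm_num) (by rw [h]; norm_num)
    · right
      exact hmod 4 (by norm_num) (by rw [h]; norm_num)
  · intro hs
    apply hinj
    rw [map_pow, map_sub, map_one]
    refine main.2 ?_
    rcases (hcase _).2 hs with h | h
    · left
      exact hmod 2 (by norm_num) (by rw [h]; norm_num)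
    · right
      exact hmod 3 (by norm_num) (by rw [h]; norm_num)

end Pool.Agent.H98.B
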