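import Pool.Agent.H98.B.Step
import Pool.Graph.R_pool_sql_team_seeded_35f281b4.K7.H73.L3.I
import Pool.Graph.R_pool_sql_team_seeded_35f281b4.K7.H70.SE.Three

/-!
# Fields in which five is inert
-/

set_option autoImplicit false
set_option linter.unusedSectionVars false
set_option linter.unusedVariables false

open Complex NumberField IsDedekindDomain Filter Topology
open scoped PeriodPair nonZeroDivisors

namespace Pool.Agent.H98.B

open Pool.Agent.K7.H56
open Pool.Agent.K7.H56.P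
open Pool.Agent.R430
open Pool.Agent.Y696 Pool.Agent.W192.HK Pool.Agent.TH936.CM H667R3
open Pool.Agent.Y688 (NI HL euler v_sub_one v_root v_RR dn dn_surj)
open Pool.Agent.K7.H70.AS (mero_eq2 gI_diff hX1 ram_mul VV_prod gal2' exists_mid nc_of_tower NC)
open Pool.Agent.K7.H56.M

/-- five generates a prime ideal -/
def P5 (T : Type) [Field T] [NumberField T] : Prop := (Ideal.span {(5 : 𝓞 T)}).IsPrime

section
variable {N T : Type} [Field N] [NumberField N] [Field T] [NumberField T]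

lemma five_ne : (5 : 𝓞 T) ≠ 0 := by norm_num

lemma coe5 : ((5 : 𝓞 T) : T) = 5 := map_ofNat (algebraMap (𝓞 T) T) 5

lemma coe5m (y : 𝓞 T) : ((5 * y : 𝓞 T) : T) = 5 * (y : T) := by
  have : ((5 * y : 𝓞 T) : T) = ((5 : 𝓞 T) : T) * (y : T) := map_mul (algebraMap (𝓞 T) T) 5 y
  rw [this, coe5]

/-- the prime above five -/
noncomputable def p5 (hT : P5 T) : HeightOneSpectrum (𝓞 T) :=
  ⟨Ideal.span {(5 : 𝓞 T)}, hT, by
    rw [Ne, Ideal.span_singleton_eq_bot]
    exact five_ne⟩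

lemma p5_ideal (hT : P5 T) : (p5 hT).asIdeal = Ideal.span {(5 : 𝓞 T)} := rfl

lemma mem_p5 (hT : P5 T) {x : 𝓞 T} : x ∈ (p5 hT).asIdeal ↔ (5 : 𝓞 T) ∣ x :=
  Ideal.mem_span_singleton

lemma p5_uniq (hT : P5 T) {w : HeightOneSpectrum (𝓞 T)} (h : (5 : 𝓞 T) ∈ w.asIdeal) : w = p5 hT := by
  apply HeightOneSpectrum.ext
  refine ((p5 hT).isMaximal.eq_of_le w.isPrime.ne_top ?_).symm
  rw [p5_ideal, Ideal.span_singleton_le_iff_mem]
  exact h

variable [Algebra N T]

lemma int_down {x : N} (h : IsIntegral ℤ (algebraMap N T x)) : IsIntegral ℤ x :=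
  (isIntegral_algebraMap_iff (algebraMap N T).injective).1 h

lemma five_down (hT : P5 T) : P5 N := by
  have h1 : (Ideal.span {(5 : 𝓞 T)}).comap (algebraMap (𝓞 N) (𝓞 T)) = Ideal.span {(5 : 𝓞 N)} := by
    ext x
    rw [Ideal.mem_comap, Ideal.mem_span_singleton, Ideal.mem_span_singleton]
    constructor
    · rintro ⟨y, hy⟩
      have h2 : IsIntegral ℤ ((x : N) / 5) := by
        apply int_down (T := T)
        have h3 : algebraMap N T ((x : N) / 5) = (y : T) := by
          have h4 := congrArg (fun z : 𝓞 T => (z : T)) hy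
          change algebraMap N T (x : N) = _ at h4
          rw [map_div₀, h4, map_ofNat, coe5m]
          field_simp
        rw [h3]
        exact y.2
      obtain ⟨z, hz⟩ : ∃ z : 𝓞 N, (z : N) = (x : N) / 5 := ⟨⟨_, h2⟩, rfl⟩
      refine ⟨z, RingOfIntegers.ext ?_⟩
      rw [coe5m, hz]
      field_simp
    · rintro ⟨y, rfl⟩
      exact ⟨algebraMap (𝓞 N) (𝓞 T) y, by rw [map_mul, map_ofNat]⟩
  show (Ideal.span {(5 : 𝓞 N)}).IsPrime
  rw [← h1]
  have := hT
  unfold P5 at this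
  exact Ideal.IsPrime.comap _

lemma five_ns (hT : P5 T) (x : T) : x ^ 2 ≠ 5 := by
  intro h
  have hx : IsIntegral ℤ x := by
    refine IsIntegral.of_pow (n := 2) two_pos ?_
    rw [h]
    have h5 := isIntegral_algebraMap (R := ℤ) (A := T) (x := 5)
    rwa [map_ofNat] at h5
  set y : 𝓞 T := ⟨x, hx⟩ with hy
  have h1 : y ^ 2 = 5 := RingOfIntegers.ext (by
    rw [coe5, ← h]
    rfl)
  have h2 : y ∈ (p5 hT).asIdeal := by
    refine (p5 hT).isPrime.mem_of_pow_mem 2 ?_
    rw [h1, mem_p5]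
  obtain ⟨z, hz⟩ := (mem_p5 hT).1 h2
  rw [hz] at h1
  have h3 : (5 : 𝓞 T) * (5 * z ^ 2) = 5 * 1 := by linear_combination h1
  have h4 := mul_left_cancel₀ five_ne h3
  apply (p5 hT).isPrime.ne_top
  rw [Ideal.eq_top_iff_one, mem_p5]
  exact ⟨z ^ 2, h4.symm⟩

lemma three_p5 (hT : P5 T) : (3 : 𝓞 T) ∉ (p5 hT).asIdeal := by
  intro h
  have h5 : (5 : 𝓞 T) ∈ (p5 hT).asIdeal := (mem_p5 hT).2 dvd_rfl
  apply (p5 hT).isPrime.ne_top
  rw [Ideal.eq_top_iff_one]
  have : (1 : 𝓞 T) = 2 * 3 - 5 := by norm_num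
  rw [this]
  exact Ideal.sub_mem _ (Ideal.mul_mem_left _ _ h) h5

lemma bad_p5 (hT : P5 T) : (3 : 𝓞 T) ^ 3 - 2 ∈ (p5 hT).asIdeal := by
  rw [mem_p5]
  exact ⟨5, by norm_num⟩

/-- the prime is not ramified -/
lemma p5_unr [IsGalois N T] (hT : P5 T) {w : HeightOneSpectrum (𝓞 T)} (h : (5 : 𝓞 T) ∈ w.asIdeal)
    {σ : Gal(T/N)} (hσ : ∀ x : 𝓞 T, σ • x - x ∈ w.asIdeal) : σ = 1 := by
  have hN : P5 N := five_down (N := N) hT
  have hw := p5_uniq hT h
  subst hw
  have hd : dn N (p5 hT) = p5 hN := p5_uniq hN (by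
    show algebraMap (𝓞 N) (𝓞 T) 5 ∈ (p5 hT).asIdeal
    rw [map_ofNat]
    exact h)
  have hlo : (p5 hT).asIdeal.LiesOver (p5 hN).asIdeal := ⟨by
    rw [← hd]
    rfl⟩
  have e : (p5 hN).asIdeal.ramificationIdx' (p5 hT).asIdeal = 1 := by
    refine Ideal.ramificationIdx'_spec ?_ ?_
    · rw [pow_one, p5_ideal, p5_ideal, Ideal.map_span, Set.image_singleton, map_ofNat]
    · rw [p5_ideal, p5_ideal, Ideal.map_span, Set.image_singleton, map_ofNat,
        Ideal.span_singleton_pow, Ideal.span_singleton_le_span_singleton]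
      rintro ⟨c, hc⟩
      have h3 : (5 : 𝓞 T) * 1 = 5 * (5 * c) := by linear_combination hc
      have h4 := mul_left_cancel₀ five_ne h3
      apply (p5 hT).isPrime.ne_top
      rw [Ideal.eq_top_iff_one, mem_p5]
      exact ⟨c, h4⟩
  rw [Ideal.ramificationIdx'_eq_ramificationIdx _ _ (p5 hN).ne_bot] at e
  exact unr_g _ (Algebra.isUnramifiedAt_iff_of_isDedekindDomain.2 e) hσ

end

/-! ### the quadratic extension by the square root of five -/

section
variable {N D : Type} [Field N] [NumberField N] [Field D] [NumberField D] [Algebra N D] {r : D}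

/-- the root generates -/
lemma five_gen (hN : P5 N) (h2 : Module.finrank N D = 2) (hr : r ^ 2 = 5) :
    IntermediateField.adjoin N {r} = ⊤ := by
  rcases (Module.finrank_mul_finrank N (IntermediateField.adjoin N {r}) D) with h3
  rw [h2] at h3
  have h4 : Module.finrank N (IntermediateField.adjoin N {r}) ≠ 1 := by
    intro h1
    have h5 : IntermediateField.adjoin N {r} = ⊥ := IntermediateField.finrank_eq_one_iff.1 h1
    have h6 : r ∈ (⊥ : IntermediateField N D) := by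
      rw [← h5]
      exact IntermediateField.mem_adjoin_simple_self N r
    obtain ⟨x, hx⟩ := IntermediateField.mem_bot.1 h6
    apply five_ns hN x
    apply (algebraMap N D).injective
    rw [map_pow, hx, hr, map_ofNat]
  have h5 : Module.finrank N (IntermediateField.adjoin N {r}) = 2 := by
    have h7 : Module.finrank N (IntermediateField.adjoin N {r}) ∣ 2 := Dvd.intro _ h3
    exact ((Nat.dvd_prime Nat.prime_two).1 h7).resolve_left h4
  refine IntermediateField.eq_of_le_of_finrank_eq le_top ?_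
  rw [h5, IntermediateField.finrank_top', h2]

lemma five_one (hN : P5 N) (h2 : Module.finrank N D = 2) (hr : r ^ 2 = 5) {σ : Gal(D/N)}
    (h : σ r = r) : σ = 1 := by
  apply AlgEquiv.ext
  intro x
  have h1 : x ∈ IntermediateField.adjoin N {r} := by
    rw [five_gen hN h2 hr]
    trivial
  have h2' : IntermediateField.adjoin N {r} ≤ IntermediateField.fixedField (Subgroup.zpowers σ) := by
    rw [IntermediateField.adjoin_simple_le_iff]
    intro τ
    obtain ⟨τ, n, rfl⟩ := τ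
    show (σ ^ n) r = r
    have h3 : ∀ k : ℕ, (σ ^ k) r = r := by
      intro k
      induction k with
      | zero => rfl
      | succ k ih => rw [pow_succ, AlgEquiv.mul_apply, h, ih]
    obtain ⟨k, rfl | rfl⟩ := n.eq_nat_or_neg
    · rw [zpow_natCast]
      exact h3 k
    · rw [zpow_neg, zpow_natCast]
      show ((σ ^ k)⁻¹ : D ≃ₐ[N] D) r = r
      rw [AlgEquiv.aut_inv, AlgEquiv.symm_apply_eq, h3 k]
  exact (h2' h1) ⟨σ, Subgroup.mem_zpowers σ⟩

lemma five_neg (hN : P5 N) (h2 : Module.finrank N D = 2) (hr : r ^ 2 = 5) {σ : Gal(D/N)}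
    (h : σ ≠ 1) : σ r = -r := by
  have h1 : (σ r) ^ 2 = r ^ 2 := by
    rw [← map_pow, hr, map_ofNat]
  rcases sq_eq_sq_iff_eq_or_eq_neg.1 h1 with h3 | h3
  · exact absurd (five_one hN h2 hr h3) h
  · exact h3

/-- away from five nothing is ramified -/
lemma five_away (hN : P5 N) (h2 : Module.finrank N D = 2) (hr : r ^ 2 = 5)
    {w : HeightOneSpectrum (𝓞 D)} (hw : (5 : 𝓞 D) ∉ w.asIdeal) {σ : Gal(D/N)}
    (hσ : ∀ x : 𝓞 D, σ • x - x ∈ w.asIdeal) : σ = 1 := by
  by_contra hne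
  have h1 := five_neg hN h2 hr hne
  have hint : IsIntegral ℤ ((1 + r) / 2) := by
    refine ⟨Polynomial.X ^ 2 - Polynomial.X - 1, ?_, ?_⟩
    · monicity!
    · simp only [Polynomial.eval₂_sub, Polynomial.eval₂_pow, Polynomial.eval₂_X, Polynomial.eval₂_one]
      field_simp
      linear_combination hr
  have hintr : IsIntegral ℤ r := by
    refine IsIntegral.of_pow (n := 2) two_pos ?_
    rw [hr]
    have h5 := isIntegral_algebraMap (R := ℤ) (A := D) (x := 5)
    rwa [map_ofNat] at h5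
  obtain ⟨z, hz⟩ : ∃ z : 𝓞 D, (z : D) = (1 + r) / 2 := ⟨⟨_, hint⟩, rfl⟩
  obtain ⟨y, hy⟩ : ∃ y : 𝓞 D, (y : D) = r := ⟨⟨_, hintr⟩, rfl⟩
  have h3 := hσ z
  have h4 : σ • z - z = -y := by
    apply RingOfIntegers.ext
    show σ (z : D) - (z : D) = -(y : D)
    rw [hz, hy, map_div₀, map_add, map_one, h1, map_ofNat]
    field_simp
    ring
  rw [h4, Ideal.neg_mem_iff] at h3
  apply hw
  have h5 : (5 : 𝓞 D) = y * y := by
    apply RingOfIntegers.ext
    show ((5 : 𝓞 D) : D) = (y : D) * (y : D)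
    rw [coe5, hy, ← hr]
    ring
  rw [h5]
  exact Ideal.mul_mem_left _ _ h3

/-- five is ramified -/
lemma five_ram [IsGalois N D] (hN : P5 N) (h2 : Module.finrank N D = 2) (hr : r ^ 2 = 5) :
    ∃ (w : HeightOneSpectrum (𝓞 D)) (σ : D ≃ₐ[N] D), σ ≠ 1 ∧
      (∀ x : 𝓞 D, σ • x - x ∈ w.asIdeal) ∧ w.asIdeal.under (𝓞 N) = (p5 hN).asIdeal := by
  obtain ⟨w, hw⟩ := exists_above (K := D) (p5 hN)
  have hcard : Nat.card Gal(D/N) = 2 := by rw [IsGalois.card_aut_eq_finrank, h2]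
  obtain ⟨σ, hσ⟩ : ∃ σ : Gal(D/N), σ ≠ 1 := by
    by_contra hcon
    push Not at hcon
    have : Subsingleton Gal(D/N) := ⟨fun a b => by rw [hcon a, hcon b]⟩
    rw [Nat.card_unique] at hcard
    omega
  refine ⟨w, σ, hσ, ?_, hw.over.symm⟩
  have hintr : IsIntegral ℤ r := by
    refine IsIntegral.of_pow (n := 2) two_pos ?_
    rw [hr]
    have h5 := isIntegral_algebraMap (R := ℤ) (A := D) (x := 5)
    rwa [map_ofNat] at h5
  obtain ⟨ρ, hρ⟩ : ∃ ρ : 𝓞 D, (ρ : D) = r := ⟨⟨_, hintr⟩, rfl⟩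
  have hρ2 : ρ * ρ = 5 := by
    apply RingOfIntegers.ext
    show (ρ : D) * (ρ : D) = ((5 : 𝓞 D) : D)
    rw [coe5, hρ, ← hr]
    ring
  have h5w : (5 : 𝓞 D) ∈ w.asIdeal := by
    have h5 : (5 : 𝓞 N) ∈ (p5 hN).asIdeal := (mem_p5 hN).2 dvd_rfl
    rw [hw.over] at h5
    have h6 : algebraMap (𝓞 N) (𝓞 D) 5 ∈ w.asIdeal := h5
    rwa [map_ofNat] at h6
  have hρw : ρ ∈ w.asIdeal := by
    rw [← hρ2] at h5w
    exact (w.isPrime.mem_or_mem h5w).elim id id
  have h1 := five_neg hN h2 hr hσ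
  intro x
  set y : 𝓞 D := σ • x - x with hy
  have hσ2 : σ * σ = 1 := five_one hN h2 hr (by
    rw [AlgEquiv.mul_apply, h1, map_neg, h1, neg_neg])
  have hσy : σ • y = -y := by
    rw [hy, smul_sub, ← mul_smul, hσ2, one_smul]
    ring
  have hσρ : σ • ρ = -ρ := by
    apply RingOfIntegers.ext
    show σ (ρ : D) = -(ρ : D)
    rw [hρ, h1]
  have hfix : σ • (y * ρ) = y * ρ := by
    rw [smul_mul', hσy, hσρ]
    ring
  obtain ⟨c, hc⟩ : ∃ c : 𝓞 N, algebraMap (𝓞 N) (𝓞 D) c = y * ρ := by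
    refine Algebra.IsInvariant.isInvariant (A := 𝓞 N) (G := Gal(D/N)) (y * ρ) fun τ => ?_
    by_cases hτ : τ = 1
    · rw [hτ, one_smul]
    · have : τ = σ := by
        have h8 : τ * σ = 1 := five_one hN h2 hr (by
          rw [AlgEquiv.mul_apply, h1, map_neg, five_neg hN h2 hr hτ, neg_neg])
        have h9 : σ * σ = τ * σ := by rw [h8, hσ2]
        exact (mul_right_cancel h9).symm
      rw [this, hfix]
  obtain ⟨b, hb⟩ : ∃ b : 𝓞 N, algebraMap (𝓞 N) (𝓞 D) b = y * y := by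
    refine Algebra.IsInvariant.isInvariant (A := 𝓞 N) (G := Gal(D/N)) (y * y) fun τ => ?_
    by_cases hτ : τ = 1
    · rw [hτ, one_smul]
    · have : τ = σ := by
        have h8 : τ * σ = 1 := five_one hN h2 hr (by
          rw [AlgEquiv.mul_apply, h1, map_neg, five_neg hN h2 hr hτ, neg_neg])
        have h9 : σ * σ = τ * σ := by rw [h8, hσ2]
        exact (mul_right_cancel h9).symm
      rw [this, smul_mul', hσy]
      ring
  have hinj : Function.Injective (algebraMap (𝓞 N) (𝓞 D)) := FaithfulSMul.algebraMap_injective _ _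
  have h10 : c * c = 5 * b := by
    apply hinj
    rw [map_mul, map_mul, hc, hb, map_ofNat, ← hρ2]
    ring
  have h11 : c ∈ (p5 hN).asIdeal := by
    have h12 : c * c ∈ (p5 hN).asIdeal := by
      rw [h10, mem_p5]
      exact Dvd.intro _ rfl
    exact ((p5 hN).isPrime.mem_or_mem h12).elim id id
  obtain ⟨c', hc'⟩ := (mem_p5 hN).1 h11
  have h13 : y = ρ * algebraMap (𝓞 N) (𝓞 D) c' := by
    have hρ0 : ρ ≠ 0 := by
      intro h0
      rw [h0, mul_zero] at hρ2
      exact five_ne hρ2.symm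
    apply mul_right_cancel₀ hρ0
    rw [← hc, hc', map_mul, map_ofNat, ← hρ2]
    ring
  rw [h13]
  exact Ideal.mul_mem_right _ _ hρw

/-- two remains unramified -/
lemma unr2_five [IsGalois N D] (hN : P5 N) (h2 : Module.finrank N D = 2) (hr : r ^ 2 = 5)
    (hU : Unr2 N) : Unr2 D := by
  intro w hw
  have hlo : w.asIdeal.LiesOver (dn N w).asIdeal := ⟨rfl⟩
  have h2w : ((2 : ℕ) : 𝓞 N) ∈ (dn N w).asIdeal := by
    show algebraMap (𝓞 N) (𝓞 D) _ ∈ w.asIdeal
    rwa [map_natCast]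
  have h5 : (5 : 𝓞 D) ∉ w.asIdeal := by
    intro h5
    apply w.isPrime.ne_top
    rw [Ideal.eq_top_iff_one]
    have : (1 : 𝓞 D) = 5 - 2 * ((2 : ℕ) : 𝓞 D) := by
      push_cast
      norm_num
    rw [this]
    exact Ideal.sub_mem _ h5 (Ideal.mul_mem_left _ _ hw)
  have e1 : (dn N w).asIdeal.ramificationIdx' w.asIdeal = 1 :=
    ram_one hlo fun σ hσ => five_away hN h2 hr h5 hσ
  have e2 := HeightOneSpectrum.valuation_liesOver (K := N) D (dn N w) w (2 : N)
  rw [e1, pow_one, hU _ h2w, map_ofNat] at e2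
  exact e2.symm

end

end Pool.Agent.H98.B
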