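import Pool.Agent.H98.B.Key

/-!
# Frobenius automorphisms in towers, the characters over intermediate fields
-/

set_option autoImplicit false
set_option linter.unusedSectionVars false
set_option linter.unusedVariables false

open Complex NumberField IsDedekindDomain Filter Topology
open scoped PeriodPair nonZeroDivisors

namespace Pool.Agent.H98.B

open Pool.Agent.K7.H56
open Pool.Agent.K7.H56.P
open Pool.Agent.R430
open Pool.Agent.Y696 Pool.Agent.W192.HK Pool.Agent.TH936.CM H667R3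
open Pool.Agent.Y688 (NI HL euler v_sub_one v_root v_RR dn dn_surj)
open Pool.Agent.K7.H70.AS (mero_eq2 gI_diff hX1 ram_mul)
open Pool.Agent.K7.H56.M
open UniqueFactorizationMonoid (normalizedFactors)

section tower
variable {N E M : Type} [Field N] [NumberField N] [Field E] [NumberField E] [Field M] [NumberField M]
  [Algebra N E] [Algebra E M] [Algebra N M] [IsScalarTower N E M] [IsGalois N M] [IsGalois N E]

lemma restr_smul (σ : Gal(M/N)) (y : 𝓞 E) :
    algebraMap (𝓞 E) (𝓞 M) ((AlgEquiv.restrictNormalHom E σ : Gal(E/N)) • y) =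
      σ • algebraMap (𝓞 E) (𝓞 M) y := by
  apply RingOfIntegers.ext
  exact AlgEquiv.restrictNormal_commutes σ E (y : E)

lemma SR_mono {P : HeightOneSpectrum (𝓞 N)} (h : P ∈ SR N E) : P ∈ SR N M := by
  by_contra hn
  obtain ⟨w, ⟨σ, hσ, hin⟩, rfl⟩ := h
  apply hσ
  obtain ⟨w', hw'⟩ := exists_above (K := M) w
  have hlo : w.asIdeal.LiesOver (dn N w).asIdeal := ⟨rfl⟩
  have hlo' : w'.asIdeal.LiesOver (dn N w).asIdeal :=
    Ideal.LiesOver.trans w'.asIdeal w.asIdeal (dn N w).asIdeal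
  have e1 : (dn N w).asIdeal.ramificationIdx' w'.asIdeal = 1 := by
    refine ram_one hlo' fun τ hτ => ?_
    by_contra hne
    exact hn ⟨w', ⟨τ, hne, hτ⟩, HeightOneSpectrum.ext hlo'.over.symm⟩
  rw [ram_mul hlo hw'] at e1
  have e2 := Nat.eq_one_of_mul_eq_one_right e1
  rw [Ideal.ramificationIdx'_eq_ramificationIdx _ _ (dn N w).ne_bot] at e2
  exact unr_g w (Algebra.isUnramifiedAt_iff_of_isDedekindDomain.2 e2) hin

/-- two Frobenius automorphisms at the same unramified prime -/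
lemma frob_uniq {w : HeightOneSpectrum (𝓞 E)} (hw : ¬ Rm N w) {q : ℕ} (hq : q ≠ 0) {σ τ : Gal(E/N)}
    (hσ : ∀ x : 𝓞 E, σ • x - x ^ q ∈ w.asIdeal) (hτ : ∀ x : 𝓞 E, τ • x - x ^ q ∈ w.asIdeal) :
    σ = τ := by
  have h1 : ∀ x : 𝓞 E, σ • x - τ • x ∈ w.asIdeal := by
    intro x
    have : σ • x - τ • x = (σ • x - x ^ q) - (τ • x - x ^ q) := by ring
    rw [this]
    exact Ideal.sub_mem _ (hσ x) (hτ x)
  have h2 : ∀ x : 𝓞 E, τ • x ∈ w.asIdeal → x ∈ w.asIdeal := by
    intro x hx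
    have h3 : x ^ q ∈ w.asIdeal := by
      have : x ^ q = τ • x - (τ • x - x ^ q) := by ring
      rw [this]
      exact Ideal.sub_mem _ hx (hτ x)
    exact w.isPrime.mem_of_pow_mem _ h3
  have h3 : τ⁻¹ * σ = 1 := by
    refine not_rm hw _ fun x => h2 _ ?_
    rw [smul_sub, mul_smul, smul_inv_smul]
    exact h1 x
  rwa [inv_mul_eq_one, eq_comm] at h3

/-- **the restriction of a Frobenius automorphism** -/
theorem frob_restr (hc : ∀ σ τ : Gal(E/N), σ * τ = τ * σ) {P : HeightOneSpectrum (𝓞 N)}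
    (hP : P ∉ SR N E) : (AlgEquiv.restrictNormalHom E (frP M P.asIdeal) : Gal(E/N)) = frP E P.asIdeal := by
  obtain ⟨w0, hw0, hfr⟩ := frP_spec (K := M) P
  obtain ⟨w2, hw2, hfr2⟩ := frP_spec (K := E) P
  have hw1 : dn N (dn E w0 : HeightOneSpectrum (𝓞 E)) = P := by
    rw [← hw0]
    apply HeightOneSpectrum.ext
    show (w0.asIdeal.under (𝓞 E)).under (𝓞 N) = w0.asIdeal.under (𝓞 N)
    rw [Ideal.under_under]
  have hr : ∀ y : 𝓞 E, (AlgEquiv.restrictNormalHom E (frP M P.asIdeal) : Gal(E/N)) • y -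
      y ^ Ideal.absNorm P.asIdeal ∈ (dn E w0 : HeightOneSpectrum (𝓞 E)).asIdeal := by
    intro y
    show _ ∈ w0.asIdeal.under (𝓞 E)
    rw [Ideal.under_def, Ideal.mem_comap, map_sub, restr_smul, map_pow]
    exact hfr _
  refine frob_uniq (w := dn E w0) ?_ ?_ hr (frob_all hc (w0 := w2) ?_ hfr2)
  · intro hR
    exact hP ⟨_, hR, hw1⟩
  · rw [Ne, Ideal.absNorm_eq_zero_iff]
    exact P.ne_bot
  · have : dn N w2 = dn N (dn E w0 : HeightOneSpectrum (𝓞 E)) := by rw [hw2, hw1]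
    exact congrArg HeightOneSpectrum.asIdeal this

lemma X03_bot : X0 3 (⊥ : Ideal (𝓞 N)) = 0 := X0_neg (by
  rw [Ideal.isCoprime_iff_sup_eq, bot_sup_eq, Ideal.span_singleton_eq_top]
  exact not_unit_nat (by norm_num))

/-- **the characters over the large field** -/
theorem XR_restr (hc : ∀ σ τ : Gal(E/N), σ * τ = τ * σ) (X : Gal(E/N) →* ℂˣ)
    {S : Finset (HeightOneSpectrum (𝓞 N))} (hS : ∀ P, P ∈ S ↔ P ∈ SR N M) (I : Ideal (𝓞 N)) :
    X0 3 I * XR (X.comp (AlgEquiv.restrictNormalHom E : Gal(M/N) →* Gal(E/N))) I =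
      ind S I * (X0 3 I * XR X I) := by
  by_cases h1 : ∃ P ∈ S, I ≤ P.asIdeal
  · obtain ⟨P, hP, hle⟩ := h1
    rw [ind_pos ⟨P, hP, hle⟩, zero_mul]
    obtain ⟨w, hw, hwP⟩ := (hS P).1 hP
    rw [XR_pos ⟨w, hw, by rw [hwP]; exact hle⟩, mul_zero]
  · rw [ind_neg h1, one_mul]
    by_cases hI : I = ⊥
    · rw [hI, X03_bot, zero_mul, zero_mul]
    · have hM : ¬ ∃ w : HeightOneSpectrum (𝓞 M), Rm N w ∧ I ≤ (dn N w).asIdeal := by
        rintro ⟨w, hw, hle⟩
        exact h1 ⟨dn N w, (hS _).2 ⟨w, hw, rfl⟩, hle⟩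
      have hE : ¬ ∃ w : HeightOneSpectrum (𝓞 E), Rm N w ∧ I ≤ (dn N w).asIdeal := by
        rintro ⟨w, hw, hle⟩
        exact h1 ⟨dn N w, (hS _).2 (SR_mono (E := E) ⟨w, hw, rfl⟩), hle⟩
      rw [XR_neg hM, XR_neg hE]
      congr 1
      unfold Pool.Agent.R430.XX
      congr 1
      refine Multiset.map_congr rfl fun Q hQ => ?_
      have hQp : Prime Q := UniqueFactorizationMonoid.prime_of_normalized_factor Q hQ
      have hQd : Q ∣ I := UniqueFactorizationMonoid.dvd_of_mem_normalizedFactors hQ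
      let P : HeightOneSpectrum (𝓞 N) := ⟨Q, Ideal.isPrime_of_prime hQp, hQp.ne_zero⟩
      have hPn : P ∉ SR N E := fun h =>
        h1 ⟨P, (hS _).2 (SR_mono (E := E) h), Ideal.dvd_iff_le.1 hQd⟩
      have := frob_restr (M := M) hc hPn
      show ((X ((AlgEquiv.restrictNormalHom E : Gal(M/N) →* Gal(E/N)) (frP M Q)) : ℂˣ) : ℂ) = _
      rw [show (AlgEquiv.restrictNormalHom E : Gal(M/N) →* Gal(E/N)) (frP M Q) = frP E Q from this]

end tower

end Pool.Agent.H98.B
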