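import Pool.Agent.H98.B.Tow2
import Pool.Graph.R_seed8.TH936.AC.Wc2
import Pool.Graph.R_seed8.TH936.AC.Fe
import Pool.Graph.R_seed8.TH936.AC.Bar
import Pool.Graph.R_seed8.TH936.AD.Fe
import Pool.Graph.R_seed8.TH936.AD.Vd
import Pool.Graph.R_seed8.W287.HK.Basic
import Pool.Graph.R_seed8.W571.HK.Cls
import Pool.Graph.R_seed8.W53.HK.Fp
import Pool.Graph.R_seed8.W366.HK.Fpr
import Pool.Graph.R_seed8.W585.HK.LAT
import Pool.Graph.R_seed8.W692.HK.Ker
import Pool.Graph.R_seed8.W584.HK.CNT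
import Pool.Graph.R_seed8.W856.HK.Dec
import Pool.Graph.R_seed8.W636.HK.Gauss
import Pool.Graph.R_seed8.W348.HK.Pois
import Pool.Graph.R_seed8.W283.HK.PW

/-! imports -/

namespace Pool.Agent.H98.B

open Pool.Agent.W192.HK Pool.Agent.TH936.AC Pool.Agent.TH936.AD

theorem hbasic : H_BASIC := Pool.Agent.W287.HK.h_basic
theorem hcls : H_CLS := Pool.Agent.W571.HK.h_cls hbasic
theorem hfp : H_FP := Pool.Agent.W53.HK.h_fp hbasic hcls
theorem hcnt : H_CNT := Pool.Agent.W584.HK.h_cnt hbasic hcls (Pool.Agent.W366.HK.h_fpr hbasic hcls)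
  (Pool.Agent.W585.HK.h_lat hbasic)
  (Pool.Agent.W692.HK.h_ker hbasic hcls (Pool.Agent.W366.HK.h_fpr hbasic hcls))
theorem hgauss : H_GAUSS := Pool.Agent.W636.HK.h_gauss hbasic hfp
theorem htheta : H_THETA := Pool.Agent.TH936.HK.h_theta hbasic hfp
  (Pool.Agent.W856.HK.h_dec hbasic) hgauss (Pool.Agent.W348.HK.h_pois hbasic) hcnt
theorem hafe : H_AFE := Pool.Agent.TH936.HK.h_afe hbasic hfp hcnt hgauss htheta
theorem hpw : H_PW := Pool.Agent.W283.HK.PW.h_pw hbasic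
theorem abar : A_BAR := Pool.Agent.TH936.AC.a_bar hbasic
theorem afe : A_FE := Pool.Agent.TH936.AC.a_fe hbasic hfp hcnt hgauss htheta hafe abar
theorem awc : A_WC2 := Pool.Agent.TH936.AC.a_wc2 hbasic hcls hfp hpw abar
theorem dfe : D_FE := Pool.Agent.TH936.AD.d_fe hbasic hfp hcnt hgauss htheta hafe abar
  Pool.Agent.TH936.AD.d_vlog

end Pool.Agent.H98.B
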