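import Pool.Agent.H98.B.Eul

/-!
# One bad prime
-/

set_option autoImplicit false
set_option linter.unusedSectionVars false
set_option linter.unusedVariables false

open Complex NumberField IsDedekindDomain Filter Topology
open scoped PeriodPair nonZeroDivisors

namespace Pool.Agent.H98.B

open Pool.Agent.K7.H56
open Pool.Agent.K7.H56.P
open Pool.Agent.R430
open Pool.Agent.Y696 Pool.Agent.W192.HK Pool.Agent.TH936.CM H667R3
open Pool.Agent.Y688 (NI HL euler v_sub_one v_root v_RR)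
open Pool.Agent.K7.H70.AS (mero_eq2 gI_diff hX1)
open Pool.Agent.K7.H56.M (gI_form gI_int NP_odd)

section
variable {N : Type} [Field N] [NumberField N]
variable {n : ℕ} {X Y Z : Ideal (𝓞 N) → ℂ} {ι : Pool.Agent.Y688.RR →+* 𝓞 N} {f g : ℂ → ℂ}
variable {Γ : Type} [LinearOrderedCommGroupWithZero Γ] {v : Valuation ℂ Γ}

/-- elements of even norm are even -/
lemma v_even2 {a : Pool.Agent.Y688.RR} {m : ℤ} (hm : Even m) (hv : v 2 < 1)
    (ha : (a : ℂ) * (starRingEnd ℂ) (a : ℂ) = m) : v ((starRingEnd ℂ) (a : ℂ)) ≤ v 2 := by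
  obtain ⟨x, y, hxy⟩ := a.2
  have h1 : ((x ^ 2 - x * y + y ^ 2 : ℤ) : ℂ) = m := by
    rw [← ha, Complex.mul_conj, hxy]
    have := Pool.Agent.Y688.normSq_lin x y
    push_cast at this
    rw [this]
    push_cast
    ring
  have h2 : x ^ 2 - x * y + y ^ 2 = m := by exact_mod_cast h1
  have h3 : Even x ∧ Even y := by
    rcases Int.even_or_odd x with hx | hx <;> rcases Int.even_or_odd y with hy | hy
    · exact ⟨hx, hy⟩
    · exfalso
      have : Odd m := by
        rw [← h2]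
        exact (((hx.pow_of_ne_zero two_ne_zero).sub (hx.mul_right _))).add_odd hy.pow
      exact Int.not_even_iff_odd.2 this hm
    · exfalso
      have : Odd m := by
        rw [← h2]
        exact ((hx.pow.sub_even (hy.mul_left _))).add_even (hy.pow_of_ne_zero two_ne_zero)
      exact Int.not_even_iff_odd.2 this hm
    · exfalso
      have : Odd m := by
        rw [← h2]
        exact ((hx.pow.sub_odd (hx.mul hy))).add_odd hy.pow
      exact Int.not_even_iff_odd.2 this hm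
  obtain ⟨⟨x', rfl⟩, ⟨y', rfl⟩⟩ := h3
  let b : Pool.Agent.Y688.RR := ⟨x' + y' * Pool.Agent.Y688.w, ⟨x', y', rfl⟩⟩
  have h4 : (a : ℂ) = 2 * (b : ℂ) := by
    rw [hxy]
    show _ = 2 * ((x' : ℂ) + y' * Pool.Agent.Y688.w)
    push_cast
    ring
  have h5 : v ((starRingEnd ℂ) (b : ℂ)) ≤ 1 :=
    v_RR ⟨(starRingEnd ℂ) (b : ℂ), Pool.Agent.W287.HK.conj_mem Pool.Agent.Y688.qr _⟩
  have h6 : (starRingEnd ℂ) (a : ℂ) = 2 * (starRingEnd ℂ) (b : ℂ) := by
    rw [h4, map_mul]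
    congr 1
    exact Complex.conj_ofNat 2
  rw [h6, map_mul]
  calc v 2 * v ((starRingEnd ℂ) (b : ℂ)) ≤ v 2 * 1 := by gcongr
    _ = v 2 := mul_one _

/-- the Euler factor at a bad prime is divisible by two -/
lemma bad_I2 (hv : v 2 < 1) {P : HeightOneSpectrum (𝓞 N)} (h2 : (2 : 𝓞 N) ∉ P.asIdeal)
    (h3 : (3 : 𝓞 N) ∉ P.asIdeal) {x : 𝓞 N} (hx : x ^ 3 - 2 ∈ P.asIdeal) :
    v (1 - gI ι (X0 1) 1 P.asIdeal) ≤ v 2 := by
  have hmax : P.asIdeal.IsMaximal := P.isPrime.isMaximal P.ne_bot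
  let _ : Field (𝓞 N ⧸ P.asIdeal) := Ideal.Quotient.field P.asIdeal
  have hfin : Finite (𝓞 N ⧸ P.asIdeal) := Ideal.finiteQuotientOfFreeOfNeBot P.asIdeal P.ne_bot
  have h20 : (2 : 𝓞 N ⧸ P.asIdeal) ≠ 0 := fun h => h2 (Ideal.Quotient.eq_zero_iff_mem.1 h)
  have h30 : (3 : 𝓞 N ⧸ P.asIdeal) ≠ 0 := fun h => h3 (Ideal.Quotient.eq_zero_iff_mem.1 h)
  have hw : (⟨Pool.Agent.Y688.w, ⟨0, 1, by simp⟩⟩ : Pool.Agent.Y688.RR) ^ 2 +
      ⟨Pool.Agent.Y688.w, ⟨0, 1, by simp⟩⟩ + 1 = 0 := by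
    apply Subtype.ext
    show Pool.Agent.Y688.w ^ 2 + Pool.Agent.Y688.w + 1 = 0
    linear_combination Pool.Agent.Y688.w_sq
  have hζ := congrArg (fun z => Ideal.Quotient.mk P.asIdeal (ι z)) hw
  simp only [map_add, map_pow, map_one, map_zero] at hζ
  have ht : (Ideal.Quotient.mk P.asIdeal x) ^ 3 = 2 := by
    rw [← Ideal.Quotient.eq_zero_iff_mem, map_sub, map_pow, map_ofNat, sub_eq_zero] at hx
    exact hx
  have ho := NP_odd h20 h30 hζ ht
  obtain ⟨b, hb, hb2⟩ := gI_form (ι := ι) h3 h2 hv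
  rw [hb2]
  refine v_even2 ?_ hv hb
  have := ho.add_one
  exact_mod_cast this

lemma gI_le (hv : v 2 < 1) {P : HeightOneSpectrum (𝓞 N)} (h2 : (2 : 𝓞 N) ∉ P.asIdeal) :
    v (gI ι (X0 1) 1 P.asIdeal) ≤ 1 := by
  have h := gI_int (ι := ι) hv h2
  have e : gI ι (X0 1) 1 P.asIdeal = 1 - (1 - gI ι (X0 1) 1 P.asIdeal) := by ring
  rw [e]
  exact (v.map_sub _ _).trans (max_le (le_of_eq (map_one v)) h)

lemma gI_mulX (X : Ideal (𝓞 N) → ℂ) (s : ℂ) (P : HeightOneSpectrum (𝓞 N)) :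
    gI ι X s P.asIdeal = X P.asIdeal * gI ι (X0 1) s P.asIdeal := by
  unfold gI
  rw [hX1, one_mul, mul_assoc]

/-- the values `0, 1, -1` -/
def Sgn (X : Ideal (𝓞 N) → ℂ) : Prop := ∀ I, X I = 0 ∨ X I = 1 ∨ X I = -1

/-- the Euler factors at the good primes are units -/
lemma good_unit (hv : v 2 < 1) {P : HeightOneSpectrum (𝓞 N)} (h2 : (2 : 𝓞 N) ∉ P.asIdeal)
    (hP : (3 : 𝓞 N) ∈ P.asIdeal ∨ ∀ x : 𝓞 N, x ^ 3 - 2 ∉ P.asIdeal) (hX : Sgn X) :
    v (1 - gI ι X 1 P.asIdeal) = 1 := by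
  rw [gI_mulX]
  rcases hP with h3 | hg
  · have : gI ι (X0 1) 1 P.asIdeal = 0 := by
      unfold gI
      rw [PN_three h3, mul_zero, zero_mul]
    rw [this, mul_zero, sub_zero, map_one]
  · have h1 : v (1 - gI ι (X0 1) 1 P.asIdeal) = 1 := good_I hv hg
    rcases hX P.asIdeal with h | h | h
    · rw [h, zero_mul, sub_zero, map_one]
    · rw [h, one_mul, h1]
    · have e : 1 - -1 * gI ι (X0 1) 1 P.asIdeal =
          (1 - gI ι (X0 1) 1 P.asIdeal) + 2 * gI ι (X0 1) 1 P.asIdeal := by ring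
      rw [h, e, v.map_add_eq_of_lt_left, h1]
      rw [h1, map_mul]
      calc v 2 * v (gI ι (X0 1) 1 P.asIdeal) ≤ v 2 * 1 := by
            gcongr
            exact gI_le hv h2
        _ < 1 := by rw [mul_one]; exact hv

lemma X0_ne {I : Ideal (𝓞 N)} (m : ℕ) : X0 m I = 0 ∨ X0 m I = 1 := by
  by_cases h : IsCoprime I (Ideal.span {(m : 𝓞 N)})
  · exact Or.inr (X0_pos h)
  · exact Or.inl (X0_neg h)

lemma ind_or (S : Finset (HeightOneSpectrum (𝓞 N))) (I : Ideal (𝓞 N)) : ind S I = 0 ∨ ind S I = 1 := by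
  by_cases h : ∃ P ∈ S, I ≤ P.asIdeal
  · exact Or.inl (ind_pos h)
  · exact Or.inr (ind_neg h)

/-- **One bad prime: the congruence modulo four.** -/
theorem key {d : ℕ} (hd : Module.finrank ℚ N = 2 * d) (hU : Unr2 N) (hn : Odd n) (h3n : 3 ∣ n)
    (hX : IH n X) (hY : IH n Y) (hZ : IH n Z) (sX : Sgn X) (sY : Sgn Y) (sZ : Sgn Z)
    {S : Finset (HeightOneSpectrum (𝓞 N))} (hS : ∀ P ∈ S, (n : 𝓞 N) ∈ P.asIdeal)
    (hSg : ∀ P ∈ S, (3 : 𝓞 N) ∈ P.asIdeal ∨ ∀ x : 𝓞 N, x ^ 3 - 2 ∉ P.asIdeal)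
    {p : HeightOneSpectrum (𝓞 N)} (hp : (n : 𝓞 N) ∈ p.asIdeal) (hp3 : (3 : 𝓞 N) ∉ p.asIdeal)
    {x0 : 𝓞 N} (hx0 : x0 ^ 3 - 2 ∈ p.asIdeal) (hpS : p ∉ S)
    (hX3 : ∀ I, X0 3 I = 0 → X I = 0) (hY3 : ∀ I, X0 3 I = 0 → Y I = 0)
    (hZ3 : ∀ I, X0 3 I = 0 → Z I = 0)
    (hA : ∀ I, ind S I ≠ 0 → X0 3 I ≠ 0 → Y I ≠ 0)
    (hB : ∀ I, ind S I ≠ 0 → X0 3 I ≠ 0 → ¬ I ≤ p.asIdeal → X I ≠ 0 ∧ Z I = X I * Y I)
    (hXp : X p.asIdeal = 0) (hZp : Z p.asIdeal = 0) (hYp : Y p.asIdeal = -1)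
    {f gX gZ : ℂ → ℂ} (hf : VV ι (X0 1) f) (hgX : VV ι X gX) (hgZ : VV ι Z gZ)
    {L : PeriodPair} {Ω : ℂ} (hL : HL L Ω) (hv : v 2 < 1) (hfv : v (f 1) = v Ω ^ d)
    (hgX1 : gX 1 = 0) : v (gZ 1) = v 2 * v Ω ^ d := by
  classical
  have h2P : ∀ P : HeightOneSpectrum (𝓞 N), (n : 𝓞 N) ∈ P.asIdeal → (2 : 𝓞 N) ∉ P.asIdeal := by
    intro P hP h2P
    obtain ⟨k, hk⟩ := hn
    apply P.isPrime.ne_top
    rw [Ideal.eq_top_iff_one]
    have : (1 : 𝓞 N) = (n : 𝓞 N) - 2 * (k : 𝓞 N) := by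
      rw [hk]
      push_cast
      ring
    rw [this]
    exact Ideal.sub_mem _ hP (Ideal.mul_mem_right _ _ h2P)
  have hX03 : IH n (X0 (N := N) 3) := IHmono (X0_ih 3) h3n
  have hSp : ∀ P ∈ ({p} : Finset (HeightOneSpectrum (𝓞 N))), (n : 𝓞 N) ∈ P.asIdeal := by
    intro P hP
    rw [Finset.mem_singleton] at hP
    rw [hP]
    exact hp
  -- the functions
  have hiA : IH n (fun I => ind S I * Y I) := IHprod (ind_ih hS) hY
  have hiB : IH n (fun I => ind S I * X0 3 I) := IHprod (ind_ih hS) hX03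
  have hiC : IH n (fun I => ind S I * Z I) := IHprod (ind_ih hS) hZ
  have hiD : IH n (fun I => ind S I * X I) := IHprod (ind_ih hS) hX
  have hiA' : IH n (fun I => ind {p} I * (ind S I * Y I)) := IHprod (ind_ih hSp) hiA
  have hiB' : IH n (fun I => ind {p} I * (ind S I * X0 3 I)) := IHprod (ind_ih hSp) hiB
  obtain ⟨gA, gB, hgA, hgB, hAB⟩ := core_gen2 N ι d hd hU n _ _ hiA hiB hn
  obtain ⟨gC, gD, hgC, hgD, -⟩ := core_gen2 N ι d hd hU n _ _ hiC hiD hn
  obtain ⟨gA', gB', hgA', hgB', -⟩ := core_gen2 N ι d hd hU n _ _ hiA' hiB' hn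
  obtain ⟨vA, vAB⟩ := hAB L Ω hL Γ v hv
  have hlt0 : v (0 : ℂ) < 1 := by rw [map_zero]; exact zero_lt_one
  have hm1 : v ((-1 : ℂ) - 1) < 1 := by
    have : (-1 : ℂ) - 1 = -2 := by norm_num
    rw [this, Valuation.map_neg]
    exact hv
  have vAB := vAB (by
    intro I
    rw [← mul_sub]
    rcases ind_or S I with h | h
    · rw [h, zero_mul]
      exact hlt0
    · rw [h, one_mul]
      rcases X0_ne (I := I) 3 with h3 | h3
      · rw [h3, hY3 I h3, sub_zero]
        exact hlt0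
      · rw [h3]
        rcases sY I with h4 | h4 | h4
        · exact absurd h4 (hA I (by rw [h]; exact one_ne_zero) (by rw [h3]; exact one_ne_zero))
        · rw [h4, sub_self]
          exact hlt0
        · rw [h4]
          exact hm1)
  -- the values
  set a : ℂ := gI ι (X0 1) 1 p.asIdeal with ha
  have hindp : ind S p.asIdeal = 1 := by rw [ind_prime, if_neg hpS]
  have h30p : X0 3 p.asIdeal = 1 := by
    rcases X0_ne (I := p.asIdeal) 3 with h | h
    · exfalso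
      have := hY3 _ h
      rw [hYp] at this
      exact (neg_ne_zero.2 one_ne_zero) this
    · exact h
  have eA : gA' 1 = (1 + a) * gA 1 := by
    have h := rem_val hSp hiA hgA hgA'
    rw [Finset.prod_singleton, gI_mulX, hindp, hYp] at h
    rw [h]
    ring
  have eB : gB' 1 = (1 - a) * gB 1 := by
    have h := rem_val hSp hiB hgB hgB'
    rw [Finset.prod_singleton, gI_mulX, hindp, h30p] at h
    rw [h]
    ring
  have eC : gC 1 = (∏ P ∈ S, (1 - gI ι Z 1 P.asIdeal)) * gZ 1 := rem_val hS hZ hgZ hgC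
  have eD : gD 1 = 0 := by rw [rem_val hS hX hgX hgD, hgX1, mul_zero]
  have hf3 : VV ι (X0 3) f := by
    have h := VV_three.2 hf
    refine ⟨h.mero, h.an, fun s hs => (h.sum s hs).congr_fun fun I => ?_⟩
    unfold gI
    simp only
    rw [X0_pos (n := 1) (by
      rw [Nat.cast_one, Ideal.span_singleton_one]
      exact (Ideal.isCoprime_iff_sup_eq).2 (sup_top_eq _)), mul_one]
  have eB0 : gB 1 = (∏ P ∈ S, (1 - gI ι (X0 3) 1 P.asIdeal)) * f 1 := rem_val hS hX03 hf3 hgB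
  have s3 : Sgn (X0 (N := N) 3) := fun I => by
    rcases X0_ne (I := I) 3 with h | h
    · exact Or.inl h
    · exact Or.inr (Or.inl h)
  have vprod : ∀ W : Ideal (𝓞 N) → ℂ, Sgn W → v (∏ P ∈ S, (1 - gI ι W 1 P.asIdeal)) = 1 := by
    intro W hW
    rw [map_prod]
    exact Finset.prod_eq_one fun P hP => good_unit hv (h2P P (hS P hP)) (hSg P hP) hW
  have vB : v (gB 1) = v Ω ^ d := by rw [eB0, map_mul, vprod _ s3, one_mul, hfv]
  -- the congruence
  have h20 : v 2 ≠ 0 := (v.ne_zero_iff).2 two_ne_zero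
  have hmain := (core_lin N ι d hd hU n _ _ _ _ hiA' hiC hiB' hiD hn gA' gC gB' gD hgA' hgC hgB' hgD
    L Ω hL Γ v hv ?_ ?_).2
  · rw [eA, eB, eD] at hmain
    have va : v (1 - a) ≤ v 2 := bad_I2 hv (h2P p hp) hp3 hx0
    have va2 : v ((1 - a) / 2) ≤ 1 := by
      rw [map_div₀]
      exact (div_le_one₀ (zero_lt_iff.2 h20)).2 va
    have vb2 : v ((1 + a) / 2) ≤ 1 := by
      have e : (1 + a) / 2 = 1 - (1 - a) / 2 := by ring
      rw [e]
      exact (v.map_sub _ _).trans (max_le (le_of_eq (map_one v)) va2)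
    have va1 : v a = 1 := by
      have e : a = 1 - (1 - a) := by ring
      rw [e, v.map_sub_eq_of_lt_left, map_one]
      rw [map_one]
      exact va.trans_lt hv
    have hΩ : v Ω ^ d ≠ 0 := pow_ne_zero _ ((Valuation.ne_zero_iff _).2 hL.ne)
    have h5 : v (gC 1 / 2 + a * gB 1) < v Ω ^ d := by
      have e : gC 1 / 2 + a * gB 1 = (((1 + a) * gA 1 + gC 1) / 2 - ((1 - a) * gB 1 + 0) / 2) -
          (1 + a) / 2 * (gA 1 - gB 1) := by ring
      rw [e]
      refine (v.map_sub _ _).trans_lt (max_lt hmain ?_)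
      rw [map_mul]
      calc v ((1 + a) / 2) * v (gA 1 - gB 1) ≤ 1 * v (gA 1 - gB 1) := by gcongr
        _ = v (gA 1 - gB 1) := one_mul _
        _ < v Ω ^ d := vAB
    have h6 : v (gC 1 / 2) = v Ω ^ d := by
      have e : gC 1 / 2 = (gC 1 / 2 + a * gB 1) - a * gB 1 := by ring
      have h7 : v (a * gB 1) = v Ω ^ d := by rw [map_mul, va1, one_mul, vB]
      rw [e, v.map_sub_eq_of_lt_right, h7]
      rw [h7]
      exact h5
    have h7 : v (gC 1) = v 2 * v Ω ^ d := by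
      rw [map_div₀, div_eq_iff h20] at h6
      rw [h6, mul_comm]
    rw [eC, map_mul, vprod _ sZ, one_mul] at h7
    exact h7
  · intro I
    rcases ind_or S I with h | h
    · rw [h]
      simp
    · by_cases hIp : I ≤ p.asIdeal
      · have hZI : Z I = 0 := by
          obtain ⟨J, rfl⟩ := Ideal.dvd_iff_le.2 hIp
          rw [hZ.mul, hZp, zero_mul]
        rw [ind_pos ⟨p, Finset.mem_singleton_self p, hIp⟩, hZI]
        simp
      · have hi : ind ({p} : Finset (HeightOneSpectrum (𝓞 N))) I = 1 := ind_neg (by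
          rintro ⟨P, hP, hle⟩
          rw [Finset.mem_singleton] at hP
          exact hIp (hP ▸ hle))
        rw [hi, h]
        rcases X0_ne (I := I) 3 with h3 | h3
        · rw [hY3 I h3, hZ3 I h3]
          simp
        · obtain ⟨hx, hz⟩ := hB I (by rw [h]; exact one_ne_zero) (by rw [h3]; exact one_ne_zero) hIp
          rw [hz]
          rcases sX I with h4 | h4 | h4
          · exact absurd h4 hx
          · have e : (1 * (1 * Y I) + 1 * (X I * Y I)) / 2 = Y I := by rw [h4]; ring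
            rw [e]
            exact vX_le hY I
          · have e : (1 * (1 * Y I) + 1 * (X I * Y I)) / 2 = 0 := by rw [h4]; ring
            rw [e, map_zero]
            exact zero_le_one
  · intro I
    rcases ind_or S I with h | h
    · rw [h]
      simp
    · by_cases hIp : I ≤ p.asIdeal
      · have hZI : Z I = 0 := by
          obtain ⟨J, rfl⟩ := Ideal.dvd_iff_le.2 hIp
          rw [hZ.mul, hZp, zero_mul]
        have hXI : X I = 0 := by
          obtain ⟨J, rfl⟩ := Ideal.dvd_iff_le.2 hIp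
          rw [hX.mul, hXp, zero_mul]
        rw [ind_pos ⟨p, Finset.mem_singleton_self p, hIp⟩, hZI, hXI]
        simp
      · have hi : ind ({p} : Finset (HeightOneSpectrum (𝓞 N))) I = 1 := ind_neg (by
          rintro ⟨P, hP, hle⟩
          rw [Finset.mem_singleton] at hP
          exact hIp (hP ▸ hle))
        rw [hi, h]
        rcases X0_ne (I := I) 3 with h3 | h3
        · rw [hY3 I h3, hZ3 I h3, hX3 I h3, h3]
          simp
        · obtain ⟨hx, hz⟩ := hB I (by rw [h]; exact one_ne_zero) (by rw [h3]; exact one_ne_zero) hIp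
          have hy := hA I (by rw [h]; exact one_ne_zero) (by rw [h3]; exact one_ne_zero)
          rw [hz, h3]
          rcases sX I with h4 | h4 | h4
          · exact absurd h4 hx
          · have e : (1 * (1 * Y I) + 1 * (X I * Y I)) / 2 - (1 * (1 * 1) + 1 * X I) / 2 = Y I - 1 := by
              rw [h4]; ring
            rw [e]
            rcases sY I with h5 | h5 | h5
            · exact absurd h5 hy
            · rw [h5, sub_self]
              exact hlt0
            · rw [h5]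
              exact hm1
          · have e : (1 * (1 * Y I) + 1 * (X I * Y I)) / 2 - (1 * (1 * 1) + 1 * X I) / 2 = 0 := by
              rw [h4]; ring
            rw [e]
            exact hlt0

end

end Pool.Agent.H98.B
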