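import Pool.Graph.R_pool_sql_team_seeded_35f281b4.K7.H56.P.F

/-!
# Congruences for half sums of L-values
-/

set_option autoImplicit false
set_option linter.unusedSectionVars false

open Complex NumberField IsDedekindDomain
open scoped PeriodPair nonZeroDivisors

namespace Pool.Agent.H98.B

open Pool.Agent.K7.H56
open Pool.Agent.K7.H56.P
open Pool.Agent.R430
open Pool.Agent.Y696 Pool.Agent.W192.HK Pool.Agent.TH936.CM H667R3
open Pool.Agent.Y688 (NI HL euler v_sub_one v_root)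
open Pool.Agent.K7.H70.CL (Fe_thI SC)
open Pool.Agent.K7.H70.AS (mero_eq2)

section
variable {N : Type} [Field N] [NumberField N]
variable {n : ℕ} {X Y : Ideal (𝓞 N) → ℂ} {ι : Pool.Agent.Y688.RR →+* 𝓞 N}
  {a : ClassGroup (𝓞 N) → Ideal (𝓞 N)} {f : ClassGroup (𝓞 N) → ℂ → ℂ}

/-- the half sum of two coefficient functions at a class -/
noncomputable def hs (X Y : Ideal (𝓞 N) → ℂ) (b : Ideal (𝓞 N)) (α : 𝓞 N) : ℂ :=
  ((X b)⁻¹ * thI X b α + (Y b)⁻¹ * thI Y b α) / 2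

lemma norm_root (hX : IH n X) {b : Ideal (𝓞 N)} (hb : IsCoprime b (Ideal.span {(n : 𝓞 N)})) :
    ‖(X b)⁻¹‖ = 1 := by
  obtain ⟨k, hk0, hk⟩ := hX.pow _ hb
  rw [norm_inv, Complex.norm_eq_one_of_pow_eq_one hk hk0, inv_one]

lemma hs_chw (hX : IH n X) (hY : IH n Y) {M : ℕ} (h3 : 3 ∣ M) (hM : Odd M) (hn : n ∣ M)
    {b : Ideal (𝓞 N)} (hb : (M : 𝓞 N) ∈ b) (hc : IsCoprime b (Ideal.span {(n : 𝓞 N)})) :
    Chw M (hs X Y b) where
  unit u α := by
    unfold hs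
    rw [(hX.chw h3 hM hn hb).unit, (hY.chw h3 hM hn hb).unit]
  per α γ := by
    unfold hs
    rw [(hX.chw h3 hM hn hb).per, (hY.chw h3 hM hn hb).per]
  bd α := by
    unfold hs
    rw [norm_div]
    have h1 := (hX.chw h3 hM hn hb).bd α
    have h2 := (hY.chw h3 hM hn hb).bd α
    have e : ‖(2 : ℂ)‖ = 2 := by norm_num
    rw [e, div_le_one (by norm_num)]
    refine (norm_add_le _ _).trans ?_
    rw [norm_mul, norm_mul, norm_root hX hc, norm_root hY hc]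
    linarith
  three := h3
  odd := hM

/-- the values of the half sum -/
lemma hs_val (hX : IH n X) (hY : IH n Y) {b : Ideal (𝓞 N)} (hb0 : b ≠ ⊥)
    (hc : IsCoprime b (Ideal.span {(n : 𝓞 N)})) (α : 𝓞 N) :
    hs X Y b α = 0 ∨ ∃ I : Ideal (𝓞 N), ∀ Z W : Ideal (𝓞 N) → ℂ, IH n Z → IH n W →
      hs Z W b α = (Z I + W I) / 2 := by
  by_cases h : α ∈ b
  · right
    have h1 : b ∣ Ideal.span {α} := by
      rw [Ideal.dvd_iff_le, Ideal.span_singleton_le_iff_mem]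
      exact h
    obtain ⟨I, hI⟩ := h1
    refine ⟨I, fun Z W hZ hW => ?_⟩
    have hZ0 := hZ.ne b hc
    have hW0 := hW.ne b hc
    unfold hs
    rw [thI_pos h, thI_pos h, hI, hZ.mul, hW.mul, inv_mul_cancel_left₀ hZ0, inv_mul_cancel_left₀ hW0]
  · left
    unfold hs
    rw [thI_neg h, thI_neg h]
    ring

lemma Fe_hs (s : ℂ) (b : Ideal (𝓞 N)) (α : 𝓞 N) :
    Fe ι (hs X Y b) s α = ((X b)⁻¹ * Fe ι (thI X b) s α + (Y b)⁻¹ * Fe ι (thI Y b) s α) / 2 := by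
  unfold Fe hs
  ring

/-- the continuation of the half sum -/
lemma hs_pv {b : Ideal (𝓞 N)} {f g : ℂ → ℂ} (hf : PV ι (thI X b) f) (hg : PV ι (thI Y b) g) :
    PV ι (hs X Y b) (fun s => ((X b)⁻¹ * f s + (Y b)⁻¹ * g s) / 2) where
  mero z hz := (((MeromorphicAt.const _ z).mul (hf.mero z hz)).add
    ((MeromorphicAt.const _ z).mul (hg.mero z hz))).div (MeromorphicAt.const _ z)
  an := ((analyticAt_const.mul hf.an).add (analyticAt_const.mul hg.an)).div analyticAt_const (by norm_num)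
  sum s hs' := by
    have h1 := (((hf.sum s hs').mul_left (X b)⁻¹).add ((hg.sum s hs').mul_left (Y b)⁻¹)).div_const 2
    refine h1.congr_fun fun I => ?_
    exact Fe_hs s b (gp I)

lemma PV_uniq {χ : 𝓞 N → ℂ} {f g : ℂ → ℂ} (hf : PV ι χ f) (hg : PV ι χ g) : f 1 = g 1 :=
  mero_eq2 hf.mero hg.mero (fun s hs => (hf.sum s hs).unique (hg.sum s hs)) hf.an hg.an

lemma VV_uniq {χ : Ideal (𝓞 N) → ℂ} {f g : ℂ → ℂ} (hf : VV ι χ f) (hg : VV ι χ g) : f 1 = g 1 :=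
  mero_eq2 hf.mero hg.mero (fun s hs => (hf.sum s hs).unique (hg.sum s hs)) hf.an hg.an

/-- the common factor -/
noncomputable def kap (ι : Pool.Agent.Y688.RR →+* 𝓞 N) (b : Ideal (𝓞 N)) : ℂ := (gI ι (X0 1) 1 b)⁻¹

lemma kap_eq (hX : IH n X) (b : Ideal (𝓞 N)) :
    (gI ι X 1 b)⁻¹ = (X b)⁻¹ * kap ι b := by
  unfold kap gI
  rw [X0_pos (by
    rw [Nat.cast_one, Ideal.span_singleton_one]
    exact (Ideal.isCoprime_iff_sup_eq).2 (sup_top_eq _))]
  rw [mul_assoc, mul_inv, one_mul]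

end

/-- **Congruences for half sums.** -/
theorem core_lin (N : Type) [Field N] [NumberField N] (ι : Pool.Agent.Y688.RR →+* 𝓞 N) (d : ℕ)
    (hd : Module.finrank ℚ N = 2 * d) (hU : Unr2 N) (n : ℕ)
    (X Y X' Y' : Ideal (𝓞 N) → ℂ) (hX : IH n X) (hY : IH n Y) (hX' : IH n X') (hY' : IH n Y')
    (hn : Odd n) (f g f' g' : ℂ → ℂ) (hf : VV ι X f) (hg : VV ι Y g) (hf' : VV ι X' f')
    (hg' : VV ι Y' g') (L : PeriodPair) (Ω : ℂ) (hL : HL L Ω) (Γ : Type)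
    [LinearOrderedCommGroupWithZero Γ] (v : Valuation ℂ Γ) (hv : v 2 < 1)
    (h1 : ∀ I, v ((X I + Y I) / 2) ≤ 1)
    (h2 : ∀ I, v ((X I + Y I) / 2 - (X' I + Y' I) / 2) < 1) :
    v ((f 1 + g 1) / 2) ≤ v Ω ^ d ∧ v ((f 1 + g 1) / 2 - (f' 1 + g' 1) / 2) < v Ω ^ d := by
  obtain ⟨r, rfl⟩ : ∃ r, d = r + 1 := by
    cases d with
    | zero =>
      have : 0 < Module.finrank ℚ N := Module.finrank_pos
      omega
    | succ r => exact ⟨r, rfl⟩
  have hn0 : n ≠ 0 := by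
    obtain ⟨k, hk⟩ := hn
    omega
  obtain ⟨a, ha⟩ := exists_reps (N := N) (n := 6 * n) (by omega)
  obtain ⟨M, h3, hM, hnM, hMa⟩ := exists_mod hn ha
  have hc : ∀ c, IsCoprime (a c) (Ideal.span {(n : 𝓞 N)}) := fun c =>
    cop_span_of (dvd_mul_left n 6) (ha.cop c)
  -- the values of the classes
  have val : ∀ (Z W : Ideal (𝓞 N) → ℂ) (φ ψ : ℂ → ℂ), IH n Z → IH n W → VV ι Z φ → VV ι W ψ →
      ∀ h : ClassGroup (𝓞 N) → ℂ → ℂ, (∀ c, PV ι (hs Z W (a c)) (h c)) →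
      (φ 1 + ψ 1) / 2 = ∑ c, kap ι (a c) * h c 1 := by
    intro Z W φ ψ hZ hW hφ hψ h hh
    have key := fun c : ClassGroup (𝓞 N) => pz2 N ι r hd hU M (thI Z (a c)) (thI W (a c))
      (hZ.chw h3 hM hnM (hMa c)) (hW.chw h3 hM hnM (hMa c))
    choose p q hp hq _ using key
    have e1 : φ 1 = SC ι Z a p 1 := VV_uniq hφ (SC_VVy hZ ha hp)
    have e2 : ψ 1 = SC ι W a q 1 := VV_uniq hψ (SC_VVy hW ha hq)
    rw [e1, e2]
    unfold SC
    rw [← Finset.sum_add_distrib, Finset.sum_div]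
    refine Finset.sum_congr rfl fun c _ => ?_
    rw [PV_uniq (hh c) (hs_pv (hp c) (hq c)), kap_eq hZ, kap_eq hW]
    ring
  have key := fun c : ClassGroup (𝓞 N) => pz2 N ι r hd hU M (hs X Y (a c)) (hs X' Y' (a c))
    (hs_chw hX hY h3 hM hnM (hMa c) (hc c)) (hs_chw hX' hY' h3 hM hnM (hMa c) (hc c))
  choose p q hp hq hval using key
  have hle : ∀ c α, v (hs X Y (a c) α) ≤ 1 := by
    intro c α
    rcases hs_val hX hY (ha.ne c) (hc c) α with h | ⟨I, hI⟩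
    · rw [h, map_zero]
      exact zero_le_one
    · rw [hI X Y hX hY]
      exact h1 I
  have hlt : ∀ c α, v (hs X Y (a c) α - hs X' Y' (a c) α) < 1 := by
    intro c α
    by_cases h : α ∈ a c
    · have hd' : a c ∣ Ideal.span {α} := by
        rw [Ideal.dvd_iff_le, Ideal.span_singleton_le_iff_mem]
        exact h
      obtain ⟨I, hI⟩ := hd'
      have e : ∀ Z W : Ideal (𝓞 N) → ℂ, IH n Z → IH n W → hs Z W (a c) α = (Z I + W I) / 2 := by
        intro Z W hZ hW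
        unfold hs
        rw [thI_pos h, thI_pos h, hI, hZ.mul, hW.mul, inv_mul_cancel_left₀ (hZ.ne _ (hc c)),
          inv_mul_cancel_left₀ (hW.ne _ (hc c))]
      rw [e X Y hX hY, e X' Y' hX' hY']
      exact h2 I
    · have e : ∀ Z W : Ideal (𝓞 N) → ℂ, hs Z W (a c) α = 0 := by
        intro Z W
        unfold hs
        rw [thI_neg h, thI_neg h]
        ring
      rw [e, e, sub_zero, map_zero]
      exact zero_lt_one
  have hval' := fun c => hval c L Ω hL Γ v hv (hle c)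
  have hΩ : v Ω ^ (r + 1) ≠ 0 := pow_ne_zero _ ((Valuation.ne_zero_iff _).2 hL.ne)
  have hκ : ∀ c, v (kap ι (a c)) = 1 := fun c =>
    (v_gIy (ι := ι) (IHmono (X0_ih (N := N) 1) (one_dvd n)) (IHmono (X0_ih (N := N) 1) (one_dvd n))
      hv ha c).1
  rw [val X Y f g hX hY hf hg p hp, val X' Y' f' g' hX' hY' hf' hg' q hq]
  constructor
  · refine v.map_sum_le fun c _ => ?_
    rw [map_mul, hκ, one_mul]
    exact (hval' c).1
  · rw [← Finset.sum_sub_distrib]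
    refine v.map_sum_lt hΩ fun c _ => ?_
    rw [← mul_sub, map_mul, hκ, one_mul]
    exact (hval' c).2 (hlt c)

end Pool.Agent.H98.B
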