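import Pool.Agent.H98.B.Base2
import Pool.Graph.R_pool_sql_team_seeded_35f281b4.K7.H70.TW.I

/-!
# The L-series of the twists
-/

set_option autoImplicit false
set_option linter.unusedSectionVars false
set_option linter.unusedVariables false

open Complex NumberField IsDedekindDomain Filter Topology
open scoped PeriodPair nonZeroDivisors

namespace Pool.Agent.H98.B

open Pool.Agent.K7.H56
open Pool.Agent.K7.H56.P
open Pool.Agent.R430
open Pool.Agent.Y696 Pool.Agent.W192.HK Pool.Agent.TH936.CM H667R3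
open Pool.Agent.TH936.PU
open Pool.Agent.Y688 (NI HL euler v_sub_one v_root v_RR dn dn_surj)
open Pool.Agent.K7.H70.AS
open Pool.Agent.K7.H70.SM
open Pool.Agent.K7.H56.M
open Pool.Agent.W189.NF (aV eV)
open Pool.Agent.K7.H70.SE (GoodG hbd)
open Pool.Agent.K7.H70.TW (Sq Ed ep loc hbd_mul sg_apply)

section lam
variable {N : Type} [Field N] [NumberField N] {n : ℕ} {X : Ideal (𝓞 N) → ℂ}
  {ι : Pool.Agent.Y688.RR →+* 𝓞 N} {f : ℂ → ℂ}

lemma Lam_prodh (hX : IH n X) (hr : ∀ I, (starRingEnd ℂ) (X I) = X I) (h : VV ι X f) {s : ℂ}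
    (hs : 3 / 2 < s.re) :
    HasProd (fun v : HeightOneSpectrum (𝓞 N) => (lfI ι X s v)⁻¹) (Lam f s) := by
  have hs' : 3 / 2 < ((starRingEnd ℂ) s).re := by rwa [Complex.conj_re]
  have h1 := VV_prodh hX h hs
  have h2 := (VV_prodh hX h hs').map (starRingEnd ℂ) Complex.continuous_conj
  have h3 := h1.mul h2
  refine h3.congr_fun fun v => ?_
  have hr' : (fun I => (starRingEnd ℂ) (X I)) = X := funext hr
  unfold lfI
  rw [hr', mul_inv]
  simp only [Function.comp_apply]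
  rw [map_inv₀, map_sub, map_one]

/-- the local factor in terms of the numbers of points -/
lemma lfI_aV (h3 : Add3 N) (s : ℂ) (v : HeightOneSpectrum (𝓞 N)) :
    lfI ι X s v = 1 - X v.asIdeal * (aV (E0 N) v : ℂ) * (nK v : ℂ) ^ (-s) +
      X v.asIdeal ^ 2 * (eV (E0 N) v : ℂ) * ((nK v : ℂ) ^ (-s)) ^ 2 := by
  unfold lfI
  rw [gI_conj]
  unfold gI
  have hN : Ideal.absNorm v.asIdeal = nK v := rfl
  rw [hN]
  by_cases h : (3 : 𝓞 N) ∈ v.asIdeal
  · obtain ⟨h1, h2⟩ := h3 v h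
    rw [PN_three h, h1, h2]
    simp
  · obtain ⟨f, hf0, hf⟩ := deg_base (iE ι) v
    obtain ⟨h1, h2, h4⟩ := aV_val (ι := iE ι) v (by rw [map_ofNat]; exact h) hf
    have h5 := PN_prime (ι := ι) v hf
    obtain ⟨h6, h7⟩ := PN_good (ι := ι) h
    rw [h1, h2, ← h6, h5, map_pow, Complex.conj_conj]
    ring

end lam

section tw
variable {k F : Type} [Field k] [NumberField k] [Field F] [NumberField F] [Algebra k F]
  [IsGalois k F] {d : k} {θ : F} {ι : Pool.Agent.Y688.RR →+* 𝓞 k} {X : Gal(F/k) →* ℂˣ}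

/-- inertia at all the primes over the same prime -/
lemma inert_all {w w' : HeightOneSpectrum (𝓞 F)} (hww : dn k w = dn k w') (h : ¬ Rm k w) :
    ¬ Rm k w' := by
  rintro ⟨σ, hσ, hin⟩
  apply hσ
  have hlo : w.asIdeal.LiesOver (dn k w).asIdeal := ⟨rfl⟩
  have hlo' : w'.asIdeal.LiesOver (dn k w).asIdeal := ⟨by rw [hww]; rfl⟩
  have e1 : (dn k w).asIdeal.ramificationIdx' w.asIdeal = 1 := ram_one hlo fun τ hτ => not_rm h τ hτ
  rw [Ideal.ramificationIdx'_eq_ramificationIdx _ _ (dn k w).ne_bot] at e1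
  have e2 := Ideal.ramificationIdxIn_eq_ramificationIdx (dn k w).asIdeal w.asIdeal Gal(F/k)
  have e3 := Ideal.ramificationIdxIn_eq_ramificationIdx (dn k w).asIdeal w'.asIdeal Gal(F/k)
  rw [e1] at e2
  rw [e2] at e3
  exact unr_g w' (Algebra.isUnramifiedAt_iff_of_isDedekindDomain.2 e3.symm) hin

/-- **the L-series of the twist** -/
theorem tw_big (h : Sq d θ) (hK : GoodG k) (hNG : NG k) (h3 : Add3 k) (hU : Unr2 F)
    (hX : ∀ σ, σ ≠ 1 → X σ = -1) {n : ℕ} (hi : IH n (fun I => X0 3 I * XR X I)) {g : ℂ → ℂ}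
    (hg : VV ι (fun I => X0 3 I * XR X I) g) :
    (∀ v : HeightOneSpectrum (𝓞 k), HBd (aV (Ed d) v) (eV (Ed d) v) (nK v)) ∧
    ∀ s : ℂ, 3 / 2 < s.re → LSeriesSummable ((fun n : ℤ => (n : ℂ)) ∘ (Ed d).LFunction) s ∧
      Lam g s = (Ed d).LSeries s := by
  classical
  choose w hw hfr using fun v : HeightOneSpectrum (𝓞 k) => frP_spec (K := F) v
  have hloc : ∀ v : HeightOneSpectrum (𝓞 k), ∃ ε : ℤ, (ε = 0 ∨ ε ^ 2 = 1) ∧
      XR X v.asIdeal = (ε : ℂ) ∧ aV (Ed d) v = ε * aV (E0 k) v ∧ eV (Ed d) v = ε ^ 2 * eV (E0 k) v := by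
    intro v
    have hund : und0 k (w v) = v := hw v
    obtain ⟨ε, h1, h2, h3', h4⟩ := loc h hK hNG hU (w := w v) (φ := frP F v.asIdeal) (by
      intro x
      have e : Nat.card (𝓞 k ⧸ (w v).asIdeal.under (𝓞 k)) = Ideal.absNorm v.asIdeal := by
        have : (w v).asIdeal.under (𝓞 k) = v.asIdeal := congrArg HeightOneSpectrum.asIdeal (hw v)
        rw [this, Ideal.absNorm_apply, Submodule.cardQuot_apply]
      rw [e]
      exact hfr v x)
    rw [hund] at h3' h4
    refine ⟨ε, h1, ?_, h3', h4⟩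
    rw [← h2]
    unfold ep
    by_cases hI : (w v).asIdeal.inertia Gal(F/k) = ⊥
    · rw [if_pos hI, sg_apply]
      have hnr : ¬ Rm k (w v) := by
        rintro ⟨σ, hσ, hin⟩
        apply hσ
        have h5 : σ ∈ (w v).asIdeal.inertia Gal(F/k) := hin
        rw [hI] at h5
        exact h5
      have hnS : v ∉ SR k F := by
        rintro ⟨w', hw', hwv⟩
        exact inert_all (by rw [hw v, hwv]) hnr hw'
      rw [XR_neg (fun h => hnS (SR_iff.1 h)), XX_prime _ (Ideal.prime_of_isPrime v.ne_bot v.isPrime)]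
      split_ifs with h6
      · rw [h6, map_one, Units.val_one]
      · rw [hX _ h6, Units.val_neg, Units.val_one]
    · rw [if_neg hI]
      have hr : Rm k (w v) := by
        obtain ⟨⟨σ, hσ⟩, hne⟩ := Subgroup.ne_bot_iff_exists_ne_one.1 hI
        exact ⟨σ, fun h => hne (Subtype.ext h), hσ⟩
      exact XR_pos (SR_iff.2 ⟨w v, hr, hw v⟩)
  choose ε h1 h2 h3' h4 using hloc
  have hbd' : ∀ v : HeightOneSpectrum (𝓞 k), HBd (aV (Ed d) v) (eV (Ed d) v) (nK v) := by
    intro v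
    rw [h3' v, h4 v]
    exact hbd_mul (hbd hK v) (h1 v)
  refine ⟨hbd', fun s hs => ?_⟩
  have h5 := LSeries_hasProd' (Ed d) hbd' hs
  refine ⟨h5.1, ?_⟩
  have hreal : ∀ I : Ideal (𝓞 k), (starRingEnd ℂ) (X0 3 I * XR X I) = X0 3 I * XR X I := by
    intro I
    have hX2 : ∀ σ, X σ ^ 2 = 1 := by
      intro σ
      by_cases hσ : σ = 1
      · rw [hσ, map_one, one_pow]
      · rw [hX σ hσ]
        exact neg_one_sq
    rcases sgn_XR hX2 I with h | h
    · simp only at h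
      rw [h, map_zero]
    · rcases h with h | h
      · simp only at h
        rw [h, map_one]
      · simp only at h
        rw [h, map_neg, map_one]
  have h6 := Lam_prodh hi hreal hg hs
  refine h6.unique ?_
  refine h5.2.congr_fun fun v => ?_
  rw [lfI_aV h3]
  congr 1
  by_cases h3v : (3 : 𝓞 k) ∈ v.asIdeal
  · obtain ⟨a1, a2⟩ := h3 v h3v
    rw [h3' v, h4 v, a1, a2]
    simp
  · have h31 : X0 3 v.asIdeal = 1 := X0_pos (by
      rw [prime_cop_iff]
      exact_mod_cast h3v)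
    rw [h31, one_mul, h2 v, h3' v, h4 v]
    push_cast
    rfl

end tw

end Pool.Agent.H98.B
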