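import Pool.Agent.H98.B.Sect

/-!
# The derivative at the centre
-/

set_option autoImplicit false
set_option linter.unusedSectionVars false
set_option linter.unusedVariables false

open Complex MeasureTheory Set

namespace Pool.Agent.H98.B

open Pool.Agent.W192.HK Pool.Agent.TH936.AC Pool.Agent.TH936.AD
open Pool.Agent.Y696
open Pool.Agent.R430 (psi_norm)

lemma th5_zero {I : Ideal eis} (h : Ideal.absNorm I % 3 ≠ 1) : th5 I = 0 := by
  unfold th5
  rw [(psi_zero_iff I).2 (fun hc => h (Pool.Agent.K7.H73.NM.cop_mod hc)), zero_mul]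

lemma th5_le (I : Ideal eis) : ‖th5 I‖ ≤ Real.sqrt (Ideal.absNorm I : ℕ) := by
  by_cases h : IsCoprime I (sp 3)
  · unfold th5
    have h1 := psi_norm h
    have h2 : ‖psi I‖ ^ 2 = ((Ideal.absNorm I : ℕ) : ℝ) := by
      rw [Complex.mul_conj, Complex.normSq_eq_norm_sq] at h1
      exact_mod_cast h1
    have h3 : ‖c5 I‖ ≤ 1 := by
      rcases c5_val I with h | h | h <;> rw [h] <;> simp
    rw [norm_mul]
    calc ‖psi I‖ * ‖c5 I‖ ≤ ‖psi I‖ * 1 := mul_le_mul_of_nonneg_left h3 (norm_nonneg _)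
      _ = Real.sqrt (‖psi I‖ ^ 2) := by rw [Real.sqrt_sq (norm_nonneg _), mul_one]
      _ = _ := by rw [h2]
  · unfold th5
    rw [(psi_zero_iff I).2 h, zero_mul, norm_zero]
    exact Real.sqrt_nonneg _

/-- the term of the sum -/
noncomputable def tm (c : ℝ) (I : Ideal eis) : ℂ :=
  th5 I / ((Ideal.absNorm I : ℕ) : ℂ) * (Vd 1 (c * (Ideal.absNorm I : ℕ)) : ℂ)

section term
variable {c : ℝ} (hc : 0 < c)

include hc in
lemma tm_le {I : Ideal eis} (h4 : 4 ≤ Ideal.absNorm I) :
    ‖tm c I‖ ≤ Real.exp (-c) ^ (Ideal.absNorm I) / (2 * c * (Ideal.absNorm I : ℕ)) := by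
  set N := Ideal.absNorm I with hN
  have hN4 : (4 : ℝ) ≤ (N : ℝ) := by exact_mod_cast h4
  have hN0 : (0 : ℝ) < N := by linarith
  have h1 : ‖th5 I‖ ≤ (N : ℝ) / 2 := by
    refine (th5_le I).trans ?_
    rw [Real.sqrt_le_left (by positivity)]
    rw [← hN]
    nlinarith
  have hcN : 0 < c * N := mul_pos hc hN0
  have h2 : Vd 1 (c * N) ≤ Real.exp (-c) ^ N / (c * N) := by
    refine (Vd_le hcN).trans ?_
    rw [← Real.exp_nat_mul]
    have : -(c * (N : ℝ)) = (N : ℝ) * -c := by ring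
    rw [this]
  have h3 := Vd_nonneg hcN
  unfold tm
  rw [← hN, norm_mul, norm_div, Complex.norm_natCast, Complex.norm_real, Real.norm_of_nonneg h3]
  calc ‖th5 I‖ / N * Vd 1 (c * N) ≤ (N / 2) / N * (Real.exp (-c) ^ N / (c * N)) := by
        gcongr
    _ = _ := by
        field_simp

variable {q : ℝ} (hq : Real.exp (-c) = q)

include hc hq in
lemma tm_BB (p : ℕ × ℕ) (hp : p ≠ (0, 0)) :
    ‖tm c (sp (gp p))‖ ≤ BB q (q ^ 4 / (8 * c)) (1 / (14 * c)) p := by
  have hq0 : 0 < q := by rw [← hq]; exact Real.exp_pos _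
  have hq1 : q < 1 := by
    rw [← hq]
    rw [← Real.exp_zero]
    exact Real.exp_lt_exp.2 (by linarith)
  have big : ∀ (n m k : ℕ), 7 ≤ k → k ≤ (m + 1) ^ 2 + (m + 1) * n + n ^ 2 →
      ‖tm c (sp (gp (n, m)))‖ ≤ 1 / (14 * c) * q ^ k := by
    intro n m k hk7 hk
    have h7 : 7 ≤ Ideal.absNorm (sp (gp (n, m)) : Ideal eis) := by
      rw [nrm_gp]
      omega
    have h1 := tm_le hc (I := sp (gp (n, m))) (by omega)
    refine h1.trans ?_
    rw [hq]
    set N := Ideal.absNorm (sp (gp (n, m)) : Ideal eis) with hN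
    have hkN : k ≤ N := by
      rw [hN, nrm_gp]
      exact hk
    have hN7 : (7 : ℝ) ≤ N := by exact_mod_cast h7
    have h2 : q ^ N ≤ q ^ k := pow_le_pow_of_le_one hq0.le hq1.le hkN
    rw [div_eq_inv_mul]
    refine mul_le_mul ?_ h2 (pow_nonneg hq0.le _) (by positivity)
    rw [one_div]
    exact inv_anti₀ (by positivity) (by nlinarith)
  obtain ⟨n, m⟩ := p
  match n, m with
  | 0, 0 => exact absurd rfl hp
  | 0, 1 =>
    have hN : Ideal.absNorm (sp (gp (0, 1)) : Ideal eis) = 4 := by rw [nrm_gp]; norm_num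
    have h1 := tm_le hc (I := sp (gp (0, 1))) (by rw [hN])
    refine h1.trans (le_of_eq ?_)
    rw [hN, hq]
    show q ^ 4 / (2 * c * ((4 : ℕ) : ℝ)) = q ^ 4 / (8 * c)
    push_cast
    ring
  | 0, m + 2 =>
    have hm := Nat.le_mul_self m
    refine (big 0 (m + 2) (9 + 7 * m) (by omega) (by nlinarith)).trans (le_of_eq ?_)
    show _ = 1 / (14 * c) * q ^ 9 * (q ^ 7) ^ m
    rw [pow_add, pow_mul]
    ring
  | 1, 0 =>
    have hN : Ideal.absNorm (sp (gp (1, 0)) : Ideal eis) = 3 := by rw [nrm_gp]; norm_num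
    have h0 : tm c (sp (gp (1, 0))) = 0 := by
      unfold tm
      rw [th5_zero (by rw [hN]; norm_num), zero_div, zero_mul]
    rw [h0, norm_zero]
    exact le_rfl
  | 1, m + 1 =>
    have hm := Nat.le_mul_self m
    refine (big 1 (m + 1) (7 + 6 * m) (by omega) (by nlinarith)).trans (le_of_eq ?_)
    show _ = 1 / (14 * c) * q ^ 7 * (q ^ 6) ^ m
    rw [pow_add, pow_mul]
    ring
  | n + 2, m =>
    have hm := Nat.le_mul_self m
    have hn := Nat.le_mul_self n
    refine (big (n + 2) m (7 + 6 * n + 5 * m) (by omega) (by nlinarith)).trans (le_of_eq ?_)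
    show _ = 1 / (14 * c) * q ^ 7 * (q ^ 6) ^ n * (q ^ 5) ^ m
    rw [pow_add, pow_add, pow_mul, pow_mul]
    ring

lemma tm_top : tm c ⊤ = (Vd 1 c : ℂ) := by
  unfold tm th5
  have h1 : psi ⊤ = 1 := by
    have : (⊤ : Ideal eis) = sp 1 := Ideal.span_singleton_one.symm
    rw [this, psi_prim (by rw [sub_self]; exact Ideal.zero_mem _)]
    rfl
  have h2 : c5 ⊤ = 1 := by
    unfold c5
    rw [Ideal.absNorm_top]
    have : s5 ((1 : ℕ) : ZMod 5) = 1 := by decide
    rw [this]
    norm_num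
  rw [h1, h2, Ideal.absNorm_top]
  simp

lemma tm_bot : tm c ⊥ = 0 := by
  unfold tm
  rw [th5_zero (by rw [Ideal.absNorm_bot]; norm_num), zero_div, zero_mul]

include hc hq in
/-- the rest of the sum -/
theorem rest_le : Summable (tm c) ∧ ‖∑' I : Ideal eis, if I = ⊤ then 0 else tm c I‖ ≤
    q ^ 4 / (8 * c) + 1 / (14 * c) * q ^ 9 * (1 - q ^ 7)⁻¹ + 1 / (14 * c) * q ^ 7 * (1 - q ^ 6)⁻¹ +
      1 / (14 * c) * q ^ 7 * (1 - q ^ 5)⁻¹ * (1 - q ^ 6)⁻¹ := by
  classical
  have hq0 : 0 < q := by rw [← hq]; exact Real.exp_pos _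
  have hq1 : q < 1 := by
    rw [← hq]
    rw [← Real.exp_zero]
    exact Real.exp_lt_exp.2 (by linarith)
  obtain ⟨hs, ht⟩ := BB_sum hq0.le hq1 (w4 := q ^ 4 / (8 * c)) (w7 := 1 / (14 * c)) (by positivity)
    (by positivity)
  have hnn := BB_nonneg hq0.le (w4 := q ^ 4 / (8 * c)) (w7 := 1 / (14 * c)) (by positivity)
    (by positivity)
  set B := BB q (q ^ 4 / (8 * c)) (1 / (14 * c)) with hB
  choose s hsp using fun I : {I : Ideal eis // I ≠ ⊥} => exists_gp I.2
  have hinj : Function.Injective s := by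
    intro I J hIJ
    apply Subtype.ext
    rw [hsp I, hsp J, hIJ]
  set g : Ideal eis → ℂ := fun I => if I = ⊤ then 0 else tm c I with hg
  have hle : ∀ I : {I : Ideal eis // I ≠ ⊥}, ‖g I.1‖ ≤ B (s I) := by
    intro I
    by_cases hI : I.1 = ⊤
    · have : g I.1 = 0 := if_pos hI
      rw [this, norm_zero]
      exact hnn _
    · have h1 : g I.1 = tm c I.1 := if_neg hI
      rw [h1]
      have h2 : s I ≠ (0, 0) := by
        intro h0
        apply hI
        have h3 := hsp I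
        rw [h0] at h3
        rw [h3]
        have : Ideal.absNorm (sp (gp (0, 0)) : Ideal eis) = 1 := by rw [nrm_gp]; norm_num
        exact Ideal.absNorm_eq_one_iff.1 this
      have h4 := tm_BB hc hq (s I) h2
      rw [← hsp I] at h4
      exact h4
  have hsB : Summable fun I : {I : Ideal eis // I ≠ ⊥} => B (s I) := hs.comp_injective hinj
  have hsub : Summable fun I : {I : Ideal eis // I ≠ ⊥} => ‖g I.1‖ :=
    Summable.of_nonneg_of_le (fun _ => norm_nonneg _) hle hsB
  have hsupp : Function.support g ⊆ {I | I ≠ ⊥} := by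
    intro I hI
    rw [Function.mem_support] at hI
    rintro rfl
    apply hI
    show (if (⊥ : Ideal eis) = ⊤ then 0 else tm c ⊥) = 0
    rw [if_neg bot_ne_top, tm_bot]
  have hgs : Summable g := by
    have h1 : Summable fun I : {I : Ideal eis // I ≠ ⊥} => g I.1 := hsub.of_norm
    have h2 : Summable (Set.indicator {I : Ideal eis | I ≠ ⊥} g) := summable_subtype_iff_indicator.1 h1
    rwa [Set.indicator_eq_self.2 hsupp] at h2
  have hbound : ‖∑' I, g I‖ ≤ ∑' p, B p := by
    have e1 : ∑' I, g I = ∑' I : {I : Ideal eis // I ≠ ⊥}, g I.1 :=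
      (tsum_subtype_eq_of_support_subset hsupp).symm
    rw [e1]
    refine (norm_tsum_le_tsum_norm hsub).trans ?_
    refine (hsub.tsum_le_tsum hle hsB).trans ?_
    exact tsum_comp_le_tsum_of_inj hs hnn hinj
  refine ⟨?_, ?_⟩
  · have h3 : Summable (fun I : Ideal eis => g I + if I = ⊤ then tm c ⊤ else 0) :=
      hgs.add (summable_of_ne_finset_zero (s := {⊤}) fun I hI => by
        rw [Finset.mem_singleton] at hI
        rw [if_neg hI])
    refine h3.congr fun I => ?_
    by_cases hI : I = ⊤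
    · subst hI
      simp [hg]
    · simp [hg, hI]
  · rw [← ht]
    exact hbound

end term

end Pool.Agent.H98.B
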