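import Pool.Agent.H98.B.Num

/-!
# The derivative at the centre is not zero
-/

set_option autoImplicit false
set_option linter.unusedSectionVars false
set_option linter.unusedVariables false

open Complex MeasureTheory Set

namespace Pool.Agent.H98.B

open Pool.Agent.W192.HK Pool.Agent.TH936.AC Pool.Agent.TH936.AD
open Pool.Agent.Y696

lemma rest_num {c q : ℝ} (h1 : 0.24 ≤ c) (hq0 : 0 < q) (hq : q ≤ 0.789) :
    q ^ 4 / (8 * c) + 1 / (14 * c) * q ^ 9 * (1 - q ^ 7)⁻¹ + 1 / (14 * c) * q ^ 7 * (1 - q ^ 6)⁻¹ +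
      1 / (14 * c) * q ^ 7 * (1 - q ^ 5)⁻¹ * (1 - q ^ 6)⁻¹ ≤ 0.5 := by
  have hc : 0 < c := by linarith
  have p4 : q ^ 4 ≤ 0.3876 := (pow_le_pow_left₀ hq0.le hq 4).trans (by norm_num)
  have p5 : q ^ 5 ≤ 0.3058 := (pow_le_pow_left₀ hq0.le hq 5).trans (by norm_num)
  have p6 : q ^ 6 ≤ 0.2413 := (pow_le_pow_left₀ hq0.le hq 6).trans (by norm_num)
  have p7 : q ^ 7 ≤ 0.1904 := (pow_le_pow_left₀ hq0.le hq 7).trans (by norm_num)
  have p9 : q ^ 9 ≤ 0.1186 := (pow_le_pow_left₀ hq0.le hq 9).trans (by norm_num)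
  have i5 : (1 - q ^ 5)⁻¹ ≤ 1.4406 := by
    refine (inv_anti₀ (by norm_num) (show (0.6942 : ℝ) ≤ 1 - q ^ 5 by linarith)).trans ?_
    norm_num
  have i6 : (1 - q ^ 6)⁻¹ ≤ 1.3181 := by
    refine (inv_anti₀ (by norm_num) (show (0.7587 : ℝ) ≤ 1 - q ^ 6 by linarith)).trans ?_
    norm_num
  have i7 : (1 - q ^ 7)⁻¹ ≤ 1.2352 := by
    refine (inv_anti₀ (by norm_num) (show (0.8096 : ℝ) ≤ 1 - q ^ 7 by linarith)).trans ?_
    norm_num
  have j5 : 0 ≤ (1 - q ^ 5)⁻¹ := inv_nonneg.2 (by linarith)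
  have j6 : 0 ≤ (1 - q ^ 6)⁻¹ := inv_nonneg.2 (by linarith)
  have j7 : 0 ≤ (1 - q ^ 7)⁻¹ := inv_nonneg.2 (by linarith)
  have w4 : q ^ 4 / (8 * c) ≤ 0.2019 := by
    rw [div_le_iff₀ (by positivity)]
    nlinarith
  have w7 : 1 / (14 * c) ≤ 0.2977 := by
    rw [div_le_iff₀ (by positivity)]
    nlinarith
  have w70 : 0 ≤ 1 / (14 * c) := by positivity
  have a1 : 1 / (14 * c) * q ^ 9 * (1 - q ^ 7)⁻¹ ≤ 0.2977 * 0.1186 * 1.2352 := by gcongr
  have a2 : 1 / (14 * c) * q ^ 7 * (1 - q ^ 6)⁻¹ ≤ 0.2977 * 0.1904 * 1.3181 := by gcongr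
  have a3 : 1 / (14 * c) * q ^ 7 * (1 - q ^ 5)⁻¹ * (1 - q ^ 6)⁻¹ ≤ 0.2977 * 0.1904 * 1.4406 * 1.3181 := by
    gcongr
  refine (add_le_add (add_le_add (add_le_add w4 a1) a2) a3).trans ?_
  norm_num

theorem tm_ne {c : ℝ} (h1 : 0.24 ≤ c) (h2 : c ≤ 0.25) : ∑' I : Ideal eis, tm c I ≠ 0 := by
  classical
  have hc : 0 < c := by linarith
  have hq : Real.exp (-c) ≤ 0.789 := by
    have h3 := Real.quadratic_le_exp_of_nonneg hc.le
    have h4 : (1.2688 : ℝ) ≤ Real.exp c := by nlinarith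
    rw [Real.exp_neg]
    refine (inv_anti₀ (by norm_num) h4).trans ?_
    norm_num
  obtain ⟨hs, hb⟩ := rest_le hc (q := Real.exp (-c)) rfl
  have hn := rest_num h1 (Real.exp_pos _) hq
  have hm : (0.62 : ℝ) ≤ Vd 1 c := by
    have h3 := Vd_ge hc (by linarith)
    have h4 : Real.log c ≤ Real.log 0.25 := Real.log_le_log hc h2
    have h5 : Real.log 0.25 = -(2 * Real.log 2) := by
      have : (0.25 : ℝ) = (2 ^ 2)⁻¹ := by norm_num
      rw [this, Real.log_inv, Real.log_pow]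
      push_cast
      ring
    have h6 := Real.log_two_gt_d9
    rw [h5] at h4
    linarith
  intro h0
  have e := hs.tsum_eq_add_tsum_ite ⊤
  rw [h0, tm_top] at e
  have h7 : (Vd 1 c : ℂ) = -∑' I : Ideal eis, if I = ⊤ then 0 else tm c I := by
    linear_combination -e
  have h8 : ‖(Vd 1 c : ℂ)‖ = Vd 1 c := by
    rw [Complex.norm_real, Real.norm_of_nonneg (by linarith)]
  have h9 : Vd 1 c ≤ 0.5 := by
    rw [← h8, h7, norm_neg]
    exact hb.trans hn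
  linarith

lemma nm_Q : nm (sp (3 : eis) * sp ((5 : ℕ) : eis)) = 225 := by
  have hb := hbasic eis om qr
  rw [hb.2.2.2.1, hb.2.2.2.2.1, hb.2.2.2.2.1]
  have h3 : ((3 : eis) : ℂ) = 3 := rfl
  have h5 : (((5 : ℕ) : eis) : ℂ) = 5 := by
    push_cast
    rfl
  rw [h3, h5, normSq_three]
  have : Complex.normSq 5 = 25 := by norm_num [Complex.normSq_apply]
  rw [this]
  norm_num

lemma om_im' : om.im = Real.sqrt 3 / 2 := rfl

/-- **the sum of the formula for the derivative** -/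
theorem sum_ne : ∑' I : Ideal eis, th5 I / (nm I : ℂ) ^ 1 *
    (Vd 1 (nm I / (om.im * Real.sqrt (nm (sp (3 : eis) * sp ((5 : ℕ) : eis))) / Real.pi)) : ℂ) ≠ 0 := by
  set A : ℝ := om.im * Real.sqrt (nm (sp (3 : eis) * sp ((5 : ℕ) : eis))) / Real.pi with hA
  have hsq : Real.sqrt (nm (sp (3 : eis) * sp ((5 : ℕ) : eis))) = 15 := by
    rw [nm_Q]
    have : (225 : ℝ) = 15 ^ 2 := by norm_num
    rw [this]
    exact Real.sqrt_sq (by norm_num)
  have hs3 : 1.732 ≤ Real.sqrt 3 := Real.le_sqrt_of_sq_le (by norm_num)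
  have hs3' : Real.sqrt 3 ≤ 1.7321 := by
    rw [Real.sqrt_le_left (by norm_num)]
    norm_num
  have hp1 := Real.pi_gt_d4
  have hp2 := Real.pi_lt_d4
  have hpi : 0 < Real.pi := Real.pi_pos
  have hAe : A = Real.sqrt 3 / 2 * 15 / Real.pi := by
    rw [hA, hsq, om_im']
  have hA0 : 0 < A := by
    rw [hAe]
    positivity
  have h1 : 0.24 ≤ A⁻¹ := by
    rw [hAe, inv_div, le_div_iff₀ (by positivity)]
    nlinarith
  have h2 : A⁻¹ ≤ 0.25 := by
    rw [hAe, inv_div, div_le_iff₀ (by positivity)]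
    nlinarith
  have h3 := tm_ne h1 h2
  have h4 : (fun I : Ideal eis => th5 I / (nm I : ℂ) ^ 1 * (Vd 1 (nm I / A) : ℂ)) = tm A⁻¹ := by
    funext I
    unfold tm
    rw [pow_one, ← abs_nm, div_eq_inv_mul ((Ideal.absNorm I : ℕ) : ℝ) A]
    push_cast
    rfl
  rw [h4]
  exact h3

end Pool.Agent.H98.B
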