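import Pool.Agent.H98.B.Vd

/-!
# The sum over the ideals
-/

set_option autoImplicit false
set_option linter.unusedSectionVars false
set_option linter.unusedVariables false

open Complex MeasureTheory Set

namespace Pool.Agent.H98.B

open Pool.Agent.W192.HK Pool.Agent.TH936.AC Pool.Agent.TH936.AD
open Pool.Agent.Y696

/-- the generators in the sector; the first entry is the coefficient of the sixth root of unity -/
noncomputable def gp (p : ℕ × ℕ) : eis := ((((p.2 : ℤ) + 1 + p.1 : ℤ)) : eis) + ((p.1 : ℤ) : eis) * omr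

lemma nrm_gp (n m : ℕ) : Ideal.absNorm (sp (gp (n, m)) : Ideal eis) =
    (m + 1) ^ 2 + (m + 1) * n + n ^ 2 := by
  have h := nrmA ((m : ℤ) + 1 + n) n
  have h2 : ((Ideal.absNorm (sp (gp (n, m)) : Ideal eis) : ℕ) : ℤ) =
      (((m + 1) ^ 2 + (m + 1) * n + n ^ 2 : ℕ) : ℤ) := by
    unfold gp
    rw [h]
    push_cast
    ring
  exact_mod_cast h2

lemma sp_unit {α u : eis} (hu : IsUnit u) : (sp (α * u) : Ideal eis) = sp α :=
  Ideal.span_singleton_mul_right_unit hu α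

lemma unit_om : IsUnit omr := IsUnit.of_mul_eq_one (omr ^ 2) (by
  have := omr_cube
  linear_combination this)

/-- every nonzero ideal has a generator in the sector -/
lemma exists_gp {I : Ideal eis} (hI : I ≠ ⊥) : ∃ p : ℕ × ℕ, I = sp (gp p) := by
  obtain ⟨α, rfl⟩ : ∃ α : eis, I = sp α :=
    ⟨_, (Submodule.IsPrincipal.span_singleton_generator I).symm⟩
  obtain ⟨x, y, rfl⟩ := eis_rep α
  have hne : ¬ (x = 0 ∧ y = 0) := by
    rintro ⟨rfl, rfl⟩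
    apply hI
    simp
  -- in the basis `1, 1 + ω`
  have key : ∀ a b : ℤ, 1 ≤ a → 0 ≤ b → ∀ u : eis, IsUnit u →
      ((x : eis) + y * omr) * u = ((a + b : ℤ) : eis) + (b : eis) * omr →
      ∃ p : ℕ × ℕ, (sp ((x : eis) + y * omr) : Ideal eis) = sp (gp p) := by
    intro a b ha hb u hu h
    refine ⟨(b.toNat, (a - 1).toNat), ?_⟩
    rw [← sp_unit hu, h]
    unfold gp
    have e1 : ((b.toNat : ℕ) : ℤ) = b := Int.toNat_of_nonneg hb
    have e2 : (((a - 1).toNat : ℕ) : ℤ) = a - 1 := Int.toNat_of_nonneg (by omega)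
    simp only [e1, e2]
    have e3 : a - 1 + 1 + b = a + b := by ring
    rw [e3]
  have hu1 : IsUnit (-1 : eis) := isUnit_one.neg
  have ho := unit_om
  have hs := omr_sq
  -- `a = x - y`, `b = y`
  by_cases h1 : 1 ≤ x - y ∧ 0 ≤ y
  · exact key (x - y) y h1.1 h1.2 1 isUnit_one (by push_cast; ring)
  by_cases h2 : 1 ≤ -(x - y) ∧ 0 ≤ -y
  · exact key (-(x - y)) (-y) h2.1 h2.2 (-1) hu1 (by push_cast; ring)
  by_cases h3 : 1 ≤ -y ∧ 0 ≤ x
  · refine key (-y) x h3.1 h3.2 (1 + omr) ?_ ?_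
    · have : (1 + omr : eis) = -(omr ^ 2) := by linear_combination hs
      rw [this]
      exact (ho.pow 2).neg
    · push_cast
      linear_combination (y : eis) * hs
  by_cases h4 : 1 ≤ y ∧ 0 ≤ -x
  · refine key y (-x) h4.1 h4.2 (-(1 + omr)) ?_ ?_
    · have : (1 + omr : eis) = -(omr ^ 2) := by linear_combination hs
      rw [this, neg_neg]
      exact ho.pow 2
    · push_cast
      linear_combination -(y : eis) * hs
  by_cases h5 : 1 ≤ -x ∧ 0 ≤ x - y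
  · refine key (-x) (x - y) h5.1 h5.2 omr ho ?_
    push_cast
    linear_combination (y : eis) * hs
  by_cases h6 : 1 ≤ x ∧ 0 ≤ -(x - y)
  · refine key x (-(x - y)) h6.1 h6.2 (-omr) ho.neg ?_
    push_cast
    linear_combination -(y : eis) * hs
  exfalso
  apply hne
  omega

/-! ### the majorant -/

/-- the majorant -/
noncomputable def BB (q w4 w7 : ℝ) (p : ℕ × ℕ) : ℝ :=
  match p with
  | (0, 0) => 0
  | (0, 1) => w4
  | (0, m + 2) => w7 * q ^ 9 * (q ^ 7) ^ m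
  | (1, 0) => 0
  | (1, m + 1) => w7 * q ^ 7 * (q ^ 6) ^ m
  | (n + 2, m) => w7 * q ^ 7 * (q ^ 6) ^ n * (q ^ 5) ^ m

section major
variable {q w4 w7 : ℝ} (hq0 : 0 ≤ q) (hq1 : q < 1) (h4 : 0 ≤ w4) (h7 : 0 ≤ w7)

include hq0 h4 h7 in
lemma BB_nonneg (p : ℕ × ℕ) : 0 ≤ BB q w4 w7 p := by
  unfold BB
  split <;> positivity

/-- the sums over the rows -/
noncomputable def RR5 (q w4 w7 : ℝ) (n : ℕ) : ℝ :=
  match n with
  | 0 => w4 + w7 * q ^ 9 * (1 - q ^ 7)⁻¹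
  | 1 => w7 * q ^ 7 * (1 - q ^ 6)⁻¹
  | n + 2 => w7 * q ^ 7 * (q ^ 6) ^ n * (1 - q ^ 5)⁻¹

include hq0 hq1 in
lemma row (n : ℕ) : HasSum (fun m => BB q w4 w7 (n, m)) (RR5 q w4 w7 n) := by
  have hp : ∀ k : ℕ, k ≠ 0 → q ^ k < 1 := fun k hk => pow_lt_one₀ hq0 hq1 hk
  match n with
  | 0 =>
    rw [← hasSum_nat_add_iff' 2]
    have h := (hasSum_geometric_of_lt_one (pow_nonneg hq0 7) (hp 7 (by norm_num))).mul_left (w7 * q ^ 9)
    have e : RR5 q w4 w7 0 - ∑ i ∈ Finset.range 2, BB q w4 w7 (0, i) = w7 * q ^ 9 * (1 - q ^ 7)⁻¹ := by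
      rw [Finset.sum_range_succ, Finset.sum_range_one]
      simp only [RR5, BB]
      ring
    rw [e]
    exact h
  | 1 =>
    rw [← hasSum_nat_add_iff' 1]
    have h := (hasSum_geometric_of_lt_one (pow_nonneg hq0 6) (hp 6 (by norm_num))).mul_left (w7 * q ^ 7)
    have e : RR5 q w4 w7 1 - ∑ i ∈ Finset.range 1, BB q w4 w7 (1, i) = w7 * q ^ 7 * (1 - q ^ 6)⁻¹ := by
      rw [Finset.sum_range_one]
      simp only [RR5, BB]
      ring
    rw [e]
    exact h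
  | n + 2 =>
    exact (hasSum_geometric_of_lt_one (pow_nonneg hq0 5) (hp 5 (by norm_num))).mul_left
      (w7 * q ^ 7 * (q ^ 6) ^ n)

include hq0 hq1 in
lemma rows : HasSum (RR5 q w4 w7) (w4 + w7 * q ^ 9 * (1 - q ^ 7)⁻¹ + w7 * q ^ 7 * (1 - q ^ 6)⁻¹ +
    w7 * q ^ 7 * (1 - q ^ 5)⁻¹ * (1 - q ^ 6)⁻¹) := by
  rw [← hasSum_nat_add_iff' 2]
  have h := (hasSum_geometric_of_lt_one (pow_nonneg hq0 6) (pow_lt_one₀ hq0 hq1 (by norm_num))).mul_left
    (w7 * q ^ 7 * (1 - q ^ 5)⁻¹)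
  have e : w4 + w7 * q ^ 9 * (1 - q ^ 7)⁻¹ + w7 * q ^ 7 * (1 - q ^ 6)⁻¹ +
      w7 * q ^ 7 * (1 - q ^ 5)⁻¹ * (1 - q ^ 6)⁻¹ - ∑ i ∈ Finset.range 2, RR5 q w4 w7 i =
      w7 * q ^ 7 * (1 - q ^ 5)⁻¹ * (1 - q ^ 6)⁻¹ := by
    rw [Finset.sum_range_succ, Finset.sum_range_one]
    simp only [RR5]
    ring
  rw [e]
  refine h.congr_fun fun n => ?_
  simp only [RR5]
  ring

include hq0 hq1 h4 h7 in
lemma BB_sum : Summable (BB q w4 w7) ∧ ∑' p, BB q w4 w7 p =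
    w4 + w7 * q ^ 9 * (1 - q ^ 7)⁻¹ + w7 * q ^ 7 * (1 - q ^ 6)⁻¹ +
      w7 * q ^ 7 * (1 - q ^ 5)⁻¹ * (1 - q ^ 6)⁻¹ := by
  have hs : Summable (BB q w4 w7) := by
    rw [summable_prod_of_nonneg (fun p => BB_nonneg hq0 h4 h7 p)]
    refine ⟨fun n => (row hq0 hq1 n).summable, ?_⟩
    have : (fun n => ∑' m, BB q w4 w7 (n, m)) = RR5 q w4 w7 := by
      funext n
      exact (row hq0 hq1 n).tsum_eq
    rw [this]
    exact (rows hq0 hq1).summable
  refine ⟨hs, ?_⟩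
  have h := hs.hasSum.prod_fiberwise (fun n => row hq0 hq1 n)
  exact h.unique (rows hq0 hq1)

end major

end Pool.Agent.H98.B
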