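import Pool.Agent.H98.B.Fib

/-!
# One step of the tower
-/

set_option autoImplicit false
set_option linter.unusedSectionVars false
set_option linter.unusedVariables false

open Complex NumberField IsDedekindDomain Filter Topology
open scoped PeriodPair nonZeroDivisors

namespace Pool.Agent.H98.B

open Pool.Agent.K7.H56
open Pool.Agent.K7.H56.P
open Pool.Agent.R430
open Pool.Agent.Y696 Pool.Agent.W192.HK Pool.Agent.TH936.CM H667R3
open Pool.Agent.Y688 (NI HL euler v_sub_one v_root v_RR dn dn_surj)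
open Pool.Agent.K7.H70.AS (mero_eq2 gI_diff hX1 ram_mul VV_prod gal2')
open Pool.Agent.K7.H56.M
open UniqueFactorizationMonoid (normalizedFactors)

section
variable {N K : Type} [Field N] [NumberField N] [Field K] [NumberField K] [Algebra N K]
  [IsGalois N K] {ι : Pool.Agent.Y688.RR →+* 𝓞 N} {X : Gal(K/N) →* ℂˣ} {n : ℕ}

/-- the factorization of the `L`-function near one -/
theorem L_prod_ev (h2 : Module.finrank N K = 2) (hX : ∀ σ, σ ≠ 1 → X σ = -1)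
    (hodd : ∀ w : HeightOneSpectrum (𝓞 K), Rm N w → (2 : 𝓞 N) ∉ (dn N w).asIdeal)
    {F f g : ℂ → ℂ} (hF : VV ((algebraMap (𝓞 N) (𝓞 K)).comp ι) (X0 1) F) (hf : VV ι (X0 1) f)
    (hig : IH n (fun I => X0 3 I * XR X I)) (hg : VV ι (fun I => X0 3 I * XR X I) g) :
    F =ᶠ[𝓝 1] fun s => f s * g s := by
  classical
  refine mero_ev (g := fun s => f s * g s) hF.mero (fun z hz => (hf.mero z hz).mul (hg.mero z hz))
    ?_ hF.an (hf.an.mul hg.an)
  intro s hs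
  have k1 := VV_prod (X0_ic 1) hF hs
  have k0 := VV_prodh hig hg hs
  simp only [gI_three] at k0
  have k2 := (VV_prod (X0_ic 1) hf hs).mul k0
  have k3 : HasProd (fun x : (Σ P : HeightOneSpectrum (𝓞 N),
      {w : HeightOneSpectrum (𝓞 K) // und w = P}) =>
      (1 - gI ((algebraMap (𝓞 N) (𝓞 K)).comp ι) (X0 1) s x.2.1.asIdeal)⁻¹) (F s) :=
    ((Equiv.sigmaFiberEquiv (und (F := N) (K := K))).hasProd_iff (f := fun w : HeightOneSpectrum (𝓞 K) =>
      (1 - gI ((algebraMap (𝓞 N) (𝓞 K)).comp ι) (X0 1) s w.asIdeal)⁻¹)).2 k1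
  have k4 : HasProd (fun P : HeightOneSpectrum (𝓞 N) =>
      ∏ w : {w : HeightOneSpectrum (𝓞 K) // und w = P},
      (1 - gI ((algebraMap (𝓞 N) (𝓞 K)).comp ι) (X0 1) s w.1.asIdeal)⁻¹) (F s) :=
    k3.sigma fun P => hasProd_fintype _
  refine k4.unique (k2.congr_fun fun P => ?_)
  rw [Finset.prod_inv_distrib, fib h2 hX hodd s P, mul_inv]

lemma XX_mulX (X Y : Gal(K/N) →* ℂˣ) (I : Ideal (𝓞 N)) :
    Pool.Agent.R430.XX (X * Y) I = Pool.Agent.R430.XX X I * Pool.Agent.R430.XX Y I := by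
  unfold Pool.Agent.R430.XX
  rw [← Multiset.prod_map_mul]
  congr 1

lemma sgn_XR (hX : ∀ σ, X σ ^ 2 = 1) : Sgn (fun I : Ideal (𝓞 N) => X0 3 I * XR X I) := by
  intro I
  simp only
  rcases X0_ne (I := I) 3 with h | h
  · rw [h, zero_mul]
    exact Or.inl rfl
  · rw [h, one_mul]
    by_cases h1 : ∃ w : HeightOneSpectrum (𝓞 K), Rm N w ∧ I ≤ (dn N w).asIdeal
    · exact Or.inl (XR_pos h1)
    · rw [XR_neg h1]
      exact Or.inr (XX_sq X hX I)

end

section tower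
variable {N E M : Type} [Field N] [NumberField N] [Field E] [NumberField E] [Field M] [NumberField M]
  [Algebra N E] [Algebra E M] [Algebra N M] [IsScalarTower N E M] [IsGalois N M] [IsGalois N E]
  [IsGalois E M] {n : ℕ} {ι : Pool.Agent.Y688.RR →+* 𝓞 N}

/-- **the product formula with a character** -/
theorem prod2 (h2 : Module.finrank N E = 2) (hc : ∀ σ τ : Gal(M/N), σ * τ = τ * σ)
    (hcE : ∀ σ τ : Gal(M/E), σ * τ = τ * σ) {X : Gal(M/N) →* ℂˣ} {Y : Gal(E/N) →* ℂˣ}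
    (hY : ∀ σ, σ ≠ 1 → Y σ = -1) (hX : ∀ σ, X σ ^ 2 = 1)
    {S : Finset (HeightOneSpectrum (𝓞 N))} (hS : ∀ P, P ∈ S ↔ P ∈ SR N M)
    {S' : Finset (HeightOneSpectrum (𝓞 E))} (hS' : ∀ w, w ∈ S' ↔ dn N w ∈ S)
    {G g1 g2 : ℂ → ℂ}
    (hiG : IH n (fun I => ind S' I * (X0 3 I * XR (rs E X) I)))
    (hG : VV ((algebraMap (𝓞 N) (𝓞 E)).comp ι) (fun I => ind S' I * (X0 3 I * XR (rs E X) I)) G)
    (hi1 : IH n (fun I => X0 3 I * XR X I)) (hg1 : VV ι (fun I => X0 3 I * XR X I) g1)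
    (hi2 : IH n (fun I => X0 3 I * XR (X * inf M Y) I))
    (hg2 : VV ι (fun I => X0 3 I * XR (X * inf M Y) I) g2) :
    G =ᶠ[𝓝 1] fun s => g1 s * g2 s := by
  classical
  refine mero_ev hG.mero (fun z hz => (hg1.mero z hz).mul (hg2.mero z hz)) ?_ hG.an
    (hg1.an.mul hg2.an)
  intro s hs
  have k1 := VV_prodh hiG hG hs
  have k0 := VV_prodh hi1 hg1 hs
  have k0' := VV_prodh hi2 hg2 hs
  simp only [gI_three] at k0 k0'
  have k2 := k0.mul k0'
  have hcongr : ∀ w : HeightOneSpectrum (𝓞 E),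
      gI ((algebraMap (𝓞 N) (𝓞 E)).comp ι) (fun I => ind S' I * (X0 3 I * XR (rs E X) I)) s w.asIdeal =
      (if w ∈ S' then 0 else 1) * gI ((algebraMap (𝓞 N) (𝓞 E)).comp ι) (XR (rs E X)) s w.asIdeal := by
    intro w
    have h3 := gI_three (ι := (algebraMap (𝓞 N) (𝓞 E)).comp ι) (X := XR (rs E X)) s w.asIdeal
    rw [← h3, ← ind_prime]
    unfold gI
    ring
  simp only [hcongr] at k1
  have k3 : HasProd (fun x : (Σ P : HeightOneSpectrum (𝓞 N),
      {w : HeightOneSpectrum (𝓞 E) // und w = P}) =>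
      (1 - (if x.2.1 ∈ S' then 0 else 1) *
        gI ((algebraMap (𝓞 N) (𝓞 E)).comp ι) (XR (rs E X)) s x.2.1.asIdeal)⁻¹) (G s) :=
    ((Equiv.sigmaFiberEquiv (und (F := N) (K := E))).hasProd_iff (f := fun w : HeightOneSpectrum (𝓞 E) =>
      (1 - (if w ∈ S' then 0 else 1) *
        gI ((algebraMap (𝓞 N) (𝓞 E)).comp ι) (XR (rs E X)) s w.asIdeal)⁻¹)).2 k1
  have k4 : HasProd (fun P : HeightOneSpectrum (𝓞 N) =>
      ∏ w : {w : HeightOneSpectrum (𝓞 E) // und w = P},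
      (1 - (if w.1 ∈ S' then 0 else 1) *
        gI ((algebraMap (𝓞 N) (𝓞 E)).comp ι) (XR (rs E X)) s w.1.asIdeal)⁻¹) (G s) :=
    k3.sigma fun P => hasProd_fintype _
  refine k4.unique (k2.congr_fun fun P => ?_)
  by_cases hP : P ∈ SR N M
  · have h0 : ∀ Z : Gal(M/N) →* ℂˣ, XR Z P.asIdeal = 0 := fun Z => XR_pos (SR_iff.2 hP)
    rw [gI_mulX (XR X) s P, gI_mulX (XR (X * inf M Y)) s P, h0, h0]
    simp only [zero_mul, sub_zero, inv_one, mul_one]
    refine Finset.prod_eq_one fun w _ => ?_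
    have hw : w.1 ∈ S' := (hS' _).2 ((hS _).2 (by rw [show dn N w.1 = P from w.2]; exact hP))
    rw [if_pos hw]
    simp
  · have h1 : ∀ w : {w : HeightOneSpectrum (𝓞 E) // und w = P},
        (1 - (if w.1 ∈ S' then 0 else 1) *
          gI ((algebraMap (𝓞 N) (𝓞 E)).comp ι) (XR (rs E X)) s w.1.asIdeal)⁻¹ =
        (1 - gI ((algebraMap (𝓞 N) (𝓞 E)).comp ι) (XR (rs E X)) s w.1.asIdeal)⁻¹ := by
      intro w
      have hw : w.1 ∉ S' := fun h => hP (by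
        have := (hS _).1 ((hS' _).1 h)
        rwa [show dn N w.1 = P from w.2] at this)
      rw [if_neg hw, one_mul]
    rw [Finset.prod_congr rfl (fun w _ => h1 w), Finset.prod_inv_distrib,
      fib2 h2 hc hcE hY hX hP s, mul_inv]

end tower

section step
variable {N E D M : Type} [Field N] [NumberField N] [Field E] [NumberField E] [Field D]
  [NumberField D] [Field M] [NumberField M]
  [Algebra N E] [Algebra E M] [Algebra N M] [IsScalarTower N E M]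
  [Algebra N D] [Algebra D M] [IsScalarTower N D M]
  [IsGalois N M] {ι : Pool.Agent.Y688.RR →+* 𝓞 N}

lemma exists_sgn {K : Type} [Field K] [NumberField K] [Algebra N K] [IsGalois N K]
    (h2 : Module.finrank N K = 2) : ∃ X : Gal(K/N) →* ℂˣ, (∀ σ, σ ≠ 1 → X σ = -1) ∧
      ∀ σ, X σ ^ 2 = 1 := by
  have hcard : Nat.card Gal(K/N) = 2 := by rw [IsGalois.card_aut_eq_finrank, h2]
  obtain ⟨σ0, hσ0⟩ : ∃ σ : Gal(K/N), σ ≠ 1 := by
    by_contra hcon
    push Not at hcon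
    have : Subsingleton Gal(K/N) := ⟨fun a b => by rw [hcon a, hcon b]⟩
    rw [Nat.card_unique] at hcard
    omega
  obtain ⟨X, hX0⟩ := exists_char' (comm2 h2) hσ0
  have hXsq : ∀ σ, X σ ^ 2 = 1 := fun σ => by rw [← map_pow, pow_two, sq2 h2, map_one]
  refine ⟨X, ?_, hXsq⟩
  intro σ hσ
  rcases eq_one_or h2 hσ0 σ with h | h
  · exact absurd h hσ
  · rw [h]
    have h5 := hXsq σ0
    have h6 : ((X σ0 : ℂˣ) : ℂ) ^ 2 = 1 := by rw [← Units.val_pow_eq_pow_val, h5, Units.val_one]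
    have h7 : (((X σ0 : ℂˣ) : ℂ) - 1) * (((X σ0 : ℂˣ) : ℂ) + 1) = 0 := by linear_combination h6
    rcases mul_eq_zero.1 h7 with h8 | h8
    · exact absurd (Units.ext (by rw [Units.val_one]; exact sub_eq_zero.1 h8)) hX0
    · exact Units.ext (by rw [Units.val_neg, Units.val_one]; exact eq_neg_of_add_eq_zero_left h8)

/-- **One step of the tower.** -/
theorem step {d : ℕ} (hd : Module.finrank ℚ N = 2 * d) (hU : Unr2 M)
    (h2 : Module.finrank N E = 2) (h2D : Module.finrank N D = 2) (h2M : Module.finrank E M = 2)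
    (hc : ∀ σ τ : Gal(M/N), σ * τ = τ * σ)
    (hgen : ∀ σ : Gal(M/N), (∀ x : E, σ (algebraMap E M x) = algebraMap E M x) →
      (∀ x : D, σ (algebraMap D M x) = algebraMap D M x) → σ = 1)
    {p : HeightOneSpectrum (𝓞 N)} (hp3 : (3 : 𝓞 N) ∉ p.asIdeal)
    {x0 : 𝓞 N} (hx0 : x0 ^ 3 - 2 ∈ p.asIdeal)
    (hpD : ∃ (w : HeightOneSpectrum (𝓞 D)) (σ : D ≃ₐ[N] D), σ ≠ 1 ∧
      (∀ x : 𝓞 D, σ • x - x ∈ w.asIdeal) ∧ w.asIdeal.under (𝓞 N) = p.asIdeal)
    (hpE : ∀ w w' : HeightOneSpectrum (𝓞 E), w.asIdeal.under (𝓞 N) = p.asIdeal →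
      w'.asIdeal.under (𝓞 N) = p.asIdeal → w = w')
    (hpEu : ∀ (w : HeightOneSpectrum (𝓞 E)) (σ : E ≃ₐ[N] E), w.asIdeal.under (𝓞 N) = p.asIdeal →
      (∀ x : 𝓞 E, σ • x - x ∈ w.asIdeal) → σ = 1)
    (hgood : ∀ (w : HeightOneSpectrum (𝓞 M)), Rm N w → dn N w ≠ p → (3 : 𝓞 N) ∉ (dn N w).asIdeal →
      ∀ x : 𝓞 N, x ^ 3 - 2 ∉ (dn N w).asIdeal)
    {f fE FD FM : ℂ → ℂ} (hf : VV ι (X0 1) f) (hfE : VV ((algebraMap (𝓞 N) (𝓞 E)).comp ι) (X0 1) fE)
    (hFD : VV ((algebraMap (𝓞 N) (𝓞 D)).comp ι) (X0 1) FD)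
    (hFM : VV ((algebraMap (𝓞 N) (𝓞 M)).comp ι) (X0 1) FM)
    {L : PeriodPair} {Ω : ℂ} (hL : HL L Ω) {Γ : Type} [LinearOrderedCommGroupWithZero Γ]
    {v : Valuation ℂ Γ} (hv : v 2 < 1) (hfv : v (f 1) = v Ω ^ d) (hfE1 : fE 1 ≠ 0)
    (hFD1 : FD 1 = 0) : analyticOrderAt FM 1 = analyticOrderAt FD 1 := by
  classical
  have hgE : IsGalois N E := gal2' h2
  have hgD : IsGalois N D := gal2' h2D
  have hgM : IsGalois E M := gal2' h2M
  have hcE : ∀ σ τ : Gal(M/E), σ * τ = τ * σ := comm2 h2M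
  obtain ⟨n0, hn0, hnr0⟩ := exists_odd (F := N) (K := M) hU
  set n : ℕ := 3 * n0 with hndef
  have hn : Odd n := Odd.mul (by decide) hn0
  have h3n : 3 ∣ n := ⟨n0, rfl⟩
  have hnr : ∀ w : HeightOneSpectrum (𝓞 M), Rm N w → (n : 𝓞 N) ∈ (dn N w).asIdeal := by
    intro w hw
    rw [hndef, Nat.cast_mul]
    exact Ideal.mul_mem_left _ _ (hnr0 w hw)
  have hnN : (n : 𝓞 N) ≠ 0 := by
    obtain ⟨k, hk⟩ := hn
    have : n ≠ 0 := by omega
    exact_mod_cast this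
  have hnSR : ∀ P ∈ SR N M, (n : 𝓞 N) ∈ P.asIdeal := by
    rintro P ⟨w, hw, rfl⟩
    exact hnr w hw
  have hfin := SR_fin hnN hnr
  set S1 : Finset (HeightOneSpectrum (𝓞 N)) := hfin.toFinset with hS1
  have hS1m : ∀ P, P ∈ S1 ↔ P ∈ SR N M := fun P => hfin.mem_toFinset
  have h2P : ∀ P : HeightOneSpectrum (𝓞 N), (n : 𝓞 N) ∈ P.asIdeal → (2 : 𝓞 N) ∉ P.asIdeal := by
    intro P hP h2P
    obtain ⟨k, hk⟩ := hn
    apply P.isPrime.ne_top
    rw [Ideal.eq_top_iff_one]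
    have : (1 : 𝓞 N) = (n : 𝓞 N) - 2 * (k : 𝓞 N) := by
      rw [hk]
      push_cast
      ring
    rw [this]
    exact Ideal.sub_mem _ hP (Ideal.mul_mem_right _ _ h2P)
  -- the fields
  have hUN : Unr2 N := unr2_down (F := N) (K := M) hU
  have hUE : Unr2 E := unr2_down (F := E) (K := M) hU
  obtain ⟨a, ha⟩ := exists_rt ι
  obtain ⟨aE, haE⟩ := exists_rt ((algebraMap (𝓞 N) (𝓞 E)).comp ι)
  have hdE : Module.finrank ℚ E = 2 * (2 * d) := by
    rw [← Module.finrank_mul_finrank ℚ N E, hd, h2]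
    ring
  -- ramification
  have hpSD : p ∈ SR N D := by
    obtain ⟨w, σ, h1, h3, h4⟩ := hpD
    exact ⟨w, ⟨σ, h1, h3⟩, HeightOneSpectrum.ext h4⟩
  have hpS1 : p ∈ SR N M := SR_mono (E := D) hpSD
  have hpnE : p ∉ SR N E := by
    rintro ⟨w, ⟨σ, h1, h3⟩, h4⟩
    exact h1 (hpEu w σ (congrArg HeightOneSpectrum.asIdeal h4) h3)
  -- the characters
  obtain ⟨XD, hXD, hXD2⟩ := exists_sgn (N := N) (K := D) h2D
  obtain ⟨YE, hYE, hYE2⟩ := exists_sgn (N := N) (K := E) h2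
  set X : Gal(M/N) →* ℂˣ := inf M XD with hX
  have hX2 : ∀ σ, X σ ^ 2 = 1 := fun σ => hXD2 _
  have hXY2 : ∀ σ, (X * inf M YE) σ ^ 2 = 1 := fun σ => by
    rw [MonoidHom.mul_apply, mul_pow, hX2]
    exact (one_mul _).trans (hYE2 _)
  have hX' : ∀ σ : Gal(M/E), σ ≠ 1 → rs E X σ = -1 := by
    intro σ hσ
    have hne : (AlgEquiv.restrictNormalHom D (AlgEquiv.restrictScalarsHom N σ) : Gal(D/N)) ≠ 1 := by
      intro h1
      apply hσ
      have h3 : AlgEquiv.restrictScalarsHom N σ = 1 := by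
        refine hgen _ (fun x => σ.commutes x) fun x => ?_
        have h4 := AlgEquiv.restrictNormal_commutes (AlgEquiv.restrictScalarsHom N σ) D x
        have h5 : (AlgEquiv.restrictScalarsHom N σ).restrictNormal D = 1 := h1
        rw [h5] at h4
        exact h4.symm
      apply AlgEquiv.ext
      intro x
      exact DFunLike.congr_fun h3 x
    exact hXD _ hne
  have hX'2 : ∀ σ : Gal(M/E), rs E X σ ^ 2 = 1 := fun σ => hX2 _
  -- the functions over `N`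
  have hnrD : ∀ w : HeightOneSpectrum (𝓞 D), Rm N w → (n : 𝓞 N) ∈ (dn N w).asIdeal := fun w hw =>
    hnSR _ (SR_mono (E := D) ⟨w, hw, rfl⟩)
  have hnrE : ∀ w : HeightOneSpectrum (𝓞 E), Rm N w → (n : 𝓞 N) ∈ (dn N w).asIdeal := fun w hw =>
    hnSR _ (SR_mono (E := E) ⟨w, hw, rfl⟩)
  have hUN' : ∀ v : HeightOneSpectrum (𝓞 N), (2 : 𝓞 N) ∈ v.asIdeal →
      v.valuation N 2 = WithZero.exp (-1 : ℤ) := fun v hv => hUN v (by exact_mod_cast hv)
  have hUE' : ∀ v : HeightOneSpectrum (𝓞 E), (2 : 𝓞 E) ∈ v.asIdeal →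
      v.valuation E 2 = WithZero.exp (-1 : ℤ) := fun v hv => hUE v (by exact_mod_cast hv)
  have iX : IH n (fun I : Ideal (𝓞 N) => X0 3 I * XR X I) := XR3_ih ha hd hUN' hX2 hn h3n hnr
  have iZ : IH n (fun I : Ideal (𝓞 N) => X0 3 I * XR (X * inf M YE) I) :=
    XR3_ih ha hd hUN' hXY2 hn h3n hnr
  have iY : IH n (fun I : Ideal (𝓞 N) => X0 3 I * XR YE I) :=
    XR3_ih ha hd hUN' hYE2 hn h3n hnrE
  have iXD : IH n (fun I : Ideal (𝓞 N) => X0 3 I * XR XD I) :=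
    XR3_ih ha hd hUN' hXD2 hn h3n hnrD
  obtain ⟨gX, gZ, hgX, hgZ, -⟩ := core_gen2 N ι d hd hUN n _ _ iX iZ hn
  obtain ⟨gD, -, hgD', -, -⟩ := core_gen2 N ι d hd hUN n _ _ iXD iXD hn
  -- the order of `gX`
  have e1 := L_prod_ev h2D hXD (fun w hw => h2P _ (hnrD w hw)) hFD hf iXD hgD'
  have hfne : f 1 ≠ 0 := by
    intro h0
    rw [h0, map_zero] at hfv
    exact pow_ne_zero _ ((Valuation.ne_zero_iff v).2 hL.ne) hfv.symm
  have o1 : analyticOrderAt FD 1 = analyticOrderAt gD 1 := ord_mul_left hf.an hfne hgD'.an e1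
  have hgXD : VV ι (fun I => ind S1 I * (X0 3 I * XR XD I)) gX := by
    refine ⟨hgX.mero, hgX.an, fun s hs => (hgX.sum s hs).congr_fun fun I => ?_⟩
    have e := XR_restr (M := M) (comm2 h2D) XD hS1m I.1
    show ind S1 I.1 * (X0 3 I.1 * XR XD I.1) * _ * _ = X0 3 I.1 * XR X I.1 * _ * _
    rw [← e]
    rfl
  have o2 : analyticOrderAt gX 1 = analyticOrderAt gD 1 :=
    rem_ord (fun P hP => hnSR P ((hS1m P).1 hP)) iXD hgD' hgXD
  have oX : analyticOrderAt gX 1 = analyticOrderAt FD 1 := o2.trans o1.symm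
  have gX1 : gX 1 = 0 := by
    by_contra hne
    have h5 : analyticOrderAt gX 1 = 0 := hgX.an.analyticOrderAt_eq_zero.2 hne
    rw [oX] at h5
    exact (hFD.an.analyticOrderAt_eq_zero.1 h5) hFD1
  -- the key
  have inj0 : ∀ I : Ideal (𝓞 N), ind (S1.erase p) I ≠ 0 → ∀ P ∈ SR N M, P ≠ p → ¬ I ≤ P.asIdeal := by
    intro I hI P hP hPp hle
    exact hI (ind_pos ⟨P, Finset.mem_erase.2 ⟨hPp, (hS1m P).2 hP⟩, hle⟩)
  have hkey : v (gZ 1) = v 2 * v Ω ^ d := by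
    refine key (S := S1.erase p) (p := p) (x0 := x0) hd hUN hn h3n iX iY iZ (sgn_XR hX2)
      (sgn_XR hYE2) (sgn_XR hXY2) (fun P hP => hnSR P ((hS1m P).1 (Finset.mem_of_mem_erase hP)))
      ?_ (hnSR p hpS1) hp3 hx0 (Finset.notMem_erase p S1) ?_ ?_ ?_ ?_ ?_ ?_ ?_ ?_ hf hgX hgZ hL hv
      hfv gX1
    · intro P hP
      obtain ⟨hPp, hP1⟩ := Finset.mem_erase.1 hP
      obtain ⟨w, hw, rfl⟩ := (hS1m P).1 hP1
      by_cases h3 : (3 : 𝓞 N) ∈ (dn N w).asIdeal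
      · exact Or.inl h3
      · exact Or.inr (hgood w hw hPp h3)
    · intro I hI
      simp only [hI, zero_mul]
    · intro I hI
      simp only [hI, zero_mul]
    · intro I hI
      simp only [hI, zero_mul]
    · intro I hI h3
      refine mul_ne_zero h3 ?_
      rw [XR_neg]
      · exact XX_ne0 hYE2
      · rintro ⟨w, hw, hle⟩
        refine inj0 I hI (dn N w) (SR_mono (E := E) ⟨w, hw, rfl⟩) ?_ hle
        intro h4
        exact hpnE ⟨w, hw, h4⟩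
    · intro I hI h3 hIp
      have hM : ¬ ∃ w : HeightOneSpectrum (𝓞 M), Rm N w ∧ I ≤ (dn N w).asIdeal := by
        rintro ⟨w, hw, hle⟩
        by_cases h4 : dn N w = p
        · exact hIp (h4 ▸ hle)
        · exact inj0 I hI (dn N w) ⟨w, hw, rfl⟩ h4 hle
      have hE : ¬ ∃ w : HeightOneSpectrum (𝓞 E), Rm N w ∧ I ≤ (dn N w).asIdeal := by
        rintro ⟨w, hw, hle⟩
        obtain ⟨w', hw', h5⟩ := SR_mono (E := E) (M := M) (P := dn N w) ⟨w, hw, rfl⟩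
        exact hM ⟨w', hw', by rw [h5]; exact hle⟩
      have hS1I : ind S1 I = 1 := ind_neg (by
        rintro ⟨P, hP, hle⟩
        obtain ⟨w, hw, h5⟩ := (hS1m P).1 hP
        exact hM ⟨w, hw, by rw [h5]; exact hle⟩)
      have hr := XR_restr (M := M) (comm2 h2) YE hS1m I
      rw [hS1I, one_mul] at hr
      have hr' := mul_left_cancel₀ h3 hr
      refine ⟨?_, ?_⟩
      · refine mul_ne_zero h3 ?_
        rw [XR_neg hM]
        exact XX_ne0 hX2
      · show X0 3 I * XR (X * inf M YE) I = X0 3 I * XR X I * (X0 3 I * XR YE I)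
        rw [← hr', XR_neg hM, XR_neg hM, XX_mulX]
        have h31 : X0 3 I = 1 := (X0_ne (I := I) 3).resolve_left h3
        rw [h31, XR_neg hM]
        show _ = 1 * _ * (1 * Pool.Agent.R430.XX (inf M YE) I)
        ring
    · show X0 3 p.asIdeal * XR X p.asIdeal = 0
      rw [XR_pos (SR_iff.2 hpS1), mul_zero]
    · show X0 3 p.asIdeal * XR (X * inf M YE) p.asIdeal = 0
      rw [XR_pos (SR_iff.2 hpS1), mul_zero]
    · show X0 3 p.asIdeal * XR YE p.asIdeal = -1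
      have h31 : X0 3 p.asIdeal = 1 := X0_pos (by
        rw [prime_cop_iff]
        exact_mod_cast hp3)
      have hfr : frP E p.asIdeal ≠ 1 := by
        intro h0
        have h4 := (split_unr h2 (fun h => hpnE h)).2
        rw [h0, orderOf_one] at h4
        have h5 : Fintype.card {w : HeightOneSpectrum (𝓞 E) // und w = p} ≤ 1 := by
          rw [Fintype.card_le_one_iff]
          intro w w'
          exact Subtype.ext (hpE w.1 w'.1 (congrArg HeightOneSpectrum.asIdeal w.2)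
            (congrArg HeightOneSpectrum.asIdeal w'.2))
        omega
      rw [h31, one_mul, XR_neg (fun h => hpnE (SR_iff.1 h)),
        XX_prime _ (Ideal.prime_of_isPrime p.ne_bot p.isPrime), hYE _ hfr]
      simp
  have hZne : gZ 1 ≠ 0 := by
    intro h0
    rw [h0, map_zero] at hkey
    exact mul_ne_zero ((Valuation.ne_zero_iff v).2 two_ne_zero)
      (pow_ne_zero _ ((Valuation.ne_zero_iff v).2 hL.ne)) hkey.symm
  have oZ : analyticOrderAt gZ 1 = 0 := hgZ.an.analyticOrderAt_eq_zero.2 hZne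
  -- the functions over `E`
  have hnE : ∀ w : HeightOneSpectrum (𝓞 E), dn N w ∈ SR N M → (n : 𝓞 E) ∈ w.asIdeal := by
    intro w hw
    have h4 := hnSR _ hw
    have h5 : algebraMap (𝓞 N) (𝓞 E) (n : 𝓞 N) ∈ w.asIdeal := h4
    rwa [map_natCast] at h5
  have hnrM : ∀ w : HeightOneSpectrum (𝓞 M), Rm E w → (n : 𝓞 E) ∈ (dn E w).asIdeal := fun w hw =>
    hnE _ (SR_up ⟨w, hw, rfl⟩)
  have h2PE : ∀ P : HeightOneSpectrum (𝓞 E), (n : 𝓞 E) ∈ P.asIdeal → (2 : 𝓞 E) ∉ P.asIdeal := by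
    intro P hP h2P
    obtain ⟨k, hk⟩ := hn
    apply P.isPrime.ne_top
    rw [Ideal.eq_top_iff_one]
    have : (1 : 𝓞 E) = (n : 𝓞 E) - 2 * (k : 𝓞 E) := by
      rw [hk]
      push_cast
      ring
    rw [this]
    exact Ideal.sub_mem _ hP (Ideal.mul_mem_right _ _ h2P)
  have iG : IH n (fun I : Ideal (𝓞 E) => X0 3 I * XR (rs E X) I) :=
    XR3_ih haE hdE hUE' hX'2 hn h3n hnrM
  have hnEne : (n : 𝓞 E) ≠ 0 := by
    obtain ⟨k, hk⟩ := hn
    have : n ≠ 0 := by omega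
    exact_mod_cast this
  set S' : Finset (HeightOneSpectrum (𝓞 E)) := (ScN hnEne).filter (fun w => dn N w ∈ S1) with hS'
  have hS'm : ∀ w, w ∈ S' ↔ dn N w ∈ S1 := by
    intro w
    rw [hS', Finset.mem_filter, mem_ScN]
    exact ⟨fun h => h.2, fun h => ⟨hnE w ((hS1m _).1 h), h⟩⟩
  have hS'n : ∀ w ∈ S', (n : 𝓞 E) ∈ w.asIdeal := fun w hw => hnE w ((hS1m _).1 ((hS'm w).1 hw))
  have iG' : IH n (fun I : Ideal (𝓞 E) => ind S' I * (X0 3 I * XR (rs E X) I)) :=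
    IHprod (ind_ih hS'n) iG
  obtain ⟨G, G', hG, hG', -⟩ := core_gen2 E ((algebraMap (𝓞 N) (𝓞 E)).comp ι) _ hdE hUE n _ _ iG iG' hn
  have hcomp : (algebraMap (𝓞 E) (𝓞 M)).comp ((algebraMap (𝓞 N) (𝓞 E)).comp ι) =
      (algebraMap (𝓞 N) (𝓞 M)).comp ι := by
    rw [← RingHom.comp_assoc, ← IsScalarTower.algebraMap_eq (𝓞 N) (𝓞 E) (𝓞 M)]
  have e2 := L_prod_ev (ι := (algebraMap (𝓞 N) (𝓞 E)).comp ι) h2M hX'
    (fun w hw => h2PE _ (hnrM w hw)) (by rw [hcomp]; exact hFM) hfE iG hG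
  have o3 : analyticOrderAt FM 1 = analyticOrderAt G 1 := ord_mul_left hfE.an hfE1 hG.an e2
  have o4 : analyticOrderAt G' 1 = analyticOrderAt G 1 := rem_ord hS'n iG hG hG'
  have e3 := prod2 h2 hc hcE hYE hX2 hS1m hS'm iG' hG' iX hgX iZ hgZ
  have o5 : analyticOrderAt G' 1 = analyticOrderAt gX 1 + analyticOrderAt gZ 1 := by
    rw [analyticOrderAt_congr e3]
    exact analyticOrderAt_mul hgX.an hgZ.an
  rw [o3, ← o4, o5, oZ, add_zero, oX]

end step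

end Pool.Agent.H98.B
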