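import Pool.Agent.H98.B.Biq

/-!
# The induction along the tower
-/

set_option autoImplicit false
set_option linter.unusedSectionVars false
set_option linter.unusedVariables false

open Complex NumberField IsDedekindDomain Filter Topology
open scoped PeriodPair nonZeroDivisors

namespace Pool.Agent.H98.B

open Pool.Agent.K7.H56
open Pool.Agent.K7.H56.P
open Pool.Agent.R430
open Pool.Agent.Y696 Pool.Agent.W192.HK Pool.Agent.TH936.CM H667R3
open Pool.Agent.TH936.PU
open Pool.Agent.Y688 (NI HL euler v_sub_one v_root v_RR dn dn_surj)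
open Pool.Agent.K7.H70.AS
open Pool.Agent.K7.H70.SM
open Pool.Agent.K7.H56.M
open Pool.Agent.K7.H73.L3 (gz3 base_om3)

section cyc
variable {F T : Type} [Field F] [NumberField F] [IsCyclotomicExtension {3} ℚ F] [Field T]
  [NumberField T] [Algebra F T]

lemma cyc_one (h : Module.finrank F T = 1) : IsCyclotomicExtension {3} ℚ T := by
  have hb : Function.Bijective (algebraMap F T) := by
    have hfd : FiniteDimensional F T := Module.finite_of_finrank_pos (by rw [h]; norm_num)
    refine ⟨(algebraMap F T).injective, fun x => ?_⟩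
    have h2 : x ∈ (⊥ : Subalgebra F T) := by
      rw [(Subalgebra.bot_eq_top_iff_finrank_eq_one (F := F) (E := T)).2 h]
      exact Algebra.mem_top
    exact Algebra.mem_bot.1 h2
  let e : F ≃ₐ[ℚ] T := AlgEquiv.ofBijective
    ({ (algebraMap F T) with commutes' := fun x => by simp } : F →ₐ[ℚ] T) hb
  exact IsCyclotomicExtension.equiv {3} ℚ F e

end cyc

/-- **The order along the tower.** -/
theorem tow (hB : BaseOrd) {F K : Type} [Field F] [NumberField F] [IsCyclotomicExtension {3} ℚ F]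
    [Field K] [NumberField K] [Algebra F K] [IsGalois F K] (ι : Pool.Agent.Y688.RR →+* 𝓞 F) {r : ℕ}
    (hr : Module.finrank F K = 2 ^ r) (hU : Unr2 K) (hG : Gd F K) (n : ℕ) :
    ∀ (T : Type) [Field T] [NumberField T] [Algebra F T], (T →ₐ[F] K) →
      Module.finrank F T = 2 ^ n → P5 T → ∀ (D : Type) [Field D] [NumberField D] [Algebra T D],
      Module.finrank T D = 2 → (∃ ρ : D, ρ ^ 2 = 5) → ∀ g : ℂ → ℂ,
      VV ((algebraMap (𝓞 T) (𝓞 D)).comp ((algebraMap (𝓞 F) (𝓞 T)).comp ι)) (X0 1) g →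
        analyticOrderAt g 1 = 1 := by
  induction n with
  | zero =>
    intro T _ _ _ φ h1 _ D _ _ _ hD hρ g hg
    have := cyc_one (F := F) (T := T) h1
    exact hB T D _ hD hρ g hg
  | succ m ih =>
    intro T _ _ _ φ h1 hT D _ _ _ hD ⟨ρ, hρ⟩ g hg
    obtain ⟨N, h2, h3⟩ := exists_mid (K := K) h1 hr φ
    let _ : Algebra T K := φ.toRingHom.toAlgebra
    have hFTK : IsScalarTower F T K :=
      IsScalarTower.of_algebraMap_eq fun x => (φ.commutes x).symm
    have hGT : Gd F T := gd_bot (K := K) hG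
    have hUT : Unr2 T := unr2_down (F := T) (K := K) hU
    let _ : Algebra N K := (φ.comp N.val).toRingHom.toAlgebra
    have hFNK : IsScalarTower F N K :=
      IsScalarTower.of_algebraMap_eq fun x => ((φ.comp N.val).commutes x).symm
    have hNC : NC F N := nc_of_tower (K := K) hr
    have hGN : Gd N T := gd_top (F := F) hNC hGT
    have hUN : Unr2 N := unr2_down (F := N) (K := K) hU
    have hgal : IsGalois N T := gal2' h3
    have hN5 : P5 N := five_down (N := N) hT
    have hgalM : IsGalois N D := five_gal (E := T) hT hD hρ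
    have hc := five_comm (N := N) (E := T) (M := D) h3 hT hD hρ
    set B := IntermediateField.adjoin N {ρ} with hBdef
    have hρB : ρ ∈ B := IntermediateField.mem_adjoin_simple_self N ρ
    have h2B : Module.finrank N B = 2 := by
      have hirr : Irreducible (Polynomial.X ^ 2 - Polynomial.C (5 : N)) := by
        rw [X_pow_sub_C_irreducible_iff_of_prime Nat.prime_two]
        exact fun b => five_ns hN5 b
      have hmin : minpoly N ρ = Polynomial.X ^ 2 - Polynomial.C (5 : N) := by
        refine (minpoly.eq_of_irreducible_of_monic hirr ?_ (Polynomial.monic_X_pow_sub_C _ two_ne_zero)).symm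
        rw [map_sub, map_pow, Polynomial.aeval_X, Polynomial.aeval_C, map_ofNat, hρ, sub_self]
      have hint : IsIntegral N ρ := Algebra.IsIntegral.isIntegral ρ
      have h3 := IntermediateField.adjoin.finrank hint
      rw [hmin, Polynomial.natDegree_X_pow_sub_C] at h3
      exact h3
    set ρB : B := ⟨ρ, hρB⟩ with hρBd
    have hρB2 : ρB ^ 2 = 5 := Subtype.ext (by
      show ρ ^ 2 = algebraMap B D 5
      rw [map_ofNat, hρ])
    -- the functions
    set ιN := (algebraMap (𝓞 F) (𝓞 N)).comp ι with hιN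
    obtain ⟨aN, haN⟩ := exists_rt ιN
    obtain ⟨aT, haT⟩ := exists_rt ((algebraMap (𝓞 N) (𝓞 T)).comp ιN)
    obtain ⟨d, hd, hBN⟩ := base_om3 (F := F) hr hU hG haN ιN
    obtain ⟨dT, hdT, hBT⟩ := base_om3 (F := F) hr hU hG haT ((algebraMap (𝓞 N) (𝓞 T)).comp ιN)
    obtain ⟨f, hf⟩ := exists_VV ιN hd hUN
    obtain ⟨fT, hfT⟩ := exists_VV ((algebraMap (𝓞 N) (𝓞 T)).comp ιN) hdT hUT
    have hgTD : IsGalois T D := gal2' hD
    have hUD : Unr2 D := unr2_five hT hD hρ hUT
    have hgB : IsGalois N B := gal2' h2B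
    have hUB : Unr2 B := unr2_five hN5 h2B hρB2 hUN
    obtain ⟨fB, hfB⟩ := exists_VV ((algebraMap (𝓞 N) (𝓞 B)).comp ιN) (d := 2 * d) (by
      rw [← Module.finrank_mul_finrank ℚ N B, hd, h2B]
      ring) hUB
    have oB := ih N (φ.comp N.val) h2 hN5 B h2B ⟨ρB, hρB2⟩ fB hfB
    have hfB1 : fB 1 = 0 := by
      by_contra hne
      have h5 := hfB.an.analyticOrderAt_eq_zero.2 hne
      rw [oB] at h5
      exact one_ne_zero h5
    have hcomp : (algebraMap (𝓞 T) (𝓞 D)).comp ((algebraMap (𝓞 F) (𝓞 T)).comp ι) =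
        (algebraMap (𝓞 N) (𝓞 D)).comp ιN := by
      have e1 : (algebraMap (𝓞 F) (𝓞 T)) = (algebraMap (𝓞 N) (𝓞 T)).comp (algebraMap (𝓞 F) (𝓞 N)) :=
        rfl
      have e2 : (algebraMap (𝓞 N) (𝓞 D)) = (algebraMap (𝓞 T) (𝓞 D)).comp (algebraMap (𝓞 N) (𝓞 T)) :=
        rfl
      rw [e1, e2, hιN]
      rfl
    obtain ⟨V, hV⟩ := exists_over_two
    obtain ⟨Ω, hΩ, hC⟩ := exists_cur
    have hL := HL_of_Cur hC
    have hst2 := step (N := N) (E := T) (D := B) (M := D) hd hUD h3 h2B hD hc
      (fun σ h5 h6 => five_hgen hT hD hρ h5 (h6 ρB)) (p := p5 hN5) (three_p5 hN5) (x0 := 3)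
      (bad_p5 hN5) (five_ram hN5 h2B hρB2) ?_ ?_ ?_ hf hfT hfB (by rw [← hcomp]; exact hg) hL hV
      (hBN f hf _ _ hC _ V.valuation hV) (ne_of_base hBT hfT) hfB1
    · rw [hst2, oB]
    · intro w w' hw hw'
      have h5 : ∀ w : HeightOneSpectrum (𝓞 T), w.asIdeal.under (𝓞 N) = (p5 hN5).asIdeal →
          (5 : 𝓞 T) ∈ w.asIdeal := by
        intro w hw
        have h6 : (5 : 𝓞 N) ∈ w.asIdeal.under (𝓞 N) := by
          rw [hw]
          exact (mem_p5 hN5).2 dvd_rfl
        have h7 : algebraMap (𝓞 N) (𝓞 T) 5 ∈ w.asIdeal := h6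
        rwa [map_ofNat] at h7
      rw [p5_uniq hT (h5 w hw), p5_uniq hT (h5 w' hw')]
    · intro w σ hw hσ
      have h6 : (5 : 𝓞 N) ∈ w.asIdeal.under (𝓞 N) := by
        rw [hw]
        exact (mem_p5 hN5).2 dvd_rfl
      have h7 : algebraMap (𝓞 N) (𝓞 T) 5 ∈ w.asIdeal := h6
      rw [map_ofNat] at h7
      exact p5_unr hT h7 hσ
    · intro w ⟨σ, hσ, hin⟩ hPp h3P x
      -- the restriction to `B` is trivial
      have h5w : (5 : 𝓞 D) ∉ w.asIdeal := by
        intro h5
        apply hPp
        apply p5_uniq hN5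
        show algebraMap (𝓞 N) (𝓞 D) 5 ∈ w.asIdeal
        rwa [map_ofNat]
      have h5wB : (5 : 𝓞 B) ∉ (dn B w).asIdeal := by
        intro h5
        apply h5w
        have h6 : algebraMap (𝓞 B) (𝓞 D) 5 ∈ w.asIdeal := h5
        rwa [map_ofNat] at h6
      have hresB : (AlgEquiv.restrictNormalHom B σ : Gal(B/N)) = 1 := by
        refine five_away hN5 h2B hρB2 h5wB fun y => ?_
        show _ ∈ w.asIdeal.under (𝓞 B)
        rw [Ideal.under_def, Ideal.mem_comap, map_sub, restr_smul]
        exact hin _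
      have hresT : (AlgEquiv.restrictNormalHom T σ : Gal(T/N)) ≠ 1 := by
        intro h1
        apply hσ
        refine five_hgen hT hD hρ ?_ ((fx_iff σ).1 hresB ρB)
        intro x
        exact (fx_iff σ).1 h1 x
      have hRT : Rm N (dn T w) := ⟨_, hresT, fun y => by
        show _ ∈ w.asIdeal.under (𝓞 T)
        rw [Ideal.under_def, Ideal.mem_comap, map_sub, restr_smul]
        exact hin _⟩
      have hdn : dn N (dn T w) = dn N w := by
        apply HeightOneSpectrum.ext
        show (w.asIdeal.under (𝓞 T)).under (𝓞 N) = w.asIdeal.under (𝓞 N)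
        rw [Ideal.under_under]
      rw [← hdn] at h3P ⊢
      exact gd_rm hGN hRT h3P x

end Pool.Agent.H98.B
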