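import Pool.Agent.H98.B.Chi

/-!
# The weight function
-/

set_option autoImplicit false
set_option linter.unusedSectionVars false
set_option linter.unusedVariables false

open Complex MeasureTheory Set

namespace Pool.Agent.H98.B

open Pool.Agent.TH936.AD
open Pool.Agent.W192.CY (Vk)

lemma Vk_one (u : ℝ) : Vk 1 u = Real.exp (-u) := by
  unfold Vk
  simp

lemma Vd_eq (x : ℝ) : Vd 1 x = ∫ u in Ioi x, Real.exp (-u) / u := by
  unfold Vd
  simp only [Vk_one]

lemma int_exp (x : ℝ) : IntegrableOn (fun u : ℝ => Real.exp (-u)) (Ioi x) :=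
  integrableOn_exp_neg_Ioi x

lemma int_Vd {x : ℝ} (hx : 0 < x) : IntegrableOn (fun u : ℝ => Real.exp (-u) / u) (Ioi x) := by
  refine Integrable.mono' ((int_exp x).div_const x) ?_ ?_
  · refine (ContinuousOn.aestronglyMeasurable ?_ measurableSet_Ioi)
    refine ContinuousOn.div (by fun_prop) continuousOn_id fun u hu => ?_
    exact (lt_trans hx hu).ne'
  · refine (ae_restrict_iff' measurableSet_Ioi).2 (Filter.Eventually.of_forall fun u hu => ?_)
    have hu' : x < u := hu
    have hu0 : 0 < u := lt_trans hx hu'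
    rw [Real.norm_of_nonneg (div_nonneg (Real.exp_pos _).le hu0.le)]
    exact div_le_div_of_nonneg_left (Real.exp_pos _).le hx hu'.le

lemma Vd_nonneg {x : ℝ} (hx : 0 < x) : 0 ≤ Vd 1 x := by
  rw [Vd_eq]
  refine setIntegral_nonneg measurableSet_Ioi fun u hu => ?_
  exact div_nonneg (Real.exp_pos _).le (lt_trans hx hu).le

lemma Vd_le {x : ℝ} (hx : 0 < x) : Vd 1 x ≤ Real.exp (-x) / x := by
  rw [Vd_eq]
  have h1 : ∫ u in Ioi x, Real.exp (-u) / u ≤ ∫ u in Ioi x, Real.exp (-u) / x := by
    refine setIntegral_mono_on (int_Vd hx) ((int_exp x).div_const x) measurableSet_Ioi ?_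
    intro u hu
    exact div_le_div_of_nonneg_left (Real.exp_pos _).le hx (le_of_lt hu)
  refine h1.trans ?_
  rw [integral_div, integral_exp_neg_Ioi]

lemma Vd_ge {x : ℝ} (hx : 0 < x) (hx1 : x ≤ 1) : -Real.log x - 1 + x ≤ Vd 1 x := by
  rw [Vd_eq]
  have h1 : ∫ u in Ioc x 1, Real.exp (-u) / u ≤ ∫ u in Ioi x, Real.exp (-u) / u := by
    refine setIntegral_mono_set (int_Vd hx) ?_ (Ioc_subset_Ioi_self).eventuallyLE
    refine (ae_restrict_iff' measurableSet_Ioi).2 (Filter.Eventually.of_forall fun u hu => ?_)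
    exact div_nonneg (Real.exp_pos _).le (lt_trans hx hu).le
  refine le_trans ?_ h1
  have hnot : (0 : ℝ) ∉ uIcc x 1 := by
    rw [uIcc_of_le hx1]
    exact fun h => absurd h.1 (not_le.2 hx)
  have hint : IntervalIntegrable (fun u : ℝ => u⁻¹ - 1) volume x 1 := by
    refine IntervalIntegrable.sub ?_ intervalIntegrable_const
    exact intervalIntegral.intervalIntegrable_inv (fun u hu => by
      rintro rfl
      exact hnot hu) continuousOn_id
  have h2 : ∫ u in x..1, (u⁻¹ - 1) = -Real.log x - 1 + x := by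
    rw [intervalIntegral.integral_sub _ intervalIntegrable_const, integral_inv hnot,
      intervalIntegral.integral_const, Real.log_div one_ne_zero hx.ne', Real.log_one]
    · simp only [smul_eq_mul, mul_one]
      ring
    · exact intervalIntegral.intervalIntegrable_inv (fun u hu => by
        rintro rfl
        exact hnot hu) continuousOn_id
  rw [← h2, intervalIntegral.integral_of_le hx1]
  refine setIntegral_mono_on hint.1 ((int_Vd hx).mono_set Ioc_subset_Ioi_self) measurableSet_Ioc ?_
  intro u hu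
  have hu0 : 0 < u := lt_trans hx hu.1
  have h3 : 1 - u ≤ Real.exp (-u) := by
    have := Real.add_one_le_exp (-u)
    linarith
  rw [le_div_iff₀ hu0, sub_mul, inv_mul_cancel₀ hu0.ne', one_mul]
  exact h3

end Pool.Agent.H98.B
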